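import Pool.Agent.P.MP_0354a7_al.Defs

/-!
A chart which compresses the half line to a bounded interval and keeps slowly decaying maps `C^2`.
-/

namespace Pool.Agent.P.MP_0354a7_al

open Real Filter Set Topology

namespace Chart

lemma exists_slow {u : ℕ → ℝ} (hu : Summable u) (hp : ∀ k, 0 < u k) :
    ∃ a : ℕ → ℝ, (∀ k, 0 < a k) ∧ Summable a ∧ ∑' k, a k / 2 ^ k = 1 ∧
      ∀ ε > 0, ∀ᶠ k in atTop, u k ≤ ε * a k := by
  set R : ℕ → ℝ := fun i => ∑' k, u (k + i) with hR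
  have hs : ∀ i, Summable fun k => u (k + i) := fun i => (summable_nat_add_iff i).2 hu
  have h1 : ∀ i, R i = u i + R (i + 1) := fun i => by
    simp only [hR]
    rw [(hs i).tsum_eq_zero_add, zero_add]
    simp only [add_assoc, add_comm 1 i]
  have h0 : ∀ i, 0 ≤ R i := fun i => tsum_nonneg fun k => (hp _).le
  set a : ℕ → ℝ := fun k => √(R k) - √(R (k + 1)) with ha
  have ha0 : ∀ k, 0 < a k := fun k =>
    sub_pos.2 (sqrt_lt_sqrt (h0 _) (by linarith [h1 k, hp k]))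
  have has : Summable a := summable_of_sum_range_le (c := √(R 0)) (fun k => (ha0 k).le) fun n => by
    rw [Finset.sum_range_sub' (fun k => √(R k)) n]
    linarith [sqrt_nonneg (R n)]
  have has' : Summable fun k => a k / 2 ^ k :=
    has.of_nonneg_of_le (fun k => (div_pos (ha0 k) (by positivity)).le)
      fun k => div_le_self (ha0 k).le (one_le_pow₀ one_le_two)
  have hS : 0 < ∑' k, a k / 2 ^ k :=
    has'.tsum_pos (fun k => (div_pos (ha0 k) (by positivity)).le) 0 (div_pos (ha0 0) (by positivity))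
  set S := ∑' k, a k / 2 ^ k with hSd
  refine ⟨fun k => a k / S, fun k => div_pos (ha0 k) hS, has.div_const S, ?_, fun ε hε => ?_⟩
  · simp only [div_right_comm _ S]
    rw [tsum_div_const, div_self hS.ne']
  · have h2 : Tendsto (fun k => √(R k)) atTop (𝓝 0) := by
      simpa using (tendsto_sum_nat_add u).sqrt
    filter_upwards [h2.eventually (ge_mem_nhds (show 0 < ε / S / 2 by positivity))] with k hk
    have e1 := mul_self_sqrt (h0 k)
    have e2 := mul_self_sqrt (h0 (k + 1))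
    have e3 : u k = (√(R k) + √(R (k + 1))) * a k := by
      simp only [ha]
      linarith [h1 k]
    have e4 : √(R (k + 1)) < √(R k) := sub_pos.1 (ha0 k)
    rw [e3, mul_div_assoc', mul_div_right_comm]
    exact mul_le_mul_of_nonneg_right (by linarith) (ha0 k).le

lemma term {G : ℝ} (hG : 1 ≤ G) (y : ℝ) :
    HasDerivAt (fun y => arctan (y / G)) (G / (G ^ 2 + y ^ 2)) y ∧
    HasDerivAt (fun y => G / (G ^ 2 + y ^ 2)) (-(2 * y) / (G ^ 2 + y ^ 2) * (G / (G ^ 2 + y ^ 2))) y ∧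
    HasDerivAt (fun y => -(2 * y) / (G ^ 2 + y ^ 2) * (G / (G ^ 2 + y ^ 2)))
      ((6 * y ^ 2 - 2 * G ^ 2) / (G ^ 2 + y ^ 2) ^ 2 * (G / (G ^ 2 + y ^ 2))) y := by
  have h0 : 0 < G ^ 2 + y ^ 2 := by positivity
  have hG0 : G ≠ 0 := by positivity
  have d : HasDerivAt (fun y => G ^ 2 + y ^ 2) (2 * y) y := by
    simpa using (hasDerivAt_pow 2 y).const_add (G ^ 2)
  have d1 : HasDerivAt (fun y => G / (G ^ 2 + y ^ 2))
      (-(2 * y) / (G ^ 2 + y ^ 2) * (G / (G ^ 2 + y ^ 2))) y := by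
    refine ((hasDerivAt_const y G).fun_div d h0.ne').congr_deriv ?_
    field_simp
    ring
  refine ⟨?_, d1, ?_⟩
  · refine ((hasDerivAt_id y).div_const G).arctan.congr_deriv ?_
    simp only [id]
    field_simp
  · refine ((((hasDerivAt_id y).const_mul 2).fun_neg.fun_div d h0.ne').fun_mul d1).congr_deriv ?_
    simp only [id]
    field_simp
    ring

lemma term_le {G : ℝ} (hG : 1 ≤ G) (y : ℝ) :
    0 < G / (G ^ 2 + y ^ 2) ∧ G / (G ^ 2 + y ^ 2) ≤ 1 / G ∧ |-(2 * y) / (G ^ 2 + y ^ 2)| ≤ 1 ∧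
    |(6 * y ^ 2 - 2 * G ^ 2) / (G ^ 2 + y ^ 2) ^ 2| ≤ 6 ∧
    |y * (-(2 * y) / (G ^ 2 + y ^ 2))| ≤ 2 ∧
    |y ^ 2 * ((6 * y ^ 2 - 2 * G ^ 2) / (G ^ 2 + y ^ 2) ^ 2)| ≤ 6 := by
  have h0 : 0 < G ^ 2 + y ^ 2 := by positivity
  have h1 : 1 ≤ G ^ 2 := one_le_pow₀ hG
  have h2 := sq_nonneg y
  refine ⟨by positivity, ?_, ?_, ?_, ?_, ?_⟩
  · rw [div_le_div_iff₀ h0 (by positivity)]
    nlinarith
  · rw [abs_div, abs_of_pos h0, div_le_iff₀ h0, abs_le]
    constructor <;> nlinarith [sq_nonneg (y - 1), sq_nonneg (y + 1)]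
  · rw [abs_div, abs_of_pos (pow_pos h0 2), div_le_iff₀ (pow_pos h0 2), abs_le]
    constructor <;> nlinarith
  · rw [← mul_div_assoc, abs_div, abs_of_pos h0, div_le_iff₀ h0, abs_le]
    constructor <;> nlinarith
  · rw [← mul_div_assoc, abs_div, abs_of_pos (pow_pos h0 2), div_le_iff₀ (pow_pos h0 2), abs_le]
    constructor <;> nlinarith

lemma exists_v {a : ℕ → ℝ} (ha : ∀ k, 0 < a k) (has : Summable a) (h1 : ∑' k, a k / 2 ^ k = 1) :
    ∃ H v v1 v2 : ℝ → ℝ, H 0 = 0 ∧ v 0 = 1 ∧ v1 0 = 0 ∧ (∀ y, HasDerivAt H (v y) y) ∧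
      (∀ y, HasDerivAt v (v1 y) y) ∧ (∀ y, HasDerivAt v1 (v2 y) y) ∧ (∀ y, v y ≤ 1) ∧
      (∀ y, |y * v1 y| ≤ 2 * v y) ∧ (∀ y, |y ^ 2 * v2 y| ≤ 6 * v y) ∧ (∃ Z, ∀ y, H y ≤ Z) ∧
      ∀ k y, a k * (2 ^ k / ((2 ^ k) ^ 2 + y ^ 2)) ≤ v y := by
  have hG : ∀ k : ℕ, (1 : ℝ) ≤ 2 ^ k := fun k => one_le_pow₀ one_le_two
  set g : ℕ → ℝ → ℝ := fun k y => a k * (2 ^ k / ((2 ^ k) ^ 2 + y ^ 2)) with hg
  have g0 : ∀ k y, 0 < g k y := fun k y => mul_pos (ha k) (term_le (hG k) y).1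
  have g1 : ∀ k y, g k y ≤ a k / 2 ^ k := fun k y => by
    rw [div_eq_mul_one_div]
    exact mul_le_mul_of_nonneg_left (term_le (hG k) y).2.1 (ha k).le
  have g2 : ∀ k y, g k y ≤ a k := fun k y => (g1 k y).trans (div_le_self (ha k).le (hG k))
  have gs : ∀ y, Summable fun k => g k y := fun y =>
    has.of_nonneg_of_le (fun k => (g0 k y).le) fun k => g2 k y
  have key : ∀ (r : ℕ → ℝ) (C y : ℝ), (∀ k, |r k| ≤ C) → ∀ k, ‖r k * g k y‖ ≤ C * g k y :=
    fun r C y h k => by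
      rw [Real.norm_eq_abs, abs_mul, abs_of_pos (g0 k y)]
      exact mul_le_mul_of_nonneg_right (h k) (g0 k y).le
  have hat : ∀ k y, ‖a k * arctan (y / 2 ^ k)‖ ≤ π / 2 * a k := fun k y => by
    rw [Real.norm_eq_abs, abs_mul, abs_of_pos (ha k), mul_comm]
    exact mul_le_mul_of_nonneg_right
      (abs_le.2 ⟨(neg_pi_div_two_lt_arctan _).le, (arctan_lt_pi_div_two _).le⟩) (ha k).le
  refine ⟨fun y => ∑' k, a k * arctan (y / 2 ^ k), fun y => ∑' k, g k y,
    fun y => ∑' k, -(2 * y) / ((2 ^ k) ^ 2 + y ^ 2) * g k y,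
    fun y => ∑' k, (6 * y ^ 2 - 2 * (2 ^ k) ^ 2) / ((2 ^ k) ^ 2 + y ^ 2) ^ 2 * g k y, by simp, ?_,
    by simp, fun y => ?_, fun y => ?_, fun y => ?_, fun y => ?_, fun y => ?_, fun y => ?_,
    ⟨∑' k, π / 2 * a k, fun y => ?_⟩, fun k y => (gs y).le_tsum k fun j _ => (g0 j y).le⟩
  · rw [← h1]
    refine tsum_congr fun k => ?_
    simp only [hg]
    field_simp
    ring
  · exact hasDerivAt_tsum has (fun k y => (term (hG k) y).1.const_mul (a k))
      (fun k y => by rw [Real.norm_of_nonneg (g0 k y).le]; exact g2 k y) (y₀ := 0) (by simp) y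
  · refine hasDerivAt_tsum (g' := fun k y => -(2 * y) / ((2 ^ k) ^ 2 + y ^ 2) * g k y) has
      (fun k y => ?_) (fun k y => ?_) (gs 0) y
    · refine ((term (hG k) y).2.1.const_mul (a k)).congr_deriv ?_
      simp only [hg]
      ring
    · exact (key _ 1 y (fun k => (term_le (hG k) y).2.2.1) k).trans (by linarith [g2 k y])
  · refine hasDerivAt_tsum (g := fun k y => -(2 * y) / ((2 ^ k) ^ 2 + y ^ 2) * g k y)
      (g' := fun k y => (6 * y ^ 2 - 2 * (2 ^ k) ^ 2) / ((2 ^ k) ^ 2 + y ^ 2) ^ 2 * g k y)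
      (has.mul_left 6) (fun k y => ?_) (fun k y => ?_) (y₀ := 0) (by simp) y
    · refine (((term (hG k) y).2.2.const_mul (a k)).congr_of_eventuallyEq
        (Eventually.of_forall fun z => ?_)).congr_deriv ?_ <;> simp only [hg] <;> ring
    · exact (key _ 6 y (fun k => (term_le (hG k) y).2.2.2.1) k).trans (by linarith [g2 k y])
  · rw [← h1]
    exact (gs y).tsum_le_tsum (fun k => g1 k y) (has.of_nonneg_of_le
      (fun k => (div_pos (ha k) (by positivity)).le) fun k => div_le_self (ha k).le (hG k))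
  · rw [← tsum_mul_left, ← tsum_mul_left, ← Real.norm_eq_abs]
    simp only [← mul_assoc]
    exact tsum_of_norm_bounded ((gs y).mul_left 2).hasSum
      (key _ 2 y fun k => (term_le (hG k) y).2.2.2.2.1)
  · rw [← tsum_mul_left, ← tsum_mul_left, ← Real.norm_eq_abs]
    simp only [← mul_assoc]
    exact tsum_of_norm_bounded ((gs y).mul_left 6).hasSum
      (key _ 6 y fun k => (term_le (hG k) y).2.2.2.2.2)
  · exact (le_abs_self _).trans (tsum_of_norm_bounded (has.mul_left _).hasSum fun k => hat k y)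

lemma glue {f g f' g' : ℝ → ℝ} (hf : ∀ y, HasDerivAt f (f' y) y) (hg : ∀ y, HasDerivAt g (g' y) y)
    (cf : Continuous f') (cg : Continuous g') (h0 : f 0 = g 0) (h0' : f' 0 = g' 0) (y : ℝ) :
    HasDerivAt (fun y => if y ≤ 0 then f y else g y) (if y ≤ 0 then f' y else g' y) y := by
  refine hasDerivAt_of_hasDerivAt_of_ne' (x := 0) (g := fun y => if y ≤ 0 then f' y else g' y)
    (fun z hz => ?_) (Continuous.if_le (continuous_iff_continuousAt.2 fun x => (hf x).continuousAt)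
      (continuous_iff_continuousAt.2 fun x => (hg x).continuousAt) continuous_id continuous_const
      (by rintro _ rfl; exact h0)).continuousAt
    (Continuous.if_le cf cg continuous_id continuous_const
      (by rintro _ rfl; exact h0')).continuousAt y
  rcases lt_or_gt_of_ne hz with h | h
  · rw [if_pos h.le]
    exact (hf z).congr_of_eventuallyEq ((eventually_lt_nhds h).mono fun w hw => if_pos (le_of_lt hw))
  · rw [if_neg h.not_ge]
    exact (hg z).congr_of_eventuallyEq ((eventually_gt_nhds h).mono fun w hw => if_neg (not_le.2 hw))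

lemma mvt_Ici {f f' : ℝ → ℝ} (h : ∀ x, HasDerivAt f (f' x) x) {r C : ℝ}
    (hC : ∀ x, r ≤ x → |f' x| ≤ C) {x y : ℝ} (hx : r ≤ x) (hy : r ≤ y) :
    |f x - f y| ≤ C * |x - y| :=
  Convex.norm_image_sub_le_of_norm_hasDerivWithin_le (s := Ici r) (f := f) (f' := f')
    (fun z _ => (h z).hasDerivWithinAt) hC (convex_Ici r) hy hx

/-- The chart `h`, with `h' = exp l` and `l' = m`. -/
lemma exists_h (c : ℝ) (hc : 1 ≤ c) (b : ℕ → ℝ) (hb : Summable fun k : ℕ => 2 ^ k * b k) :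
    ∃ h l m : ℝ → ℝ, (∀ y, y ≤ 0 → h y = y) ∧ (∀ y, HasDerivAt h (exp (l y)) y) ∧
      (∀ y, HasDerivAt l (m y) y) ∧ Continuous m ∧ BddAbove (range h) ∧ (∀ y, exp (l y) ≤ 1) ∧
      (∀ r y, 0 < r → r ≤ y → |m y| ≤ 2 / r) ∧
      (∀ r x y, 0 < r → r ≤ x → r ≤ y → |m x - m y| ≤ 10 / r ^ 2 * |x - y|) ∧
      ∀ ε > 0, ∀ᶠ y in atTop, 1 / y ^ 2 ≤ ε * exp (l y) ∧
        ∃ k : ℕ, c * 2 ^ k ≤ y ∧ y ≤ c * 2 ^ (k + 1) ∧ b k ≤ ε * exp (l y) := by
  obtain ⟨a, ha, has, h1, hu⟩ := exists_slow (u := fun k => |2 ^ k * b k| + (1 / 2) ^ k)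
    (hb.abs.add summable_geometric_two) fun k => by positivity
  obtain ⟨H, v, v1, v2, H0, v0, v10, dH, dv, dv1, vle, b1, b2, ⟨Z, hZ⟩, vge⟩ := exists_v ha has h1
  have vp : ∀ y, 0 < v y := fun y => lt_of_lt_of_le (by have := ha 0; positivity) (vge 0 y)
  have cv : Continuous v := continuous_iff_continuousAt.2 fun x => (dv x).continuousAt
  have cv1 : Continuous v1 := continuous_iff_continuousAt.2 fun x => (dv1 x).continuousAt
  have cm : Continuous fun y => v1 y / v y := cv1.div cv fun y => (vp y).ne'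
  have hl : ∀ y, exp (if y ≤ 0 then 0 else log (v y)) = if y ≤ 0 then 1 else v y := fun y => by
    split_ifs
    · exact exp_zero
    · exact exp_log (vp y)
  have m1 : ∀ r y, 0 < r → r ≤ y → |v1 y / v y| ≤ 2 / r := fun r y hr hy => by
    have e := b1 y
    rw [abs_mul, abs_of_pos (hr.trans_le hy)] at e
    rw [abs_div, abs_of_pos (vp y), div_le_div_iff₀ (vp y) hr]
    nlinarith [abs_nonneg (v1 y)]
  refine ⟨fun y => if y ≤ 0 then y else H y, fun y => if y ≤ 0 then 0 else log (v y),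
    fun y => if y ≤ 0 then 0 else v1 y / v y, fun y hy => if_pos hy, fun y => ?_,
    glue (fun y => hasDerivAt_const y 0) (fun y => (dv y).log (vp y).ne') continuous_const cm
      (by rw [v0, log_one]) (by rw [v10, zero_div]),
    Continuous.if_le continuous_const cm continuous_id continuous_const
      (by rintro _ rfl; simp [v10]), ⟨Z, ?_⟩, fun y => ?_, fun r y hr hy => ?_,
    fun r x y hr hx hy => ?_, fun ε hε => ?_⟩
  · rw [hl]
    exact glue (fun y => hasDerivAt_id y) dH continuous_const cv H0.symm v0.symm y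
  · rintro _ ⟨y, rfl⟩
    beta_reduce
    split_ifs with h
    · linarith [hZ 0]
    · exact hZ y
  · rw [hl]
    split_ifs
    · exact le_rfl
    · exact vle y
  · beta_reduce
    rw [if_neg (hr.trans_le hy).not_ge]
    exact m1 r y hr hy
  · beta_reduce
    rw [if_neg (hr.trans_le hx).not_ge, if_neg (hr.trans_le hy).not_ge]
    refine mvt_Ici (f := fun y => v1 y / v y) (fun z => (dv1 z).fun_div (dv z) (vp z).ne')
      (fun z hz => ?_) hx hy
    have e1 : (v2 z * v z - v1 z * v1 z) / v z ^ 2 = v2 z / v z - (v1 z / v z) * (v1 z / v z) := by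
      have := (vp z).ne'
      field_simp
    have e2 : |v2 z / v z| ≤ 6 / r ^ 2 := by
      have e := b2 z
      rw [abs_mul, abs_of_nonneg (sq_nonneg z)] at e
      rw [abs_div, abs_of_pos (vp z), div_le_div_iff₀ (vp z) (by positivity)]
      have : r ^ 2 ≤ z ^ 2 := by gcongr
      nlinarith [abs_nonneg (v2 z)]
    have e3 := mul_le_mul (m1 r z hr hz) (m1 r z hr hz) (abs_nonneg _) (by positivity)
    have e4 : 10 / r ^ 2 = 6 / r ^ 2 + 2 / r * (2 / r) := by
      field_simp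
      ring
    rw [e1, e4]
    exact (abs_sub _ _).trans (by rw [abs_mul]; linarith)
  · obtain ⟨K, hK⟩ := eventually_atTop.1 (hu (ε / (1 + 4 * c ^ 2)) (by positivity))
    filter_upwards [eventually_ge_atTop (c * 2 ^ K)] with y hy
    have c0 : 0 < c := by linarith
    have y1 : c ≤ y := le_trans (le_mul_of_one_le_right c0.le (one_le_pow₀ one_le_two)) hy
    obtain ⟨k, k1, k2⟩ := exists_nat_pow_near ((one_le_div c0).2 y1) one_lt_two
    rw [le_div_iff₀' c0] at k1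
    rw [div_lt_iff₀' c0] at k2
    have k3 : K ≤ k := Nat.lt_succ_iff.1 ((pow_lt_pow_iff_right₀ one_lt_two).1
      (lt_of_mul_lt_mul_left (hy.trans_lt k2) c0.le))
    have G1 : (1 : ℝ) ≤ 2 ^ k := one_le_pow₀ one_le_two
    have e1 : 1 / (1 + 4 * c ^ 2) / 2 ^ k ≤ 2 ^ k / ((2 ^ k) ^ 2 + y ^ 2) := by
      rw [div_div, div_le_div_iff₀ (by positivity) (by positivity)]
      have : y ^ 2 ≤ (c * 2 ^ (k + 1)) ^ 2 := pow_le_pow_left₀ (by linarith) k2.le 2
      rw [pow_succ 2 k] at this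
      nlinarith
    have e2 : (|2 ^ k * b k| + (1 / 2) ^ k) / 2 ^ k ≤ ε * v y := by
      calc _ ≤ ε / (1 + 4 * c ^ 2) * a k / 2 ^ k := by gcongr; exact hK k k3
        _ = ε * (a k * (1 / (1 + 4 * c ^ 2) / 2 ^ k)) := by ring
        _ ≤ ε * (a k * (2 ^ k / ((2 ^ k) ^ 2 + y ^ 2))) := by have := ha k; gcongr
        _ ≤ _ := by have := vge k y; gcongr
    have e3 : (|2 ^ k * b k| + (1 / 2) ^ k) / 2 ^ k = |b k| + 1 / ((2 : ℝ) ^ k) ^ 2 := by
      rw [abs_mul, abs_of_pos (by positivity : (0 : ℝ) < 2 ^ k), one_div_pow]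
      field_simp
    have e4 : 1 / y ^ 2 ≤ 1 / ((2 : ℝ) ^ k) ^ 2 := by
      have : (2 : ℝ) ^ k ≤ y := by nlinarith
      gcongr
    have e5 : 0 ≤ 1 / ((2 : ℝ) ^ k) ^ 2 := by positivity
    rw [hl, if_neg (by linarith)]
    exact ⟨by linarith [abs_nonneg (b k)], k, k1, k2.le, by linarith [le_abs_self (b k)]⟩

section Down

variable {h l g : ℝ → ℝ} {Z : ℝ}

lemma down_cont (cg : ∀ x < Z, ContinuousAt g x) (tg : Tendsto g (𝓝[<] Z) atTop) {f : ℝ → ℝ}
    (cf : Continuous f) (tf : Tendsto f atTop (𝓝 0)) :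
    Continuous fun x => if x < Z then f (g x) else 0 := by
  refine continuous_iff_continuousAt.2 fun x => ?_
  rcases lt_trichotomy x Z with hx | rfl | hx
  · exact (cf.continuousAt.comp (cg x hx)).congr ((eventually_lt_nhds hx).mono fun w hw => (if_pos hw).symm)
  · rw [ContinuousAt, if_neg (lt_irrefl x)]
    nth_rewrite 1 [← nhdsLT_sup_nhdsGE]
    refine Tendsto.sup ((tf.comp tg).congr' ?_) (tendsto_const_nhds.congr' ?_)
    · exact eventually_nhdsWithin_of_forall fun w hw => (if_pos hw).symm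
    · exact eventually_nhdsWithin_of_forall fun w hw => (if_neg (not_lt.2 hw)).symm
  · exact continuousAt_const.congr
      ((eventually_gt_nhds hx).mono fun w hw => (if_neg (not_lt.2 (le_of_lt hw))).symm)

lemma down_deriv (dg : ∀ x < Z, HasDerivAt g (exp (l (g x)))⁻¹ x) (tg : Tendsto g (𝓝[<] Z) atTop)
    {f f' : ℝ → ℝ} (df : ∀ y, HasDerivAt f (f' y * exp (l y)) y) (cf : Continuous f')
    (tf : Tendsto f atTop (𝓝 0)) (tf' : Tendsto f' atTop (𝓝 0)) (x : ℝ) :
    HasDerivAt (fun x => if x < Z then f (g x) else 0) (if x < Z then f' (g x) else 0) x := by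
  have cg : ∀ x < Z, ContinuousAt g x := fun x hx => (dg x hx).continuousAt
  refine hasDerivAt_of_hasDerivAt_of_ne' (x := Z) (g := fun x => if x < Z then f' (g x) else 0)
    (fun z hz => ?_) (down_cont cg tg
      (continuous_iff_continuousAt.2 fun y => (df y).continuousAt) tf).continuousAt
    (down_cont cg tg cf tf').continuousAt x
  rcases lt_or_gt_of_ne hz with h | h
  · have := (df (g z)).comp z (dg z h)
    rw [mul_inv_cancel_right₀ (exp_pos _).ne'] at this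
    rw [if_pos h]
    exact this.congr_of_eventuallyEq ((eventually_lt_nhds h).mono fun w hw => if_pos hw)
  · rw [if_neg h.not_gt]
    exact (hasDerivAt_const z 0).congr_of_eventuallyEq
      ((eventually_gt_nhds h).mono fun w hw => if_neg (not_lt.2 (le_of_lt hw)))

end Down

lemma tendsto_zero_of {f : ℝ → ℝ} {C : ℝ}
    (h : ∀ ε, 0 < ε → ε ≤ 1 → ∀ᶠ y in atTop, |f y| ≤ C * ε) : Tendsto f atTop (𝓝 0) := by
  refine Metric.tendsto_nhds.2 fun δ hδ => ?_
  have h1 : 0 < |C| + 1 := by positivity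
  filter_upwards [h (min 1 (δ / (|C| + 1))) (by positivity) (min_le_left _ _)] with y hy
  have h2 : min 1 (δ / (|C| + 1)) * (|C| + 1) ≤ δ := (le_div_iff₀ h1).1 (min_le_right _ _)
  have h3 : 0 < min 1 (δ / (|C| + 1)) := by positivity
  rw [Real.dist_0_eq_abs]
  nlinarith [le_abs_self C]

end Chart

open Chart

theorem chart (c : ℝ) (hc : 1 ≤ c) (b : ℕ → ℝ) (hb : Summable fun k : ℕ => 2 ^ k * b k) :
    ∃ E : Equiv.Perm ℝ →* Equiv.Perm ℝ,
      (∀ Φ : Equiv.Perm ℝ, (∀ x, 0 ≤ x → Φ x = x) → E Φ = Φ) ∧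
      ∀ Φ : Equiv.Perm ℝ, IsReg Φ → (∃ R : ℝ, ∀ x, x ≤ R → Φ x = x) →
        (∃ D : ℝ, ∀ x, |Φ x - x| ≤ D) →
        (∀ (k : ℕ) (x : ℝ), c * 2 ^ k ≤ x → x ≤ c * 2 ^ (k + 1) →
          ph Φ x ^ 2 ≤ b k ∧ |nl Φ x| ≤ b k) → IsD2 (E Φ) := by
  obtain ⟨h, l, m, h0, dh, dl, cm, hbd, l1, m1, m2, hz⟩ := exists_h c hc b hb
  have sm : StrictMono h := strictMono_of_hasDerivAt_pos dh fun _ => exp_pos _
  have ch : Continuous h := continuous_iff_continuousAt.2 fun x => (dh x).continuousAt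
  have cl : Continuous l := continuous_iff_continuousAt.2 fun x => (dl x).continuousAt
  set Z := ⨆ y, h y with hZ
  have hlt : ∀ y, h y < Z := fun y => (sm (lt_add_one y)).trans_le (le_ciSup hbd _)
  have Z0 : 0 < Z := h0 0 le_rfl ▸ hlt 0
  have hsurj : ∀ x < Z, ∃ y, h y = x := fun x hx => by
    obtain ⟨y, hy⟩ := exists_lt_of_lt_ciSup hx
    exact mem_range_of_exists_le_of_exists_ge ch
      ⟨min x 0, (h0 _ (min_le_right _ _)).trans_le (min_le_left _ _)⟩ ⟨y, hy.le⟩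
  set g := Function.invFun h with hg
  have gh : ∀ y, g (h y) = y := Function.leftInverse_invFun sm.injective
  have dg : ∀ x < Z, HasDerivAt g (exp (l (g x)))⁻¹ x := fun x hx => by
    obtain ⟨y, rfl⟩ := hsurj x hx
    rw [gh]
    exact ((hasStrictDerivAt_of_hasDerivAt_of_continuousAt (Eventually.of_forall dh)
      cl.rexp.continuousAt).to_local_left_inverse (exp_pos _).ne'
        (Eventually.of_forall gh)).hasDerivAt
  have tg : Tendsto g (𝓝[<] Z) atTop := tendsto_atTop.2 fun y => by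
    filter_upwards [Ioo_mem_nhdsLT (hlt y)] with x hx
    obtain ⟨w, rfl⟩ := hsurj x hx.2
    rw [gh]
    exact (sm.lt_iff_lt.1 hx.1).le
  set e : ℝ ≃ {x // x < Z} := Equiv.ofBijective (fun y => ⟨h y, hlt y⟩)
    ⟨fun x y hxy => sm.injective (congrArg Subtype.val hxy), fun x =>
      (hsurj x.1 x.2).imp fun y hy => Subtype.ext hy⟩ with he
  have E1 : ∀ (Φ : Equiv.Perm ℝ) y, Equiv.Perm.extendDomainHom e Φ (h y) = h (Φ y) :=
    fun Φ y => Equiv.Perm.extendDomain_apply_image Φ e y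
  have E2 : ∀ (Φ : Equiv.Perm ℝ) x, Z ≤ x → Equiv.Perm.extendDomainHom e Φ x = x :=
    fun Φ x hx => Equiv.Perm.extendDomain_apply_not_subtype Φ e hx.not_gt
  refine ⟨Equiv.Perm.extendDomainHom e, fun Φ hΦ => Equiv.ext fun x => ?_, ?_⟩
  · rcases lt_or_ge x Z with hx | hx
    · obtain ⟨y, rfl⟩ := hsurj x hx
      rw [E1]
      rcases le_or_gt 0 y with hy | hy
      · rw [hΦ y hy, hΦ _ (h0 0 le_rfl ▸ sm.monotone hy)]
      · rw [h0 y hy.le]
        refine h0 _ (le_of_not_gt fun h1 => ?_)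
        have := Φ.injective (hΦ _ h1.le)
        linarith
    · rw [E2 _ _ hx, hΦ x (by linarith)]
  rintro Φ hΦ ⟨R, hR⟩ ⟨D, hD⟩ hk
  have D0 : 0 ≤ D := (abs_nonneg _).trans (hD 0)
  have big : ∀ ε, 0 < ε → ∀ᶠ y in atTop, 0 < y ∧ y / 2 ≤ Φ y ∧ 1 / y ^ 2 ≤ ε * exp (l y) ∧
      ph Φ y ^ 2 ≤ ε * exp (l y) ∧ |nl Φ y| ≤ ε * exp (l y) := fun ε hε => by
    filter_upwards [hz ε hε, eventually_ge_atTop (2 * D + 1)] with y ⟨h1, k, k1, k2, k3⟩ hy
    exact ⟨by linarith, by linarith [(abs_le.1 (hD y)).1], h1, (hk k y k1 k2).1.trans k3,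
      (hk k y k1 k2).2.trans k3⟩
  have tΦ : Tendsto Φ atTop atTop := tendsto_atTop_mono' _
    ((big 1 one_pos).mono fun y hy => hy.2.1) (tendsto_id.atTop_div_const two_pos)
  have th : Tendsto h atTop (𝓝 Z) := tendsto_atTop_ciSup sm.monotone hbd
  have t1 : Tendsto (fun y => h (Φ y) - h y) atTop (𝓝 0) := by
    simpa using (th.comp tΦ).sub th
  have t2 : Tendsto (fun y => l (Φ y) + ph Φ y - l y) atTop (𝓝 0) := by
    refine tendsto_zero_of (C := 4 * D + 1) fun ε hε _ => ?_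
    filter_upwards [big (ε ^ 2) (by positivity)] with y ⟨y0, y1, y2, y3, _⟩
    have e0 : ε ^ 2 * exp (l y) ≤ ε ^ 2 := mul_le_of_le_one_right (by positivity) (l1 y)
    have e1 := mvt_Ici dl (r := y / 2) (fun z hz => m1 _ z (by positivity) hz) y1
      (half_le_self y0.le)
    have e2 : |ph Φ y| ≤ ε := abs_le_of_sq_le_sq' (y3.trans e0) hε.le |> abs_le.2
    have e3 : 1 / y ≤ ε := (abs_le_of_sq_le_sq' (by rw [one_div_pow]; linarith) hε.le).2
    have e4 : 2 / (y / 2) * |Φ y - y| ≤ 4 * ε * D :=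
      mul_le_mul (by rw [show 2 / (y / 2) = 4 * (1 / y) by ring]; linarith) (hD y) (abs_nonneg _)
        (by positivity)
    rw [add_sub_right_comm]
    exact (abs_add_le _ _).trans (by linarith)
  have t3 : Tendsto (fun y => (m (Φ y) * exp (ph Φ y) + nl Φ y - m y) * exp (-l y)) atTop
      (𝓝 0) := by
    refine tendsto_zero_of (C := 40 * D + 9) fun ε hε hε1 => ?_
    filter_upwards [big ε hε] with y ⟨y0, y1, y2, y3, y4⟩
    have e0 : ε * exp (l y) ≤ 1 := (mul_le_of_le_one_right hε.le (l1 y)).trans hε1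
    have e1 := m2 (y / 2) _ y (by positivity) y1 (by linarith)
    have e2 : |ph Φ y| ≤ 1 := (sq_le_one_iff_abs_le_one _).1 (y3.trans e0)
    have e3 := mul_le_mul (m1 (y / 2) _ (by positivity) y1) (abs_exp_sub_one_le e2) (abs_nonneg _)
      (by positivity)
    have e4 : 10 / (y / 2) ^ 2 * |Φ y - y| ≤ 40 * (ε * exp (l y)) * D :=
      mul_le_mul (by rw [show 10 / (y / 2) ^ 2 = 40 * (1 / y ^ 2) by ring]; linarith) (hD y)
        (abs_nonneg _) (by positivity)
    have e5 : 2 / (y / 2) * (2 * |ph Φ y|) ≤ 4 * (1 / y ^ 2) + 4 * ph Φ y ^ 2 := by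
      rw [← sq_abs (ph Φ y), ← one_div_pow, show 2 / (y / 2) = 4 * (1 / y) by ring]
      nlinarith [sq_nonneg (1 / y - |ph Φ y|)]
    rw [abs_mul, abs_of_pos (exp_pos _), exp_neg, ← div_eq_mul_inv, div_le_iff₀ (exp_pos _),
      show m (Φ y) * exp (ph Φ y) + nl Φ y - m y =
        m (Φ y) * (exp (ph Φ y) - 1) + (m (Φ y) - m y) + nl Φ y by ring]
    refine (abs_add_three _ _ _).trans ?_
    rw [abs_mul]
    linarith
  have c2 : Continuous fun y => l (Φ y) + ph Φ y - l y :=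
    ((cl.comp (Reg.continuous hΦ)).add (Reg.continuous_phi hΦ)).sub cl
  have c3 : Continuous fun y => (m (Φ y) * exp (ph Φ y) + nl Φ y - m y) * exp (-l y) :=
    ((((cm.comp (Reg.continuous hΦ)).mul (Reg.continuous_phi hΦ).rexp).add hΦ.cont).sub cm).mul
      cl.neg.rexp
  refine Reg.isD2 (φ := fun x => if x < Z then l (Φ (g x)) + ph Φ (g x) - l (g x) else 0)
    ⟨fun x => ?_, down_deriv dg tg (fun y => ?_) c3 t2 t3,
      down_cont (fun x hx => (dg x hx).continuousAt) tg c3 t3⟩ ⟨|R| + Z, fun x hx => ?_⟩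
  · have d := down_deriv dg tg (f := fun y => h (Φ y) - h y)
      (f' := fun y => exp (l (Φ y) + ph Φ y - l y) - 1) (fun y => ?_)
      (c2.rexp.sub continuous_const) t1 (by simpa using t2.rexp.sub_const 1) x
    · refine (((hasDerivAt_id x).fun_add d).congr_of_eventuallyEq
        (Eventually.of_forall fun w => ?_)).congr_deriv ?_
      · simp only [id]
        split_ifs with hw
        · obtain ⟨y, rfl⟩ := hsurj w hw
          rw [E1, gh, add_sub_cancel]
        · rw [E2 _ _ (not_lt.1 hw), add_zero]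
      · split_ifs <;> simp
    · refine (((dh (Φ y)).comp y (hΦ.d1 y)).sub (dh y)).congr_deriv ?_
      rw [sub_mul, ← exp_add, ← exp_add, sub_add_cancel, one_mul]
  · refine ((((dl (Φ y)).comp y (hΦ.d1 y)).add (hΦ.d2 y)).sub (dl y)).congr_deriv ?_
    rw [mul_assoc, ← exp_add, neg_add_cancel, exp_zero, mul_one]
  · rcases le_or_gt 0 x with x0 | x0
    · rw [abs_of_nonneg x0] at hx
      exact E2 _ _ (by linarith [abs_nonneg R])
    · rw [abs_of_neg x0] at hx
      have e1 := h0 x x0.le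
      rw [← e1, E1, hR x (by linarith [neg_abs_le R])]

end Pool.Agent.P.MP_0354a7_al
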