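import Pool.Agent.P.MP_0354a7_al.ChainA
import Pool.Agent.P.MP_0354a7_al.Chart

/-!
The infinite chain of bridges gives a product of two commutators.
-/

namespace Pool.Agent.P.MP_0354a7_al

theorem chain (F : ℕ → Equiv.Perm ℝ) (c : ℝ) (μ ν : ℕ → ℝ) (hc : 1 ≤ c) (hr : ∀ k, IsReg (F k))
    (hp : ∀ k, Per (F k)) (hb : ∀ k, Br (F k) (F (k + 1)) (c * 2 ^ k) (μ k) (ν k))
    (hs : Summable fun k : ℕ => 2 ^ k * (μ k ^ 2 + ν k))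
    (h0 : ∀ x, |x| ≤ 1 / 4 → F 0 x = x) (f : Equiv.Perm ℝ)
    (h1 : ∀ x, -1 ≤ x → x ≤ 0 → f x = F 0 x) (h2 : ∀ x, x ≤ -1 ∨ 0 ≤ x → f x = x) :
    f ∈ Comm := by
  obtain ⟨E, E1, E2⟩ := chart c hc (fun k => μ k ^ 2 + ν k) hs
  exact chain_of F c μ ν hc hr hp hb h0 f h1 h2 E E1 E2

end Pool.Agent.P.MP_0354a7_al
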