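import Pool.Agent.P.MP_0354a7_al.Defs

/-!
Gluing of bridges: monotonicity, transitivity, and the infinite chain on a half-line.
-/

namespace Pool.Agent.P.MP_0354a7_al

open Real Filter Topology

theorem Bd.mono {μ μ' ν ν' : ℝ} {e : Equiv.Perm ℝ} (h : Bd μ ν e) (hμ : μ ≤ μ') (hν : ν ≤ ν') :
    Bd μ' ν' e :=
  ⟨h.1, fun x => ⟨(h.2 x).1.trans hμ, (h.2 x).2.1.trans hν, (h.2 x).2.2⟩⟩

theorem Br.mono {F F' : Equiv.Perm ℝ} {L L' μ μ' ν ν' : ℝ} (h : Br F F' L μ ν) (hL : L ≤ L')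
    (hμ : μ ≤ μ') (hν : ν ≤ ν') : Br F F' L' μ' ν' := by
  intro Y
  obtain ⟨U, K, d, b⟩ := h Y
  exact ⟨U, K, d, b.left, fun x hx => b.right x (by linarith),
    fun x hx => b.supp x (hx.imp id fun h => by linarith), b.rel, b.bdU.mono hμ hν,
    b.bdK.mono hμ hν, b.bdd.mono hμ hν⟩

theorem ev_left {e e' : Equiv.Perm ℝ} {p x : ℝ} (h : ∀ y, y ≤ p → e y = e' y) (hx : x < p) :
    (e : ℝ → ℝ) =ᶠ[𝓝 x] e' := by
  filter_upwards [Iio_mem_nhds hx] with y hy using h y (le_of_lt hy)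

theorem ev_right {e e' : Equiv.Perm ℝ} {p x : ℝ} (h : ∀ y, p ≤ y → e y = e' y) (hx : p < x) :
    (e : ℝ → ℝ) =ᶠ[𝓝 x] e' := by
  filter_upwards [Ioi_mem_nhds hx] with y hy using h y (le_of_lt hy)

theorem Bd.glue {μ ν p : ℝ} {e e1 e2 : Equiv.Perm ℝ} (h1 : Bd μ ν e1) (h2 : Bd μ ν e2)
    (l : ∀ x, x ≤ p + 2 → e x = e1 x) (r : ∀ x, p - 2 ≤ x → e x = e2 x) : Bd μ ν e := by
  have key : ∀ x, ∃ e' : Equiv.Perm ℝ, Bd μ ν e' ∧ (e : ℝ → ℝ) =ᶠ[𝓝 x] e' := fun x => by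
    rcases lt_or_ge x (p + 2) with hx | hx
    · exact ⟨e1, h1, ev_left l hx⟩
    · exact ⟨e2, h2, ev_right r (by linarith)⟩
  refine ⟨isReg_of_local fun x => (key x).imp fun e' h => ⟨h.1.1, h.2⟩, fun x => ?_⟩
  obtain ⟨e', b, q⟩ := key x
  rw [(ph_congr q).self_of_nhds, (nl_congr q).self_of_nhds, q.self_of_nhds]
  exact b.2 x

theorem commute_of_sep {a b : Equiv.Perm ℝ} {p : ℝ} (ha : ∀ x, p ≤ x → a x = x)
    (hb : ∀ x, x ≤ p → b x = x) : Commute a b :=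
  Equiv.Perm.Disjoint.commute fun x => (le_total p x).imp (ha x) (hb x)

theorem mul_right_eq {a b : Equiv.Perm ℝ} {p q : ℝ} (hpq : p ≤ q) (ha : ∀ x, p ≤ x → a x = x)
    (hb : ∀ x, x ≤ q → b x = x) (x : ℝ) (hx : p ≤ x) : (a * b) x = b x := by
  refine ha _ ?_
  by_contra c
  have h1 : b (b x) = b x := hb _ (by linarith)
  have h2 : b x = x := b.injective h1
  exact c (by linarith)

theorem comp {f F U1 K1 d1 U2 K2 d2 : Equiv.Perm ℝ} {Y : ℝ} (hf : ∀ x, Y + 2 ≤ x → f x = x)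
    (hr : IsReg F) (hp : Per F) (m2 : IsReg U2) (r1 : ∀ x, Y - 2 ≤ x → U1 x = F x)
    (hF : F (Y - 2) ≤ Y + 2) (s1 : ∀ x, Y - 2 ≤ x → K1 x = x ∧ d1 x = x)
    (l2 : ∀ x, x ≤ Y + 2 → U2 x = F x) (s2 : ∀ x, x ≤ Y + 2 → K2 x = x ∧ d2 x = x)
    (rel1 : U1 * tr 1 * U1⁻¹ * (tr 1)⁻¹ = f * (K1 * d1 * K1⁻¹ * d1⁻¹))
    (rel2 : U2 * tr 1 * U2⁻¹ * (tr 1)⁻¹ = K2 * d2 * K2⁻¹ * d2⁻¹) :
    (U1 * F⁻¹ * U2) * tr 1 * (U1 * F⁻¹ * U2)⁻¹ * (tr 1)⁻¹ =
        f * ((K1 * K2) * (d1 * d2) * (K1 * K2)⁻¹ * (d1 * d2)⁻¹) ∧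
      (∀ x, x ≤ Y + 2 → (U1 * F⁻¹ * U2) x = U1 x ∧ (K1 * K2) x = K1 x ∧ (d1 * d2) x = d1 x) ∧
      (∀ x, Y - 2 ≤ x → (U1 * F⁻¹ * U2) x = U2 x ∧ (K1 * K2) x = K2 x ∧ (d1 * d2) x = d2 x) := by
  have P : ∀ y, F (Y - 2) ≤ y → (U1 * F⁻¹) y = y := fun y hy => by
    have : Y - 2 ≤ F⁻¹ y := by
      have := (Reg.strictMono_inv hr).monotone hy
      rwa [inv_ap] at this
    rw [Equiv.Perm.mul_apply, r1 _ this, ap_inv]
  refine ⟨?_, fun x hx => ⟨?_, ?_, ?_⟩, fun x hx => ⟨?_, ?_, ?_⟩⟩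
  · have sK := fun x hx => (s2 x hx).1
    have sd := fun x hx => (s2 x hx).2
    have P' : ∀ y, Y + 2 ≤ y → (U1 * F⁻¹) y = y := fun y hy => P y (hF.trans hy)
    have k1 : ∀ y, Y + 2 ≤ y → K1 y = y := fun y hy => (s1 y (by linarith)).1
    have k2 : ∀ y, Y + 2 ≤ y → d1 y = y := fun y hy => (s1 y (by linarith)).2
    have cm : ∀ {a : Equiv.Perm ℝ}, (∀ y, Y + 2 ≤ y → a y = y) →
        Commute a (K2 * d2 * K2⁻¹ * d2⁻¹) := fun {a} ha =>
      (((commute_of_sep ha sK).mul_right (commute_of_sep ha sd)).mul_right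
        (commute_of_sep ha sK).inv_right).mul_right (commute_of_sep ha sd).inv_right
    have hT : F⁻¹ * tr 1 * F = tr 1 := by
      rw [mul_assoc, ← hp.comm_tr, inv_mul_cancel_left]
    have e1 : (U1 * F⁻¹ * U2) * tr 1 * (U1 * F⁻¹ * U2)⁻¹ * (tr 1)⁻¹ =
        (U1 * F⁻¹) * (U2 * tr 1 * U2⁻¹ * (tr 1)⁻¹) * tr 1 * (U1 * F⁻¹)⁻¹ * (tr 1)⁻¹ := by group
    have e2 : (K2 * d2 * K2⁻¹ * d2⁻¹) * (U1 * F⁻¹) * tr 1 * (U1 * F⁻¹)⁻¹ * (tr 1)⁻¹ =
        (K2 * d2 * K2⁻¹ * d2⁻¹) * (U1 * (F⁻¹ * tr 1 * F) * U1⁻¹ * (tr 1)⁻¹) := by group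
    rw [e1, rel2, (cm P').eq, e2, hT, rel1, ← mul_assoc _ f, ← (cm hf).eq, mul_assoc f]
    congr 1
    have c1 := commute_of_sep k1 sK
    have c2 := commute_of_sep k1 sd
    have c3 := commute_of_sep k2 sK
    have c4 := commute_of_sep k2 sd
    have c5 : Commute (K1 * d1 * K1⁻¹) (K2 * d2 * K2⁻¹ * d2⁻¹) :=
      ((cm k1).mul_left (cm k2)).mul_left (cm k1).inv_left
    calc K2 * d2 * K2⁻¹ * d2⁻¹ * (K1 * d1 * K1⁻¹ * d1⁻¹)
        = (K2 * d2 * K2⁻¹ * d2⁻¹ * (K1 * d1 * K1⁻¹)) * d1⁻¹ := by group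
      _ = K1 * d1 * (K1⁻¹ * (K2 * d2 * K2⁻¹)) * d2⁻¹ * d1⁻¹ := by rw [← c5.eq]; group
      _ = K1 * (d1 * K2) * d2 * K2⁻¹ * K1⁻¹ * d2⁻¹ * d1⁻¹ := by
        rw [(((c1.mul_right c2).mul_right c1.inv_right).inv_left).eq]; group
      _ = _ := by rw [c3.eq]; group
  · rw [Equiv.Perm.mul_apply, Equiv.Perm.mul_apply, l2 x hx, inv_ap]
  · rw [Equiv.Perm.mul_apply, (s2 x hx).1]
  · rw [Equiv.Perm.mul_apply, (s2 x hx).2]
  · rw [Equiv.Perm.mul_apply]
    refine P _ ?_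
    rw [← l2 _ (by linarith)]
    exact (Reg.strictMono m2).monotone hx
  · exact mul_right_eq (by linarith) (fun x hx => (s1 x hx).1) (fun x hx => (s2 x hx).1) x hx
  · exact mul_right_eq (by linarith) (fun x hx => (s1 x hx).2) (fun x hx => (s2 x hx).2) x hx

theorem Br.trans {F F' F'' : Equiv.Perm ℝ} {L L' μ ν : ℝ} (h : Br F F' L μ ν)
    (h' : Br F' F'' L' μ ν) (hr : IsReg F') (hp : Per F') (hL : 0 ≤ L) (hL' : 0 ≤ L') :
    Br F F'' (L + L') μ ν := by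
  intro Y
  obtain ⟨U1, K1, d1, b1⟩ := h Y
  obtain ⟨U2, K2, d2, b2⟩ := h' (Y + L)
  have hF : F' (Y + L - 2) ≤ Y + L + 2 := by
    rw [← b1.right _ le_rfl]
    linarith [(abs_le.1 (b1.bdU.2 (Y + L - 2)).2.2).2]
  obtain ⟨rel, l, r⟩ := comp (f := 1) (Y := Y + L) (fun _ _ => rfl) hr hp b2.bdU.1 b1.right hF
    (fun x hx => b1.supp x (Or.inr hx)) b2.left (fun x hx => b2.supp x (Or.inl hx))
    (by rw [one_mul, b1.rel]) b2.rel
  refine ⟨U1 * F'⁻¹ * U2, K1 * K2, d1 * d2, fun x hx => ?_, fun x hx => ?_, fun x hx => ?_,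
    by rw [rel, one_mul], b1.bdU.glue b2.bdU (fun x hx => (l x hx).1) (fun x hx => (r x hx).1),
    b1.bdK.glue b2.bdK (fun x hx => (l x hx).2.1) (fun x hx => (r x hx).2.1),
    b1.bdd.glue b2.bdd (fun x hx => (l x hx).2.2) (fun x hx => (r x hx).2.2)⟩
  · rw [(l x (by linarith)).1, b1.left x hx]
  · rw [(r x (by linarith)).1, b2.right x (by linarith)]
  · rcases hx with hx | hx
    · rw [(l x (by linarith)).2.1, (l x (by linarith)).2.2]
      exact b1.supp x (Or.inl hx)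
    · rw [(r x (by linarith)).2.1, (r x (by linarith)).2.2]
      exact b2.supp x (Or.inr (by linarith))

/-- the limit of a sequence of permutations that stabilises on growing half-lines -/
theorem exists_lim (e : ℕ → Equiv.Perm ℝ) (Y : ℕ → ℝ) (hY : Monotone Y)
    (hY' : ∀ x, ∃ k, x ≤ Y k) (st : ∀ k x, x ≤ Y k → e (k + 1) x = e k x)
    (hD : ∀ k x, |e k x - x| ≤ 4) :
    ∃ g : Equiv.Perm ℝ, ∀ k x, x ≤ Y k → g x = e k x := by
  have st' : ∀ k m x, k ≤ m → x ≤ Y k → e m x = e k x := by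
    intro k m x hkm hx
    induction m, hkm using Nat.le_induction with
    | base => rfl
    | succ m hm ih => rw [st m x (hx.trans (hY hm)), ih]
  choose n hn using hY'
  have key : ∀ k x, x ≤ Y k → e (n x) x = e k x := fun k x hx => by
    rcases le_total k (n x) with h | h
    · exact st' k _ x h hx
    · exact (st' _ k x h (hn x)).symm
  refine ⟨Equiv.ofBijective (fun x => e (n x) x) ⟨fun x y hxy => ?_, fun y => ?_⟩, key⟩
  · simp only at hxy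
    rw [key (n (max x y)) x ((le_max_left _ _).trans (hn _)),
      key (n (max x y)) y ((le_max_right _ _).trans (hn _))] at hxy
    exact (e _).injective hxy
  · refine ⟨(e (n (y + 4)))⁻¹ y, ?_⟩
    have := (abs_le.1 (hD (n (y + 4)) ((e (n (y + 4)))⁻¹ y))).1
    rw [ap_inv] at this
    simp only
    rw [key (n (y + 4)) _ (by linarith [hn (y + 4)]), ap_inv]

theorem inv_eq_of {g e : Equiv.Perm ℝ} {Y : ℝ} (h : ∀ x, x ≤ Y → g x = e x)
    (hD : ∀ x, |e x - x| ≤ 4) (y : ℝ) (hy : y + 4 ≤ Y) : g⁻¹ y = e⁻¹ y ∧ e⁻¹ y ≤ y + 4 := by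
  have := (abs_le.1 (hD (e⁻¹ y))).1
  rw [ap_inv] at this
  refine ⟨g.injective ?_, by linarith⟩
  rw [h (e⁻¹ y) (by linarith), ap_inv, ap_inv]

/-- the unit translation, cut off far to the left -/
theorem exists_cut : ∃ S : Equiv.Perm ℝ, IsReg S ∧ (∃ R : ℝ, ∀ x, x ≤ R → S x = x) ∧
    (∀ x, |S x - x| ≤ 1) ∧ ∀ x, -1 ≤ x → S x = tr 1 x := by
  have hs : ContDiff ℝ 2 smoothTransition := smoothTransition.contDiff
  have h1 : ContDiff ℝ 1 (deriv smoothTransition) := hs.deriv'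
  have h2 : Continuous (deriv (deriv smoothTransition)) := h1.continuous_deriv le_rfl
  obtain ⟨C, hC⟩ := (isCompact_Icc (a := (0 : ℝ)) (b := 1)).exists_bound_of_continuousOn
    h1.continuous.continuousOn
  have C0 : 0 ≤ C := (norm_nonneg _).trans (hC 0 ⟨le_rfl, zero_le_one⟩)
  have hb : ∀ t, |deriv smoothTransition t| ≤ C := fun t => by
    rcases lt_or_ge t 0 with h | h
    · have : smoothTransition =ᶠ[𝓝 t] fun _ => 0 := by
        filter_upwards [Iio_mem_nhds h] with y hy using smoothTransition.zero_of_nonpos (le_of_lt hy)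
      rw [this.deriv_eq, deriv_const, abs_zero]
      exact C0
    rcases lt_or_ge 1 t with h' | h'
    · have : smoothTransition =ᶠ[𝓝 t] fun _ => 1 := by
        filter_upwards [Ioi_mem_nhds h'] with y hy using smoothTransition.one_of_one_le (le_of_lt hy)
      rw [this.deriv_eq, deriv_const, abs_zero]
      exact C0
    exact hC t ⟨h, h'⟩
  set L : ℝ := 2 * C + 1 with hL
  have Lp : 0 < L := by linarith
  have dl : ∀ x : ℝ, HasDerivAt (fun y : ℝ => (y + 1) / L + 1) (1 / L) x := fun x =>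
    (((hasDerivAt_id x).add_const 1).div_const L).add_const 1
  obtain ⟨S, hS, r⟩ := exists_perm (p := fun y => smoothTransition ((y + 1) / L + 1))
    (p1 := fun y => deriv smoothTransition ((y + 1) / L + 1) * (1 / L))
    (p2 := fun y => deriv (deriv smoothTransition) ((y + 1) / L + 1) * (1 / L) * (1 / L))
    (fun x => ((hs.differentiable (by norm_num) _).hasDerivAt).comp x (dl x))
    (fun x => (((h1.differentiable (by norm_num) _).hasDerivAt).comp x (dl x)).mul_const _)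
    (by fun_prop) (fun x => by
      rw [abs_mul, abs_of_pos (one_div_pos.2 Lp), mul_one_div, div_le_iff₀ Lp]
      linarith [hb ((x + 1) / L + 1)])
  refine ⟨S, r.isReg, ⟨-1 - L, fun x hx => ?_⟩, fun x => ?_, fun x hx => ?_⟩
  · rw [hS, smoothTransition.zero_of_nonpos, add_zero]
    have : (x + 1) / L ≤ -1 := by rw [div_le_iff₀ Lp]; linarith
    linarith
  · rw [hS, add_sub_cancel_left, abs_of_nonneg (smoothTransition.nonneg _)]
    exact smoothTransition.le_one _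
  · rw [hS, tr_ap, smoothTransition.one_of_one_le]
    have : 0 ≤ (x + 1) / L := div_nonneg (by linarith) Lp.le
    linarith

/-- the map equal to the identity left of `-1` and to `F` right of `-1` -/
theorem exists_half {F : Equiv.Perm ℝ} (hr : IsReg F) (h0 : ∀ x, |x + 1| ≤ 1 / 4 → F x = x) :
    ∃ u : Equiv.Perm ℝ, IsReg u ∧ (∀ x, x ≤ -1 → u x = x) ∧ ∀ x, -1 ≤ x → u x = F x := by
  have m := Reg.strictMono hr
  have f1 : F (-1) = -1 := h0 _ (by norm_num)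
  have f2 : F⁻¹ (-1) = -1 := by
    apply F.injective
    rw [ap_inv, f1]
  have a1 : ∀ x, -1 < x → -1 < F x := fun x hx => f1 ▸ m hx
  have a2 : ∀ x, -1 < x → -1 < F⁻¹ x := fun x hx => f2 ▸ Reg.strictMono_inv hr hx
  let u : Equiv.Perm ℝ :=
    ⟨fun x => if -1 < x then F x else x, fun x => if -1 < x then F⁻¹ x else x, fun x => by
      by_cases h : -1 < x
      · simp only [if_pos h, if_pos (a1 x h), inv_ap]
      · simp only [if_neg h], fun x => by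
      by_cases h : -1 < x
      · simp only [if_pos h, if_pos (a2 x h), ap_inv]
      · simp only [if_neg h]⟩
  have l : ∀ x, x ≤ -1 → u x = x := fun x hx => if_neg (not_lt.2 hx)
  have r : ∀ x, -1 - 1 / 4 ≤ x → u x = F x := fun x hx => by
    rcases lt_or_ge (-1) x with h | h
    · exact if_pos h
    · rw [l x h, h0 x (by rw [abs_le]; constructor <;> linarith)]
  refine ⟨u, isReg_of_local fun x => ?_, l, fun x hx => r x (by linarith)⟩
  rcases lt_or_ge x (-1) with h | h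
  · exact ⟨1, IsReg.one, ev_left l h⟩
  · exact ⟨F, hr, ev_right r (by linarith)⟩

/-- finite products -/
def seqP (a : Equiv.Perm ℝ) (s : ℕ → Equiv.Perm ℝ) : ℕ → Equiv.Perm ℝ
  | 0 => a
  | k + 1 => seqP a s k * s k

theorem chain_of (F : ℕ → Equiv.Perm ℝ) (c : ℝ) (μ ν : ℕ → ℝ) (hc : 1 ≤ c) (hr : ∀ k, IsReg (F k))
    (hp : ∀ k, Per (F k)) (hb : ∀ k, Br (F k) (F (k + 1)) (c * 2 ^ k) (μ k) (ν k))
    (h0 : ∀ x, |x| ≤ 1 / 4 → F 0 x = x) (f : Equiv.Perm ℝ)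
    (h1 : ∀ x, -1 ≤ x → x ≤ 0 → f x = F 0 x) (h2 : ∀ x, x ≤ -1 ∨ 0 ≤ x → f x = x)
    (E : Equiv.Perm ℝ →* Equiv.Perm ℝ)
    (E1 : ∀ Φ : Equiv.Perm ℝ, (∀ x, 0 ≤ x → Φ x = x) → E Φ = Φ)
    (E2 : ∀ Φ : Equiv.Perm ℝ, IsReg Φ → (∃ R : ℝ, ∀ x, x ≤ R → Φ x = x) →
        (∃ D : ℝ, ∀ x, |Φ x - x| ≤ D) →
        (∀ (k : ℕ) (x : ℝ), c * 2 ^ k ≤ x → x ≤ c * 2 ^ (k + 1) →
          ph Φ x ^ 2 ≤ μ k ^ 2 + ν k ∧ |nl Φ x| ≤ μ k ^ 2 + ν k) → IsD2 (E Φ)) :
    f ∈ Comm := by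
  have hb' : ∀ k, ∃ U K d : Equiv.Perm ℝ,
      IsBr (F k) (F (k + 1)) (c * 2 ^ k) (c * 2 ^ (k + 1)) (μ k) (ν k) U K d := fun k => by
    have := hb k (c * 2 ^ k)
    rwa [show c * 2 ^ k + c * 2 ^ k = c * 2 ^ (k + 1) by ring] at this
  choose U K d b using hb'
  have FD : ∀ k x, |F k x - x| ≤ 4 := fun k x => by
    obtain ⟨U, K, d, b⟩ := hb k x
    rw [← b.left x (by linarith)]
    exact (b.bdU.2 x).2.2
  have Y1 : ∀ k : ℕ, 1 ≤ c * 2 ^ k := fun k =>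
    one_le_mul_of_one_le_of_one_le hc (one_le_pow₀ one_le_two)
  have Ym : Monotone fun k : ℕ => c * 2 ^ k + 2 := monotone_nat_of_le_succ fun k => by
    simp only [pow_succ]
    linarith [Y1 k]
  have Yu : ∀ x, ∃ k : ℕ, x ≤ c * 2 ^ k + 2 := fun x => by
    obtain ⟨k, hk⟩ := pow_unbounded_of_one_lt x (one_lt_two (α := ℝ))
    refine ⟨k, ?_⟩
    have : (2 : ℝ) ^ k ≤ c * 2 ^ k := le_mul_of_one_le_left (by positivity) hc
    linarith
  obtain ⟨u, ur, ul, uR⟩ := exists_half (hr 0) fun x hx => by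
    have := hp 0 x
    rw [h0 _ hx] at this
    linarith
  have urel : u * tr 1 * u⁻¹ * (tr 1)⁻¹ = f := by
    ext x
    simp only [Equiv.Perm.mul_apply, tr_ap, tr_inv_ap]
    rcases le_total x 0 with hx | hx
    · have : u⁻¹ (x - 1) = x - 1 := by
        apply u.injective
        rw [ap_inv, ul _ (by linarith)]
      rw [this, sub_add_cancel]
      rcases le_total x (-1) with h | h
      · rw [ul x h, h2 x (Or.inl h)]
      · rw [uR x h, h1 x h hx]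
    · have hge : -1 ≤ u⁻¹ (x - 1) := by
        by_contra hn
        have := ul _ (not_le.1 hn).le
        rw [ap_inv] at this
        exact hn (by linarith)
      rw [uR _ (by linarith), hp 0, ← uR _ hge, ap_inv, h2 x (Or.inr hx), sub_add_cancel]
  set V := seqP u fun k => (F k)⁻¹ * U k with hV
  set Kh := seqP 1 K with hK
  set dh := seqP 1 d with hd
  have Vs : ∀ k, V (k + 1) = V k * (F k)⁻¹ * U k := fun k => (mul_assoc _ _ _).symm
  have inv : ∀ k, V k * tr 1 * (V k)⁻¹ * (tr 1)⁻¹ = f * (Kh k * dh k * (Kh k)⁻¹ * (dh k)⁻¹) ∧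
      (∀ x, c * 2 ^ k - 2 ≤ x → V k x = F k x) ∧
      ∀ x, c * 2 ^ k - 2 ≤ x → Kh k x = x ∧ dh k x = x := by
    intro k
    induction k with
    | zero =>
      refine ⟨?_, fun x hx => uR x (by linarith [Y1 0]), fun x _ => ⟨rfl, rfl⟩⟩
      change u * tr 1 * u⁻¹ * (tr 1)⁻¹ = f * (1 * 1 * 1⁻¹ * 1⁻¹)
      rw [urel]; group
    | succ k ih =>
      obtain ⟨rel, l, r⟩ := comp (Y := c * 2 ^ k) (fun x hx => h2 x (Or.inr (by linarith [Y1 k])))
        (hr k) (hp k) (b k).bdU.1 ih.2.1 (by linarith [(abs_le.1 (FD k (c * 2 ^ k - 2))).2]) ih.2.2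
        (b k).left (fun x hx => (b k).supp x (Or.inl hx)) ih.1 (b k).rel
      have hY : c * 2 ^ k ≤ c * 2 ^ (k + 1) := by rw [pow_succ]; linarith [Y1 k]
      refine ⟨by rw [Vs]; exact rel, fun x hx => ?_, fun x hx => ?_⟩
      · rw [Vs, (r x (by linarith)).1, (b k).right x hx]
      · change (Kh k * K k) x = x ∧ (dh k * d k) x = x
        rw [(r x (by linarith)).2.1, (r x (by linarith)).2.2]
        exact (b k).supp x (Or.inr hx)
  have lr : ∀ k, (∀ x, x ≤ c * 2 ^ k + 2 →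
        V (k + 1) x = V k x ∧ Kh (k + 1) x = Kh k x ∧ dh (k + 1) x = dh k x) ∧
      ∀ x, c * 2 ^ k - 2 ≤ x →
        V (k + 1) x = U k x ∧ Kh (k + 1) x = K k x ∧ dh (k + 1) x = d k x := fun k => by
    rw [Vs]
    exact (comp (Y := c * 2 ^ k) (fun x hx => h2 x (Or.inr (by linarith [Y1 k])))
        (hr k) (hp k) (b k).bdU.1 (inv k).2.1 (by linarith [(abs_le.1 (FD k (c * 2 ^ k - 2))).2])
        (inv k).2.2 (b k).left (fun x hx => (b k).supp x (Or.inl hx)) (inv k).1 (b k).rel).2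
  -- a uniform treatment of the three sequences
  have main : ∀ (e z : ℕ → Equiv.Perm ℝ), (∀ k, IsReg (e k)) → (∀ x, |e 0 x - x| ≤ 4) →
      (∀ x, x ≤ -1 → e 0 x = x) → (∀ k, Bd (μ k) (ν k) (z k)) →
      (∀ k x, x ≤ c * 2 ^ k + 2 → e (k + 1) x = e k x) →
      (∀ k x, c * 2 ^ k - 2 ≤ x → e (k + 1) x = z k x) →
      (∀ k x, |e k x - x| ≤ 4) ∧ ∃ g : Equiv.Perm ℝ, (∀ k x, x ≤ c * 2 ^ k + 2 → g x = e k x) ∧
        IsD2 (E g) := by
    intro e z er e0 el bz st eq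
    have eD : ∀ k x, |e k x - x| ≤ 4 := fun k => by
      induction k with
      | zero => exact e0
      | succ k ih =>
        intro x
        rcases le_total x (c * 2 ^ k) with h | h
        · rw [st k x (by linarith)]; exact ih x
        · rw [eq k x (by linarith)]; exact ((bz k).2 x).2.2
    obtain ⟨g, hg⟩ := exists_lim e _ Ym Yu st eD
    refine ⟨eD, g, hg, E2 g (isReg_of_local fun x => ?_) ⟨-1, fun x hx => ?_⟩ ⟨4, fun x => ?_⟩
      fun k x x1 x2 => ?_⟩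
    · obtain ⟨k, hk⟩ := Yu (x + 1)
      exact ⟨e k, er k, ev_left (hg k) (by linarith)⟩
    · rw [hg 0 x (by linarith [Y1 0]), el x hx]
    · obtain ⟨k, hk⟩ := Yu x
      rw [hg k x hk]
      exact eD k x
    · have q : (g : ℝ → ℝ) =ᶠ[𝓝 x] z k :=
        (ev_left (hg (k + 1)) (by linarith)).trans (ev_right (eq k) (by linarith))
      rw [(ph_congr q).self_of_nhds, (nl_congr q).self_of_nhds]
      obtain ⟨p1, p2, _⟩ := (bz k).2 x
      have := sq_le_sq' (abs_le.1 p1).1 (abs_le.1 p1).2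
      constructor <;> nlinarith [abs_nonneg (nl (z k) x), sq_nonneg (μ k)]
  have regP : ∀ (a : Equiv.Perm ℝ) (s : ℕ → Equiv.Perm ℝ), IsReg a → (∀ k, IsReg (s k)) →
      ∀ k, IsReg (seqP a s k) := fun a s ha hs k => by
    induction k with
    | zero => exact ha
    | succ k ih => exact ih.mul (hs k)
  obtain ⟨VD, V', hV', dV⟩ := main V U (regP _ _ ur fun k => (hr k).inv.mul (b k).bdU.1)
    (fun x => by
      change |u x - x| ≤ 4
      rcases le_total x (-1) with h | h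
      · rw [ul x h]; norm_num
      · rw [uR x h]; exact FD 0 x) ul (fun k => (b k).bdU) (fun k x hx => ((lr k).1 x hx).1)
    (fun k x hx => ((lr k).2 x hx).1)
  obtain ⟨KD, K', hK', dK⟩ := main Kh K (regP _ _ IsReg.one fun k => (b k).bdK.1)
    (fun x => by change |x - x| ≤ 4; norm_num) (fun _ _ => rfl) (fun k => (b k).bdK)
    (fun k x hx => ((lr k).1 x hx).2.1) (fun k x hx => ((lr k).2 x hx).2.1)
  obtain ⟨dD, d', hd', dd⟩ := main dh d (regP _ _ IsReg.one fun k => (b k).bdd.1)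
    (fun x => by change |x - x| ≤ 4; norm_num) (fun _ _ => rfl) (fun k => (b k).bdd)
    (fun k x hx => ((lr k).1 x hx).2.2) (fun k x hx => ((lr k).2 x hx).2.2)
  have rel : V' * tr 1 * V'⁻¹ * (tr 1)⁻¹ = f * (K' * d' * K'⁻¹ * d'⁻¹) := by
    ext x
    obtain ⟨k, hk⟩ := Yu (x + 20)
    have := congrArg (fun g : Equiv.Perm ℝ => g x) (inv k).1
    simp only [Equiv.Perm.mul_apply, tr_ap, tr_inv_ap] at this ⊢
    obtain ⟨a1, a2⟩ := inv_eq_of (hV' k) (VD k) (x - 1) (by linarith)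
    obtain ⟨b1, b2⟩ := inv_eq_of (hd' k) (dD k) x (by linarith)
    obtain ⟨c1, c2⟩ := inv_eq_of (hK' k) (KD k) ((dh k)⁻¹ x) (by linarith)
    have c3 := (abs_le.1 (dD k ((Kh k)⁻¹ ((dh k)⁻¹ x)))).2
    rw [a1, hV' k _ (by linarith), b1, c1, hd' k _ (by linarith), hK' k _ (by linarith), this]
  obtain ⟨S, Sr, Sl, SD, SR⟩ := exists_cut
  have dS : IsD2 (E S) := E2 S Sr Sl ⟨1, SD⟩ fun k x x1 _ => by
    have q : (S : ℝ → ℝ) =ᶠ[𝓝 x] tr 1 := ev_right SR (by linarith [Y1 k])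
    rw [(ph_congr q).self_of_nhds, (nl_congr q).self_of_nhds, (tr_reg 1).ph_eq, (tr_reg 1).nl_eq]
    have := (abs_nonneg _).trans ((b k).bdU.2 0).2.1
    simp only [abs_zero]
    constructor <;> nlinarith [sq_nonneg (μ k)]
  have cS : Commute ((tr 1)⁻¹ * S) V' := commute_of_sep (p := -1)
    (fun x hx => by rw [Equiv.Perm.mul_apply, SR x hx, inv_ap])
    (fun x hx => by rw [hV' 0 x (by linarith [Y1 0])]; exact ul x hx)
  have relS : V' * S * V'⁻¹ * S⁻¹ = V' * tr 1 * V'⁻¹ * (tr 1)⁻¹ := by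
    calc V' * S * V'⁻¹ * S⁻¹ = V' * tr 1 * (((tr 1)⁻¹ * S) * V'⁻¹) * S⁻¹ := by group
      _ = _ := by rw [cS.inv_right.eq]; group
  have fin : f = (V' * S * V'⁻¹ * S⁻¹) * (K' * d' * K'⁻¹ * d'⁻¹)⁻¹ := by
    rw [relS, rel]; group
  have fE : f = (E V' * E S * (E V')⁻¹ * (E S)⁻¹) * (E K' * E d' * (E K')⁻¹ * (E d')⁻¹)⁻¹ := by
    rw [← E1 f fun x hx => h2 x (Or.inr hx)]
    conv_lhs => rw [fin]
    simp only [map_mul, map_inv]
  rw [fE]
  exact Comm.mul_mem (comm_mem dV dS) (Comm.inv_mem (comm_mem dK dd))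

end Pool.Agent.P.MP_0354a7_al
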