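import Pool.Agent.P.MP_0354a7_al.Epoch
import Pool.Agent.P.MP_0354a7_al.Chain

/-!
The sequence of epochs.
-/

namespace Pool.Agent.P.MP_0354a7_al

open Real Finset

theorem exists_seq {α : Type} {P : ℕ → α → Prop} {R : ℕ → α → α → Prop} {x : α} (h0 : P 0 x)
    (h : ∀ n y, P n y → ∃ z, P (n + 1) z ∧ R n y z) :
    ∃ f : ℕ → α, f 0 = x ∧ ∀ n, P n (f n) ∧ R n (f n) (f (n + 1)) := by
  choose g g1 g2 using h
  let f : ∀ n, {y // P n y} := fun n => Nat.rec ⟨x, h0⟩ (fun n y => ⟨g n y.1 y.2, g1 n y.1 y.2⟩) n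
  exact ⟨fun n => (f n).1, rfl, fun n => ⟨(f n).2, g2 n _ (f n).2⟩⟩

theorem num1 {m : ℕ} (h : 32 ≤ m) : 17 * m ≤ 2 ^ m := by
  induction m, h using Nat.le_induction with
  | base => norm_num
  | succ m h ih => omega

theorem num2 {m : ℕ} (h : 32 ≤ m) :
    2 * (2 / ((1 / 2 : ℝ) ^ 2 ^ m / 2) + 1) ≤ exp (2 ^ (2 * m) / 2 ^ 20) := by
  have a : (2 : ℝ) / ((1 / 2) ^ 2 ^ m / 2) = 4 * 2 ^ 2 ^ m := by
    rw [one_div, inv_pow]
    field_simp
    norm_num
  have b : (1 : ℝ) ≤ 2 ^ 2 ^ m := one_le_pow₀ one_le_two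
  have c : (2 : ℝ) ^ (2 ^ m + 4) ≤ exp ((2 ^ m + 4 : ℕ) : ℝ) := by
    rw [← exp_one_pow]
    exact pow_le_pow_left₀ zero_le_two (by linarith [add_one_le_exp 1]) _
  have d : (2 : ℝ) ^ 32 ≤ 2 ^ m := pow_le_pow_right₀ one_le_two h
  rw [a]
  rw [pow_add] at c
  refine (le_trans (by linarith) c).trans (exp_le_exp.2 ?_)
  push_cast
  rw [two_mul, pow_add, le_div_iff₀ (by positivity)]
  nlinarith

theorem core : Core := by
  intro ω k₁ hω
  obtain ⟨C, C1, hC⟩ := epoch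
  set w : ℕ → ℝ := fun k => |ω k| + (1 / 2) ^ 2 ^ k with hw
  have w0 : ∀ k, (1 / 2) ^ 2 ^ k ≤ w k := fun k => le_add_of_nonneg_left (abs_nonneg _)
  have w1 : ∀ k, 0 < w k := fun k => lt_of_lt_of_le (by positivity) (w0 k)
  have sw : Summable fun k : ℕ => 2 ^ k * w k := by
    have a : Summable fun k : ℕ => (2 : ℝ) ^ k * (1 / 2) ^ 2 ^ k :=
      (summable_condensed_iff_of_nonneg (f := fun n => (1 / 2 : ℝ) ^ n) (fun _ => by positivity)
        fun _ _ _ h => pow_le_pow_of_le_one (by norm_num) (by norm_num) h).2 summable_geometric_two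
    refine (hω.abs.add a).congr fun k => ?_
    rw [abs_mul, abs_of_pos (by positivity), ← mul_add]
  obtain ⟨k, hk, hk'⟩ : ∃ k, max k₁ 5 ≤ k ∧ ∑' i, 2 ^ (i + k) * w (i + k) ≤ 1 / (208 * C) := by
    have := (tendsto_sum_nat_add fun k : ℕ => 2 ^ k * w k).eventually
      (eventually_le_nhds (show (0 : ℝ) < 1 / (208 * C) by positivity))
    exact ((Filter.eventually_ge_atTop _).and this).exists
  have ps : ∀ n, ∑ i ∈ range n, 2 ^ (i + k) * w (i + k) ≤ 1 / (208 * C) := fun n =>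
    (((summable_nat_add_iff k).2 sw).sum_le_tsum _ fun i _ => (mul_pos (by positivity) (w1 _)).le).trans hk'
  let e : ℕ → ℝ := fun n => Nat.rec ((1 / 2) ^ 2 ^ k) (fun i x => x / 4 + 6 * w (i + k)) n
  have e0 : e 0 = (1 / 2) ^ 2 ^ k := rfl
  have es : ∀ n, e (n + 1) = e n / 4 + 6 * w (n + k) := fun _ => rfl
  have ep : ∀ n, 0 < e n := fun n => by
    induction n with
    | zero => rw [e0]; positivity
    | succ n ih => rw [es]; linarith [w1 (n + k)]
  have m32 : ∀ n, 32 ≤ 2 ^ (n + k) := fun n =>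
    (show 32 = 2 ^ 5 by norm_num).le.trans (Nat.pow_le_pow_right (by norm_num) (by omega))
  have el : ∀ n, (1 / 2) ^ (2 * 2 ^ (n + k)) ≤ e n := fun n => by
    rcases n with _ | n
    · rw [e0, zero_add]
      exact pow_le_pow_of_le_one (by norm_num) (by norm_num) (by omega)
    · have : (1 / 2 : ℝ) ^ (2 * 2 ^ (n + 1 + k)) ≤ (1 / 2) ^ 2 ^ (n + k) :=
        pow_le_pow_of_le_one (by norm_num) (by norm_num) (by rw [add_right_comm, pow_succ]; omega)
      rw [es]
      linarith [ep n, w0 (n + k), w1 (n + k)]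
  set S : ℕ → ℝ := fun n => ∑ i ∈ range n, 2 ^ (i + k) * e i with hS
  have S0 : ∀ n, 0 ≤ S n := fun n => sum_nonneg fun i _ => (mul_pos (by positivity) (ep i)).le
  have Ss : ∀ n, S (n + 1) = S n + 2 ^ (n + k) * e n := fun n => sum_range_succ _ _
  have S1 : ∀ n, S n + 2 * (2 ^ (n + k) * e n) ≤ 26 * (1 / (208 * C)) := fun n => by
    have a : ∀ n, S n + 2 * (2 ^ (n + k) * e n) ≤ 2 * (2 ^ (0 + k) * e 0) +
        24 * ∑ i ∈ range n, 2 ^ (i + k) * w (i + k) := fun n => by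
      induction n with
      | zero => simp [hS]
      | succ n ih =>
        rw [Ss, sum_range_succ, es, add_right_comm n 1 k, pow_succ (2 : ℝ) (n + k)]
        linarith
    have b := ps 1
    rw [sum_range_one] at b
    have c : (2 : ℝ) ^ (0 + k) * e 0 ≤ 2 ^ (0 + k) * w (0 + k) :=
      mul_le_mul_of_nonneg_left (by rw [e0, zero_add]; exact w0 k) (by positivity)
    linarith [a n, ps n]
  have S2 : ∀ n, 2 * C * (S n + 2 * (2 ^ (n + k) * e n)) ≤ 1 / 4 := fun n => by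
    refine (mul_le_mul_of_nonneg_left (S1 n) (by linarith)).trans (le_of_eq ?_)
    field_simp
    norm_num
  have a0 : ∀ n, 0 < C * (2 ^ (n + k) * e n) := fun n => mul_pos (by linarith)
    (mul_pos (by positivity) (ep n))
  have S3 : ∀ n, 2 * C * S n ≤ 1 / 4 := fun n => by linarith [S2 n, a0 n]
  have S4 : ∀ n, 0 ≤ 2 * C * S n := fun n => mul_nonneg (by linarith) (S0 n)
  refine ⟨e 0, ep 0, fun F f rF pF nF mF h0 h1 h2 => ?_⟩
  have e1 : e 0 ≤ 1 / 10 := by
    have : (1 / 2 : ℝ) ^ 2 ^ k ≤ (1 / 2) ^ 32 :=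
      pow_le_pow_of_le_one (by norm_num) (by norm_num) (by simpa using m32 0)
    rw [e0]
    exact this.trans (by norm_num)
  have dl : ∀ n j, n + k ≤ j → (1 / 2 : ℝ) ^ 2 ^ 2 ^ j ≤ (1 / 2) ^ (8 * (2 * 2 ^ (n + k))) * w j := by
    intro n j hj
    refine le_trans ?_ (mul_le_mul_of_nonneg_left (w0 j) (by positivity))
    rw [← pow_add]
    refine pow_le_pow_of_le_one (by norm_num) (by norm_num) ?_
    have a : 2 ^ (n + k) ≤ 2 ^ j := Nat.pow_le_pow_right (by norm_num) hj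
    have b := num1 ((m32 n).trans a)
    omega
  obtain ⟨G, G0, hG⟩ := exists_seq (x := F)
    (P := fun n G => IsReg G ∧ Per G ∧ (∀ x, |nl G x| ≤ e n) ∧ (∀ x, |G x - x| ≤ 1 / 4 + 2 * C * S n) ∧
      ∀ j, n + k ≤ j → Md (nl G) ((1 / 2) ^ 2 ^ 2 ^ j * exp (-(2 * C * S n))) (exp (2 * C * S n) * w j))
    (R := fun n G G' => Br G G' (C * (2 * 2 ^ (n + k) : ℕ)) (C * (e n + 1 / (2 * 2 ^ (n + k) : ℕ)))
      (C * (e n + 1 / (2 * 2 ^ (n + k) : ℕ) ^ 2)))
    ⟨rF, pF, nF, fun x => by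
      linarith [disp_of_fix rF pF (Reg.phi_le rF pF nF) (by linarith) (h0 0 (by simp)) x, S4 0],
      fun j hj => (mF j (by omega)).mono (by simp [hS]) (by
        simpa [hS] using (le_abs_self _).trans (le_add_of_nonneg_right (by positivity)))⟩
    (fun n G ⟨r, p, b, d, m⟩ => by
      have x1 : exp (2 * C * S n) ≤ 2 := exp_le_two (by linarith [S3 n])
      have x2 : 1 / 2 ≤ exp (-(2 * C * S n)) := by linarith [add_one_le_exp (-(2 * C * S n)), S3 n]
      have x3 : 1 ≤ exp (2 * C * S n) := one_le_exp (S4 n)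
      have x4 : exp (-(2 * C * S n)) ≤ 1 := exp_le_one_iff.2 (by linarith [S4 n])
      have y : C * (2 * 2 ^ (n + k) : ℕ) * e n = 2 * C * (2 ^ (n + k) * e n) := by
        push_cast
        ring
      have dp : (0 : ℝ) < (1 / 2) ^ 2 ^ 2 ^ (n + k) := by positivity
      obtain ⟨G', B, r', p', b', d', m'⟩ := hC (2 * 2 ^ (n + k)) (e n) _ ((1 / 2) ^ 2 ^ 2 ^ (n + k) / 2)
        (2 * w (n + k)) G r p b (by rw [y]; linarith [S2 n, S4 n, a0 n]) (by linarith [m32 n]) (el n) d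
        (by linarith [S3 n]) (by positivity) (by
          linarith [dl n _ le_rfl, mul_pos (show (0 : ℝ) < (1 / 2) ^ (8 * (2 * 2 ^ (n + k))) by
            positivity) (w1 (n + k))])
        ((m _ le_rfl).mono (by nlinarith) (by nlinarith [w1 (n + k)])) (num2 (m32 n))
      refine ⟨G', ⟨r', p', fun x => (b' x).trans (le_of_eq (by rw [es]; ring)),
        fun x => (d' x).trans (le_of_eq (by rw [y, Ss]; ring)), fun j hj => ?_⟩, B⟩
      have dj : (0 : ℝ) < (1 / 2) ^ 2 ^ 2 ^ j := by positivity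
      have := m' _ _ (by positivity) (by
        have a := dl n j (by omega)
        have c := mul_le_mul_of_nonneg_left (show w j ≤ exp (2 * C * S n) * w j by nlinarith [w1 j])
          (show (0 : ℝ) ≤ (1 / 2) ^ (8 * (2 * 2 ^ (n + k))) by positivity)
        nlinarith) (m j (by omega))
      rw [y, mul_assoc, ← exp_add, ← mul_assoc (exp _), ← exp_add] at this
      rw [Ss, mul_add, neg_add, add_comm (2 * C * S n)]
      exact this)
  refine chain G (C * (2 * 2 ^ k)) _ _ ?_ (fun n => (hG n).1.1) (fun n => (hG n).1.2.1)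
    (fun n => (hG n).2.mono (le_of_eq ?_) le_rfl le_rfl) ?_ (by rwa [G0]) f (by rwa [G0]) h2
  · nlinarith [one_le_pow₀ (n := k) (one_le_two (α := ℝ))]
  · push_cast
    ring
  · have sa : Summable fun n : ℕ => (2 : ℝ) ^ (n + k) * e n :=
      summable_of_sum_range_le (c := 26 * (1 / (208 * C)))
        (fun n => (mul_pos (by positivity) (ep n)).le) fun n => show S n ≤ _ by
        linarith [S1 n, mul_pos (show (0 : ℝ) < 2 ^ (n + k) by positivity) (ep n)]
    refine Summable.of_nonneg_of_le (fun n => by have := ep n; positivity) (fun n => ?_)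
      ((sa.add summable_geometric_two).mul_left (2 * C ^ 2 + C))
    have t1 : (2 : ℝ) ^ n ≤ 2 ^ (n + k) := pow_le_pow_right₀ one_le_two (by omega)
    have t0 : (1 : ℝ) ≤ 2 ^ n := one_le_pow₀ one_le_two
    have t2 : e n ≤ 1 := by nlinarith [S2 n, S4 n, ep n, mul_pos (ep n) (ep n), a0 n,
      mul_le_mul_of_nonneg_right (t0.trans t1) (ep n).le,
      mul_le_mul_of_nonneg_right C1 (mul_pos (show (0 : ℝ) < 2 ^ (n + k) by positivity) (ep n)).le]
    set u : ℝ := 1 / (2 * 2 ^ (n + k) : ℕ) with hu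
    have t3 : (1 : ℝ) / (2 * 2 ^ (n + k) : ℕ) ^ 2 = u ^ 2 := by rw [hu, one_div_pow]
    have t4 : 2 ^ n * u ^ 2 ≤ (1 / 2) ^ n := by
      rw [← t3, one_div_pow, mul_one_div, div_le_div_iff₀ (by positivity) (by positivity)]
      push_cast
      nlinarith
    have t5 : (C * (e n + u)) ^ 2 ≤ 2 * C ^ 2 * (e n + u ^ 2) := by
      have : (e n + u) ^ 2 ≤ 2 * (e n + u ^ 2) := by nlinarith [sq_nonneg (e n - u), ep n]
      nlinarith [mul_le_mul_of_nonneg_left this (sq_nonneg C)]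
    have t6 : 2 ^ n * (e n + u ^ 2) ≤ 2 ^ (n + k) * e n + (1 / 2) ^ n := by
      linarith [mul_le_mul_of_nonneg_right t1 (ep n).le]
    rw [t3]
    nlinarith [mul_le_mul_of_nonneg_left t5 (show (0 : ℝ) ≤ 2 ^ n by positivity),
      mul_le_mul_of_nonneg_left t6 (show 0 ≤ 2 * C ^ 2 + C by positivity)]

end Pool.Agent.P.MP_0354a7_al
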