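import Mathlib

/-!
Basic calculus of twice differentiable diffeomorphisms of the line.
-/

namespace Pool.Agent.P.MP_0354a7_al

open Real

/-- A compactly supported `C^2` diffeomorphism of the line. -/
def IsD2 (a : Equiv.Perm ℝ) : Prop :=
  ContDiff ℝ 2 (⇑a) ∧ ContDiff ℝ 2 (⇑a.symm) ∧ ∃ R : ℝ, ∀ x : ℝ, R < |x| → a x = x

/-- The subgroup generated by the commutators of compactly supported `C^2` diffeomorphisms. -/
def Comm : Subgroup (Equiv.Perm ℝ) :=
  Subgroup.closure {g | ∃ a b : Equiv.Perm ℝ, IsD2 a ∧ IsD2 b ∧ g = a * b * a⁻¹ * b⁻¹}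

/-- `e' = exp φ`, `φ' = a`, and `a` is continuous. -/
structure Reg (e : Equiv.Perm ℝ) (φ a : ℝ → ℝ) : Prop where
  d1 : ∀ x, HasDerivAt e (exp (φ x)) x
  d2 : ∀ x, HasDerivAt φ (a x) x
  cont : Continuous a

/-- `e` commutes with the unit translation. -/
def Per (e : Equiv.Perm ℝ) : Prop := ∀ x, e (x + 1) = e x + 1

/-- `ω` bounds the oscillation of `a` at the scale `δ`. -/
def Md (a : ℝ → ℝ) (δ ω : ℝ) : Prop := ∀ x y : ℝ, |x - y| ≤ δ → |a x - a y| ≤ ω

theorem ap_inv (e : Equiv.Perm ℝ) (x : ℝ) : e (e⁻¹ x) = x := e.apply_symm_apply x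

theorem inv_ap (e : Equiv.Perm ℝ) (x : ℝ) : e⁻¹ (e x) = x := e.symm_apply_apply x

theorem mvt_abs {f f' : ℝ → ℝ} (h : ∀ x, HasDerivAt f (f' x) x) {C : ℝ} (hC : ∀ x, |f' x| ≤ C)
    (x y : ℝ) : |f x - f y| ≤ C * |x - y| := by
  have := Convex.norm_image_sub_le_of_norm_hasDerivWithin_le (s := Set.univ) (f := f) (f' := f')
    (C := C) (x := y) (y := x) (fun z _ => (h z).hasDerivWithinAt) (fun z _ => hC z) convex_univ
    (Set.mem_univ _) (Set.mem_univ _)
  simpa [Real.norm_eq_abs] using this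

theorem mvt_ex {f f' : ℝ → ℝ} (h : ∀ x, HasDerivAt f (f' x) x) {x y : ℝ} (hxy : x ≤ y) :
    ∃ z, x ≤ z ∧ z ≤ y ∧ f y - f x = f' z * (y - x) := by
  rcases eq_or_lt_of_le hxy with rfl | hlt
  · exact ⟨x, le_rfl, le_rfl, by simp⟩
  obtain ⟨z, hz, e⟩ := exists_hasDerivAt_eq_slope f f' hlt
    (fun z _ => (h z).continuousAt.continuousWithinAt) (fun z _ => h z)
  refine ⟨z, hz.1.le, hz.2.le, ?_⟩
  rw [e, div_mul_cancel₀ _ (by linarith)]

namespace Reg

variable {e e' : Equiv.Perm ℝ} {φ a φ' a' : ℝ → ℝ}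

theorem continuous (h : Reg e φ a) : Continuous e :=
  continuous_iff_continuousAt.2 fun x => (h.d1 x).continuousAt

theorem continuous_phi (h : Reg e φ a) : Continuous φ :=
  continuous_iff_continuousAt.2 fun x => (h.d2 x).continuousAt

theorem strictMono (h : Reg e φ a) : StrictMono e :=
  strictMono_of_hasDerivAt_pos h.d1 fun _ => exp_pos _

theorem strictMono_inv (h : Reg e φ a) : StrictMono (e⁻¹ : Equiv.Perm ℝ) := by
  intro x y hxy
  by_contra c
  have := h.strictMono.monotone (not_lt.1 c)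
  simp only [ap_inv] at this
  linarith

theorem one : Reg 1 (fun _ => 0) (fun _ => 0) :=
  ⟨fun x => by simpa using hasDerivAt_id x, fun x => hasDerivAt_const x 0, continuous_const⟩

theorem mul (h : Reg e φ a) (h' : Reg e' φ' a') :
    Reg (e * e') (fun x => φ (e' x) + φ' x) (fun x => a (e' x) * exp (φ' x) + a' x) := by
  refine ⟨fun x => ?_, fun x => ?_, ?_⟩
  · rw [exp_add]
    exact (h.d1 (e' x)).comp x (h'.d1 x)
  · exact ((h.d2 (e' x)).comp x (h'.d1 x)).add (h'.d2 x)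
  · exact ((h.cont.comp h'.continuous).mul h'.continuous_phi.rexp).add h'.cont

theorem continuous_inv (h : Reg e φ a) : Continuous (e⁻¹ : Equiv.Perm ℝ) :=
  h.strictMono_inv.monotone.continuous_of_surjective (e⁻¹ : Equiv.Perm ℝ).surjective

theorem inv (h : Reg e φ a) :
    Reg e⁻¹ (fun x => -φ (e⁻¹ x)) (fun x => -(a (e⁻¹ x) * exp (-φ (e⁻¹ x)))) := by
  have d : ∀ x, HasDerivAt (e⁻¹ : Equiv.Perm ℝ) (exp (-φ (e⁻¹ x))) x := by
    intro x
    rw [exp_neg]
    exact HasDerivAt.of_local_left_inverse h.continuous_inv.continuousAt (h.d1 _) (exp_pos _).ne'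
      (Filter.Eventually.of_forall fun y => ap_inv e y)
  refine ⟨d, fun x => ((h.d2 _).comp x (d x)).neg, ?_⟩
  exact ((h.cont.comp h.continuous_inv).mul
    (h.continuous_phi.comp h.continuous_inv).neg.rexp).neg

theorem congr (h : Reg e φ a) (h1 : ∀ x, φ x = φ' x) (h2 : ∀ x, a x = a' x) : Reg e φ' a' := by
  obtain rfl : φ = φ' := funext h1
  obtain rfl : a = a' := funext h2
  exact h

theorem unique (h : Reg e φ a) (h' : Reg e φ' a') : φ = φ' ∧ a = a' := by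
  have e1 : φ = φ' := funext fun x => exp_injective ((h.d1 x).unique (h'.d1 x))
  subst e1
  exact ⟨rfl, funext fun x => (h.d2 x).unique (h'.d2 x)⟩

theorem contDiff (h : Reg e φ a) : ContDiff ℝ 2 e := by
  have e1 : deriv e = fun x => exp (φ x) := funext fun x => (h.d1 x).deriv
  have e2 : deriv (fun x => exp (φ x)) = fun x => exp (φ x) * a x :=
    funext fun x => ((h.d2 x).exp).deriv
  rw [show (2 : WithTop ℕ∞) = 1 + 1 by norm_num, contDiff_succ_iff_deriv, e1,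
    show (1 : WithTop ℕ∞) = 0 + 1 by norm_num, contDiff_succ_iff_deriv, e2, contDiff_zero]
  refine ⟨fun x => (h.d1 x).differentiableAt, by simp, fun x => (h.d2 x).exp.differentiableAt,
    by simp, h.continuous_phi.rexp.mul h.cont⟩

theorem isD2 (h : Reg e φ a) (hs : ∃ R : ℝ, ∀ x : ℝ, R < |x| → e x = x) : IsD2 e :=
  ⟨h.contDiff, h.inv.contDiff, hs⟩

/-- Lipschitz bound from a bound for the logarithm of the derivative. -/
theorem lip (h : Reg e φ a) {C : ℝ} (hC : ∀ x, |φ x| ≤ C) (x y : ℝ) :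
    |e x - e y| ≤ exp C * |x - y| :=
  mvt_abs h.d1 (fun z => by
    rw [abs_of_pos (exp_pos _)]
    exact exp_le_exp.2 (le_of_abs_le (hC z))) x y

theorem per_phi (h : Reg e φ a) (hp : Per e) (x : ℝ) : φ (x + 1) = φ x := by
  have h1 : HasDerivAt (fun y => e (y + 1)) (exp (φ (x + 1))) x :=
    HasDerivAt.comp_add_const x 1 (h.d1 (x + 1))
  have h2 : HasDerivAt (fun y => e y + 1) (exp (φ x)) x := (h.d1 x).add_const 1
  rw [show (fun y => e (y + 1)) = fun y => e y + 1 from funext hp] at h1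
  exact exp_injective (h1.unique h2)

theorem per_a (h : Reg e φ a) (hp : Per e) (x : ℝ) : a (x + 1) = a x := by
  have h1 : HasDerivAt (fun y => φ (y + 1)) (a (x + 1)) x :=
    HasDerivAt.comp_add_const x 1 (h.d2 (x + 1))
  rw [show (fun y => φ (y + 1)) = φ from funext (h.per_phi hp)] at h1
  exact h1.unique (h.d2 x)

/-- For a periodic map the logarithm of the derivative is bounded by the nonlinearity. -/
theorem phi_le (h : Reg e φ a) (hp : Per e) {ε : ℝ} (ha : ∀ x, |a x| ≤ ε) (x : ℝ) : |φ x| ≤ ε := by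
  obtain ⟨z, z1, z2, hz⟩ := mvt_ex h.d1 (show x ≤ x + 1 by linarith)
  rw [hp, add_sub_cancel_left, add_sub_cancel_left, mul_one] at hz
  have h0 : φ z = 0 := by rw [← exp_eq_one_iff]; exact hz.symm
  have := mvt_abs h.d2 ha x z
  rw [h0, sub_zero] at this
  have e0 : 0 ≤ ε := (abs_nonneg _).trans (ha 0)
  have : |x - z| ≤ 1 := by rw [abs_le]; constructor <;> linarith
  nlinarith

end Reg

theorem Per.mul {e e' : Equiv.Perm ℝ} (h : Per e) (h' : Per e') : Per (e * e') := fun x => by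
  simp only [Equiv.Perm.mul_apply, h' x, h (e' x)]

theorem Per.inv {e : Equiv.Perm ℝ} (h : Per e) : Per e⁻¹ := fun x => by
  apply e.injective
  rw [h, ap_inv, ap_inv]

theorem Per.int {e : Equiv.Perm ℝ} (h : Per e) (n : ℤ) (x : ℝ) : e (x + n) = e x + n := by
  have hp : Function.Periodic (fun y => e y - y) 1 := fun y => by simp only [h y]; ring
  have := hp.int_mul n x
  simp only [mul_one] at this
  linarith

/-- A map `x + p x` with `p` bounded and `|p'| ≤ 1/2` is a diffeomorphism. -/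
theorem exists_perm {p p1 p2 : ℝ → ℝ} (h1 : ∀ x, HasDerivAt p (p1 x) x)
    (h2 : ∀ x, HasDerivAt p1 (p2 x) x) (hc : Continuous p2) (hb : ∀ x, |p1 x| ≤ 1 / 2) :
    ∃ e : Equiv.Perm ℝ, (∀ x, e x = x + p x) ∧
      Reg e (fun x => log (1 + p1 x)) (fun x => p2 x / (1 + p1 x)) := by
  have pos : ∀ x, 0 < 1 + p1 x := fun x => by linarith [(abs_le.1 (hb x)).1]
  have d : ∀ x, HasDerivAt (fun y => y + p y) (1 + p1 x) x := fun x => (hasDerivAt_id x).add (h1 x)
  have sm : StrictMono fun y => y + p y := strictMono_of_hasDerivAt_pos d pos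
  have ct : Continuous fun y => y + p y := continuous_iff_continuousAt.2 fun x => (d x).continuousAt
  have lip := mvt_abs h1 hb
  have sj : Function.Surjective fun y => y + p y := by
    intro c
    have k : ∀ t, 0 ≤ t → (-t + p (-t) ≤ p 0 - t / 2 ∧ p 0 + t / 2 ≤ t + p t) := fun t ht => by
      have a1 := abs_le.1 (lip t 0)
      have a2 := abs_le.1 (lip (-t) 0)
      rw [sub_zero, abs_of_nonneg ht] at a1
      rw [sub_zero, abs_neg, abs_of_nonneg ht] at a2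
      constructor <;> linarith [a1.1, a2.2]
    have ht : 0 ≤ 2 * |c - p 0| := by positivity
    have := intermediate_value_Icc (show -(2 * |c - p 0|) ≤ 2 * |c - p 0| by linarith)
      ct.continuousOn (show c ∈ _ from
        ⟨by linarith [(k _ ht).1, neg_abs_le (c - p 0)], by linarith [(k _ ht).2, le_abs_self (c - p 0)]⟩)
    obtain ⟨x, _, hx⟩ := this
    exact ⟨x, hx⟩
  refine ⟨Equiv.ofBijective _ ⟨sm.injective, sj⟩, fun x => rfl, fun x => ?_, fun x => ?_, ?_⟩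
  · rw [exp_log (pos x)]
    exact d x
  · exact ((h2 x).const_add 1).log (pos x).ne'
  · exact hc.div (continuous_const.add (continuous_iff_continuousAt.2 fun x => (h2 x).continuousAt))
      fun x => (pos x).ne'

theorem abs_log_le {u : ℝ} (h : |u| ≤ 1 / 2) : |log (1 + u)| ≤ 2 * |u| := by
  have b := abs_le.1 h
  have p : 0 < 1 + u := by linarith
  have a1 := log_le_sub_one_of_pos p
  have a2 := one_sub_inv_le_log_of_pos p
  have a3 : 1 - (1 + u)⁻¹ = u / (1 + u) := by field_simp; ring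
  have a4 : -(2 * |u|) ≤ u / (1 + u) := by
    rw [le_div_iff₀ p]
    nlinarith [neg_abs_le u, abs_nonneg u]
  rw [abs_le]
  constructor <;> linarith [le_abs_self u, abs_nonneg u]

theorem abs_exp_sub_one {u C : ℝ} (h : |u| ≤ C) (hC : C ≤ 1) : |exp u - 1| ≤ 2 * C :=
  (abs_exp_sub_one_le (h.trans hC)).trans (by linarith)

theorem comm_mem {a b : Equiv.Perm ℝ} (ha : IsD2 a) (hb : IsD2 b) : a * b * a⁻¹ * b⁻¹ ∈ Comm :=
  Subgroup.subset_closure ⟨a, b, ha, hb, rfl⟩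

/-- The logarithm of the derivative. -/
noncomputable def ph (e : Equiv.Perm ℝ) (x : ℝ) : ℝ := log (deriv e x)

/-- The nonlinearity `e'' / e'`. -/
noncomputable def nl (e : Equiv.Perm ℝ) (x : ℝ) : ℝ := deriv (ph e) x

/-- `e` is an increasing `C^2` diffeomorphism. -/
def IsReg (e : Equiv.Perm ℝ) : Prop := Reg e (ph e) (nl e)

theorem Reg.ph_eq {e : Equiv.Perm ℝ} {φ a : ℝ → ℝ} (h : Reg e φ a) : ph e = φ :=
  funext fun x => by rw [ph, (h.d1 x).deriv, log_exp]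

theorem Reg.nl_eq {e : Equiv.Perm ℝ} {φ a : ℝ → ℝ} (h : Reg e φ a) : nl e = a :=
  funext fun x => by rw [nl, h.ph_eq, (h.d2 x).deriv]

theorem Reg.isReg {e : Equiv.Perm ℝ} {φ a : ℝ → ℝ} (h : Reg e φ a) : IsReg e := by
  rw [IsReg, h.ph_eq, h.nl_eq]
  exact h

namespace IsReg

variable {e e' : Equiv.Perm ℝ}

theorem one : IsReg 1 := Reg.one.isReg

theorem mul (h : IsReg e) (h' : IsReg e') : IsReg (e * e') := (Reg.mul h h').isReg

theorem inv (h : IsReg e) : IsReg e⁻¹ := (Reg.inv h).isReg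

theorem ph_mul (h : IsReg e) (h' : IsReg e') (x : ℝ) :
    ph (e * e') x = ph e (e' x) + ph e' x := congrFun (Reg.mul h h').ph_eq x

theorem nl_mul (h : IsReg e) (h' : IsReg e') (x : ℝ) :
    nl (e * e') x = nl e (e' x) * exp (ph e' x) + nl e' x := congrFun (Reg.mul h h').nl_eq x

theorem ph_inv (h : IsReg e) (x : ℝ) : ph e⁻¹ x = -ph e (e⁻¹ x) := congrFun (Reg.inv h).ph_eq x

theorem nl_inv (h : IsReg e) (x : ℝ) :
    nl e⁻¹ x = -(nl e (e⁻¹ x) * exp (-ph e (e⁻¹ x))) := congrFun (Reg.inv h).nl_eq x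

end IsReg

theorem ph_one (x : ℝ) : ph 1 x = 0 := congrFun Reg.one.ph_eq x

theorem nl_one (x : ℝ) : nl 1 x = 0 := congrFun Reg.one.nl_eq x

theorem ph_congr {e e' : Equiv.Perm ℝ} {x : ℝ} (h : (e : ℝ → ℝ) =ᶠ[nhds x] e') :
    ph e =ᶠ[nhds x] ph e' := by
  filter_upwards [h.deriv] with y hy
  rw [ph, ph, hy]

theorem nl_congr {e e' : Equiv.Perm ℝ} {x : ℝ} (h : (e : ℝ → ℝ) =ᶠ[nhds x] e') :
    nl e =ᶠ[nhds x] nl e' := (ph_congr h).deriv

/-- Regularity is a local property. -/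
theorem isReg_of_local {e : Equiv.Perm ℝ}
    (h : ∀ x, ∃ e' : Equiv.Perm ℝ, IsReg e' ∧ (e : ℝ → ℝ) =ᶠ[nhds x] e') : IsReg e := by
  refine ⟨fun x => ?_, fun x => ?_, continuous_iff_continuousAt.2 fun x => ?_⟩
  · obtain ⟨e', r, l⟩ := h x
    rw [(ph_congr l).self_of_nhds]
    exact (r.d1 x).congr_of_eventuallyEq l
  · obtain ⟨e', r, l⟩ := h x
    rw [(nl_congr l).self_of_nhds]
    exact (r.d2 x).congr_of_eventuallyEq (ph_congr l)
  · obtain ⟨e', r, l⟩ := h x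
    exact r.cont.continuousAt.congr (nl_congr l).symm

/-- The translation by `τ`. -/
def tr (τ : ℝ) : Equiv.Perm ℝ := Equiv.addRight τ

theorem tr_ap (τ x : ℝ) : tr τ x = x + τ := rfl

theorem tr_inv_ap (τ x : ℝ) : (tr τ)⁻¹ x = x - τ := by
  apply (tr τ).injective
  rw [ap_inv, tr_ap, sub_add_cancel]

theorem tr_reg (τ : ℝ) : Reg (tr τ) (fun _ => 0) (fun _ => 0) :=
  ⟨fun x => by
    rw [exp_zero]
    exact (hasDerivAt_id x).add_const τ, fun x => hasDerivAt_const x 0, continuous_const⟩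

theorem tr_per (τ : ℝ) : Per (tr τ) := fun x => by simp only [tr_ap]; ring

theorem Per.comm_tr {e : Equiv.Perm ℝ} (h : Per e) : e * tr 1 = tr 1 * e :=
  Equiv.ext fun x => h x

/-- One elementary move `A G ↦ k⁻¹ A k G` between periodic maps, `k x = x + τ + s x`. -/
def Link (ε τ : ℝ) (F F' : Equiv.Perm ℝ) : Prop :=
  ∃ (A G k : Equiv.Perm ℝ) (s s1 s2 : ℝ → ℝ), IsReg A ∧ IsReg G ∧ Per A ∧ Per G ∧
    F = A * G ∧ F' = k⁻¹ * A * k * G ∧ (∀ x, k x = x + τ + s x) ∧ (∀ x, s (x + 1) = s x) ∧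
    (∀ x, HasDerivAt s (s1 x) x) ∧ (∀ x, HasDerivAt s1 (s2 x) x) ∧ Continuous s2 ∧
    ∀ x, |s x| ≤ ε ∧ |s1 x| ≤ ε ∧ |s2 x| ≤ ε ∧ |nl A x| ≤ ε ∧ |nl G x| ≤ ε ∧ |A x - x| ≤ ε ∧
      |G x - x| ≤ 1

/-- Regularity with uniform bounds. -/
def Bd (μ ν : ℝ) (e : Equiv.Perm ℝ) : Prop :=
  IsReg e ∧ ∀ x, |ph e x| ≤ μ ∧ |nl e x| ≤ ν ∧ |e x - x| ≤ 4

/-- `U` passes from `F` to `F'` on `[Y, Y']`, and `[U, T] = [K, d]` with `K`, `d` supported there. -/
structure IsBr (F F' : Equiv.Perm ℝ) (Y Y' μ ν : ℝ) (U K d : Equiv.Perm ℝ) : Prop where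
  left : ∀ x, x ≤ Y + 2 → U x = F x
  right : ∀ x, Y' - 2 ≤ x → U x = F' x
  supp : ∀ x, x ≤ Y + 2 ∨ Y' - 2 ≤ x → K x = x ∧ d x = x
  rel : U * tr 1 * U⁻¹ * (tr 1)⁻¹ = K * d * K⁻¹ * d⁻¹
  bdU : Bd μ ν U
  bdK : Bd μ ν K
  bdd : Bd μ ν d

/-- A bridge of length `L` from `F` to `F'` can be placed anywhere. -/
def Br (F F' : Equiv.Perm ℝ) (L μ ν : ℝ) : Prop :=
  ∀ Y : ℝ, ∃ U K d : Equiv.Perm ℝ, IsBr F F' Y (Y + L) μ ν U K d

/-- The statement for small periodic maps. -/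
def Core : Prop :=
  ∀ (ω : ℕ → ℝ) (k₁ : ℕ), Summable (fun k : ℕ => 2 ^ k * ω k) → ∃ ε₀ : ℝ, 0 < ε₀ ∧
    ∀ F f : Equiv.Perm ℝ, IsReg F → Per F → (∀ x, |nl F x| ≤ ε₀) →
      (∀ k, k₁ ≤ k → Md (nl F) ((1 / 2) ^ (2 ^ (2 ^ k))) (ω k)) → (∀ x, |x| ≤ 1 / 4 → F x = x) →
      (∀ x, -1 ≤ x → x ≤ 0 → f x = F x) → (∀ x, x ≤ -1 ∨ 0 ≤ x → f x = x) → f ∈ Comm

end Pool.Agent.P.MP_0354a7_al
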