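import Pool.Agent.P.MP_0354a7_al.Defs

/-!
An elementary move between periodic maps is realised by a bridge.
-/

namespace Pool.Agent.P.MP_0354a7_al

open Real

namespace LinkBr

/-- a twice differentiable ramp with bounded derivatives -/
theorem exists_ramp : ∃ (ρ ρ1 ρ2 : ℝ → ℝ) (C : ℝ), 1 ≤ C ∧ (∀ x, HasDerivAt ρ (ρ1 x) x) ∧
    (∀ x, HasDerivAt ρ1 (ρ2 x) x) ∧ Continuous ρ2 ∧ (∀ x, x ≤ 0 → ρ x = 0) ∧
    (∀ x, 1 ≤ x → ρ x = 1) ∧ ∀ x, 0 ≤ ρ x ∧ ρ x ≤ 1 ∧ |ρ1 x| ≤ C ∧ |ρ2 x| ≤ C := by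
  have h3 : ContDiff ℝ (1 + 1 : ℕ) smoothTransition := smoothTransition.contDiff
  have h3' : ContDiff ℝ (1 + 1) smoothTransition := by exact_mod_cast h3
  have h2 : ContDiff ℝ 1 (deriv smoothTransition) := h3'.deriv'
  have h1 : Continuous (deriv (deriv smoothTransition)) := h2.continuous_deriv le_rfl
  have hz : ∀ x, x ∉ Set.Icc (0 : ℝ) 1 → deriv smoothTransition =ᶠ[nhds x] fun _ => 0 := by
    intro x hx
    have : ∃ c : ℝ, smoothTransition =ᶠ[nhds x] fun _ => c := by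
      rcases lt_or_ge x 0 with h | h
      · exact ⟨0, (eventually_lt_nhds h).mono fun y hy => smoothTransition.zero_of_nonpos hy.le⟩
      · have h' : 1 < x := by
          by_contra c
          exact hx ⟨h, not_lt.1 c⟩
        exact ⟨1, (eventually_gt_nhds h').mono fun y hy => smoothTransition.one_of_one_le hy.le⟩
    obtain ⟨c, hc⟩ := this
    simpa using hc.deriv
  obtain ⟨C1, hC1⟩ := isCompact_Icc.exists_bound_of_continuousOn
    (h2.continuous.continuousOn (s := Set.Icc 0 1))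
  obtain ⟨C2, hC2⟩ := isCompact_Icc.exists_bound_of_continuousOn
    (h1.continuousOn (s := Set.Icc 0 1))
  refine ⟨smoothTransition, deriv smoothTransition, deriv (deriv smoothTransition),
    max 1 (max C1 C2), le_max_left _ _,
    fun x => (h3'.differentiable (by norm_num) x).hasDerivAt,
    fun x => (h2.differentiable (by norm_num) x).hasDerivAt, h1,
    fun x => smoothTransition.zero_of_nonpos, fun x => smoothTransition.one_of_one_le,
    fun x => ⟨smoothTransition.nonneg x, smoothTransition.le_one x, ?_, ?_⟩⟩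
  · by_cases hx : x ∈ Set.Icc (0 : ℝ) 1
    · exact (hC1 x hx).trans ((le_max_left _ _).trans (le_max_right _ _))
    · rw [(hz x hx).self_of_nhds, abs_zero]
      exact zero_le_one.trans (le_max_left _ _)
  · by_cases hx : x ∈ Set.Icc (0 : ℝ) 1
    · exact (hC2 x hx).trans ((le_max_right _ _).trans (le_max_right _ _))
    · rw [(hz x hx).deriv_eq, deriv_const, abs_zero]
      exact zero_le_one.trans (le_max_left _ _)

/-- regularity with bounds for the first two derivatives -/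
def Sz (μ ν : ℝ) (e : Equiv.Perm ℝ) : Prop := IsReg e ∧ ∀ x, |ph e x| ≤ μ ∧ |nl e x| ≤ ν

theorem exp_le_three {u : ℝ} (h : |u| ≤ 1) : exp u ≤ 3 :=
  (exp_le_exp.2 (le_of_abs_le h)).trans (by linarith [exp_one_lt_d9])

theorem Sz.mono {μ ν μ' ν' : ℝ} {e : Equiv.Perm ℝ} (h : Sz μ ν e) (h1 : μ ≤ μ') (h2 : ν ≤ ν') :
    Sz μ' ν' e := ⟨h.1, fun x => ⟨(h.2 x).1.trans h1, (h.2 x).2.trans h2⟩⟩

theorem Sz.mul {μ ν μ' ν' : ℝ} {e e' : Equiv.Perm ℝ} (h : Sz μ ν e) (h' : Sz μ' ν' e')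
    (h1 : μ' ≤ 1) : Sz (μ + μ') (3 * ν + ν') (e * e') := by
  refine ⟨h.1.mul h'.1, fun x => ⟨?_, ?_⟩⟩
  · rw [h.1.ph_mul h'.1]
    exact (abs_add_le _ _).trans (add_le_add (h.2 _).1 (h'.2 _).1)
  · rw [h.1.nl_mul h'.1]
    refine (abs_add_le _ _).trans (add_le_add ?_ (h'.2 _).2)
    rw [abs_mul, abs_of_pos (exp_pos _), mul_comm]
    exact mul_le_mul (exp_le_three ((h'.2 x).1.trans h1)) (h.2 _).2 (abs_nonneg _) (by norm_num)

theorem Sz.inv {μ ν : ℝ} {e : Equiv.Perm ℝ} (h : Sz μ ν e) (h1 : μ ≤ 1) : Sz μ (3 * ν) e⁻¹ := by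
  refine ⟨h.1.inv, fun x => ⟨?_, ?_⟩⟩
  · rw [h.1.ph_inv, abs_neg]
    exact (h.2 _).1
  · rw [h.1.nl_inv, abs_neg, abs_mul, abs_of_pos (exp_pos _), mul_comm]
    exact mul_le_mul (exp_le_three (by rw [abs_neg]; exact (h.2 _).1.trans h1)) (h.2 _).2
      (abs_nonneg _) (by norm_num)

theorem cut_perm {χ χ1 χ2 q q1 q2 : ℝ → ℝ} {a1 a2 b0 b1 b2 : ℝ}
    (c1 : ∀ x, HasDerivAt χ (χ1 x) x) (c2 : ∀ x, HasDerivAt χ1 (χ2 x) x) (c3 : Continuous χ2)
    (d1 : ∀ x, HasDerivAt q (q1 x) x) (d2 : ∀ x, HasDerivAt q1 (q2 x) x) (d3 : Continuous q2)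
    (hχ : ∀ x, |χ x| ≤ 1 ∧ |χ1 x| ≤ a1 ∧ |χ2 x| ≤ a2)
    (hq : ∀ x, |q x| ≤ b0 ∧ |q1 x| ≤ b1 ∧ |q2 x| ≤ b2) (hs : a1 * b0 + b1 ≤ 1 / 2) :
    ∃ e : Equiv.Perm ℝ, (∀ x, e x = x + χ x * q x) ∧
      Sz (2 * (a1 * b0 + b1)) (2 * (a2 * b0 + 2 * (a1 * b1) + b2)) e := by
  have m : ∀ {u v a b : ℝ}, |u| ≤ a → |v| ≤ b → |u * v| ≤ a * b := fun h h' => by
    rw [abs_mul]
    exact mul_le_mul h h' (abs_nonneg _) ((abs_nonneg _).trans h)
  have hb : ∀ x, |χ1 x * q x + χ x * q1 x| ≤ a1 * b0 + b1 := fun x =>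
    (abs_add_le _ _).trans (add_le_add (m (hχ x).2.1 (hq x).1)
      (by simpa using m (hχ x).1 (hq x).2.1))
  have k : ∀ {f f' : ℝ → ℝ}, (∀ x, HasDerivAt f (f' x) x) → Continuous f := fun h =>
    continuous_iff_continuousAt.2 fun x => (h x).continuousAt
  obtain ⟨e, he, hr⟩ := exists_perm (p := fun x => χ x * q x)
    (p1 := fun x => χ1 x * q x + χ x * q1 x)
    (p2 := fun x => χ2 x * q x + χ1 x * q1 x + (χ1 x * q1 x + χ x * q2 x))
    (fun x => (c1 x).mul (d1 x)) (fun x => ((c2 x).mul (d1 x)).add ((c1 x).mul (d2 x)))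
    (((c3.mul (k d1)).add ((k c2).mul (k d2))).add (((k c2).mul (k d2)).add ((k c1).mul d3)))
    fun x => (hb x).trans hs
  refine ⟨e, he, hr.isReg, fun x => ⟨?_, ?_⟩⟩
  · rw [hr.ph_eq]
    exact (abs_log_le ((hb x).trans hs)).trans (by linarith [hb x])
  · rw [hr.nl_eq]
    have h1 := (abs_le.1 ((hb x).trans hs)).1
    have h2 : |χ2 x * q x + χ1 x * q1 x + (χ1 x * q1 x + χ x * q2 x)| ≤
        a2 * b0 + 2 * (a1 * b1) + b2 := by
      have e1 := m (hχ x).2.2 (hq x).1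
      have e2 := m (hχ x).2.1 (hq x).2.1
      have e3 := m (hχ x).1 (hq x).2.2
      have e4 := abs_add_le (χ2 x * q x + χ1 x * q1 x) (χ1 x * q1 x + χ x * q2 x)
      have e5 := abs_add_le (χ2 x * q x) (χ1 x * q1 x)
      have e6 := abs_add_le (χ1 x * q1 x) (χ x * q2 x)
      linarith
    simp only
    rw [abs_div, abs_of_pos (by linarith : 0 < 1 + (χ1 x * q x + χ x * q1 x)),
      div_le_iff₀ (by linarith)]
    nlinarith [abs_nonneg (χ2 x * q x + χ1 x * q1 x + (χ1 x * q1 x + χ x * q2 x))]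

theorem comm_of_supp {S d : Equiv.Perm ℝ} (hS : StrictMono S) (hd : StrictMono d) {a b : ℝ}
    (hab : a ≤ b) (h1 : ∀ x, a ≤ x → x ≤ b → S x = x) (h2 : ∀ x, x ≤ a ∨ b ≤ x → d x = x) :
    S * d = d * S := by
  ext x
  simp only [Equiv.Perm.mul_apply]
  rcases le_total x a with h | h
  · have := hS.monotone h
    rw [h1 a le_rfl hab] at this
    rw [h2 x (Or.inl h), h2 _ (Or.inl this)]
  rcases le_total b x with h' | h'
  · have := hS.monotone h'
    rw [h1 b hab le_rfl] at this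
    rw [h2 x (Or.inr h'), h2 _ (Or.inr this)]
  have e1 := hd.monotone h
  have e2 := hd.monotone h'
  rw [h2 a (Or.inl le_rfl)] at e1
  rw [h2 b (Or.inr le_rfl)] at e2
  rw [h1 x h h', h1 _ e1 e2]

theorem inv_eq {e : Equiv.Perm ℝ} {x y : ℝ} (h : e x = y) : e⁻¹ y = x := by
  rw [← h, inv_ap]

end LinkBr

open LinkBr in
theorem link_br : ∃ C : ℝ, 1 ≤ C ∧ ∀ (ε τ L : ℝ) (F F' : Equiv.Perm ℝ), Link ε τ F F' → 0 ≤ τ →
    τ ≤ 1 → C * ε ≤ 1 → C ≤ L →
    Br F F' (L + C) (C * (ε + τ / L)) (C * (ε + τ / L ^ 2)) := by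
  obtain ⟨ρ, ρ1, ρ2, c, hc, r1, r2, r3, r0, rone, rb⟩ := exists_ramp
  refine ⟨2600 * c, by linarith, fun ε τ L F F' hl h0 h1 hε hL Y => ?_⟩
  obtain ⟨A, G, k, s, s1, s2, hA, hG, pA, pG, rfl, rfl, hk, sp, d1, d2, d3, hb⟩ := hl
  have ε0 : 0 ≤ ε := (abs_nonneg _).trans (hb 0).1
  have L0 : 0 < L := by linarith
  have L1 : 1 ≤ L := by linarith
  have εs : ε ≤ 1 / 2600 := by nlinarith
  set u := τ / L with hu
  set w := τ / L ^ 2 with hw
  have u0 : 0 ≤ u := by positivity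
  have w0 : 0 ≤ w := by positivity
  have hcu : 2600 * c * u ≤ 1 := by
    rw [hu, ← mul_div_assoc, div_le_one L0]
    nlinarith
  have cε : ε ≤ c * ε := by nlinarith
  have cu : 0 ≤ c * u := by positivity
  have cw : 0 ≤ c * w := by positivity
  have iL : c / L ≤ c := div_le_self (by linarith) L1
  have iL2 : c / L / L ≤ c := (div_le_self (by positivity) L1).trans iL
  have phA := Reg.phi_le hA pA fun x => (hb x).2.2.2.1
  have phG := Reg.phi_le hG pG fun x => (hb x).2.2.2.2.1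
  obtain ⟨kt, hkt, skt⟩ := cut_perm (χ := fun y => ρ ((y - Y - 10) / L))
    (χ1 := fun y => ρ1 ((y - Y - 10) / L) / L) (χ2 := fun y => ρ2 ((y - Y - 10) / L) / L / L)
    (q := fun y => τ + s y) (q1 := s1) (q2 := s2) (a1 := c / L) (a2 := c / L / L) (b0 := τ + ε)
    (b1 := ε) (b2 := ε)
    (fun x => by
      rw [div_eq_mul_one_div (ρ1 _)]
      exact (r1 ((x - Y - 10) / L)).comp x
        ((((hasDerivAt_id x).sub_const Y).sub_const 10).div_const L))
    (fun x => by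
      have := ((r2 ((x - Y - 10) / L)).comp x
        ((((hasDerivAt_id x).sub_const Y).sub_const 10).div_const L)).div_const L
      simpa [div_eq_mul_inv] using this)
    (by fun_prop) (fun x => (d1 x).const_add τ) d2 d3
    (fun x => ⟨by rw [abs_of_nonneg (rb _).1]; exact (rb _).2.1,
      by rw [abs_div, abs_of_pos L0]; gcongr; exact (rb _).2.2.1,
      by rw [abs_div, abs_div, abs_of_pos L0]; gcongr; exact (rb _).2.2.2⟩)
    (fun x => ⟨(abs_add_le _ _).trans (by rw [abs_of_nonneg h0]; linarith [(hb x).1]),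
      (hb x).2.1, (hb x).2.2.1⟩)
    (by
      have e1 : c / L * (τ + ε) = c * u + c / L * ε := by rw [hu]; ring
      have e2 := mul_le_mul_of_nonneg_right iL ε0
      linarith)
  obtain ⟨B, hB, sB⟩ := cut_perm (χ := fun y => ρ (y - (Y + 5)) - ρ (y - (Y + L + 20)))
    (χ1 := fun y => ρ1 (y - (Y + 5)) - ρ1 (y - (Y + L + 20)))
    (χ2 := fun y => ρ2 (y - (Y + 5)) - ρ2 (y - (Y + L + 20)))
    (q := fun y => A y - y) (q1 := fun y => exp (ph A y) - 1)
    (q2 := fun y => exp (ph A y) * nl A y) (a1 := 2 * c) (a2 := 2 * c) (b0 := ε)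
    (b1 := 2 * ε) (b2 := 3 * ε)
    (fun x => ((r1 _).comp_sub_const x _).sub ((r1 _).comp_sub_const x _))
    (fun x => ((r2 _).comp_sub_const x _).sub ((r2 _).comp_sub_const x _))
    (by fun_prop) (fun x => (hA.d1 x).sub (hasDerivAt_id x))
    (fun x => (hA.d2 x).exp.sub_const 1) (hA.continuous_phi.rexp.mul hA.cont)
    (fun x => ⟨by
        rw [abs_le]
        constructor <;> linarith [(rb (x - (Y + 5))).1, (rb (x - (Y + 5))).2.1,
          (rb (x - (Y + L + 20))).1, (rb (x - (Y + L + 20))).2.1],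
      (abs_sub _ _).trans (by linarith [(rb (x - (Y + 5))).2.2.1, (rb (x - (Y + L + 20))).2.2.1]),
      (abs_sub _ _).trans (by linarith [(rb (x - (Y + 5))).2.2.2, (rb (x - (Y + L + 20))).2.2.2])⟩)
    (fun x => ⟨(hb x).2.2.2.2.2.1, abs_exp_sub_one (phA x) (by linarith), by
      rw [abs_mul, abs_of_pos (exp_pos _)]
      exact mul_le_mul (exp_le_three ((phA x).trans (by linarith))) (hb x).2.2.2.1 (abs_nonneg _)
        (by norm_num)⟩)
    (by linarith)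
  set μ := 26 * (c * ε + c * u) with hμ
  set ν := 26 * (c * ε + c * w) with hν
  have μ1 : μ ≤ 1 := by linarith
  have μ0 : 0 ≤ μ := by linarith
  have ν0 : 0 ≤ ν := by linarith
  have Sk : Sz μ ν kt := by
    have e1 : c / L * (τ + ε) = c * u + c / L * ε := by rw [hu]; ring
    have e2 := mul_le_mul_of_nonneg_right iL ε0
    have e3 : c / L / L * (τ + ε) = c * w + c / L / L * ε := by rw [hw]; ring
    have e4 := mul_le_mul_of_nonneg_right iL2 ε0
    exact skt.mono (by linarith) (by linarith)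
  have SB : Sz μ ν B := sB.mono (by linarith) (by linarith)
  have SA : Sz μ ν A :=
    ⟨hA, fun x => ⟨(phA x).trans (by linarith), (hb x).2.2.2.1.trans (by linarith)⟩⟩
  have SG : Sz μ ν G :=
    ⟨hG, fun x => ⟨(phG x).trans (by linarith), (hb x).2.2.2.2.1.trans (by linarith)⟩⟩
  have ST : Sz μ ν (tr 1) := ⟨(tr_reg 1).isReg, fun x => by
    rw [(tr_reg 1).ph_eq, (tr_reg 1).nl_eq]
    simpa using ⟨μ0, ν0⟩⟩
  have SH := Sk.inv μ1
  have kl : ∀ x, x ≤ Y + 10 → kt x = x := fun x hx => by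
    rw [hkt, r0 _ (div_nonpos_of_nonpos_of_nonneg (by linarith) L0.le), zero_mul, add_zero]
  have kr : ∀ x, Y + 10 + L ≤ x → kt x = k x := fun x hx => by
    rw [hkt, rone _ ((one_le_div L0).2 (by linarith)), hk]
    ring
  have kd : ∀ x, x - ε ≤ kt x ∧ kt x ≤ x + 1 + ε := fun x => by
    rw [hkt]
    have a1 := (rb ((x - Y - 10) / L)).1
    have a2 := (rb ((x - Y - 10) / L)).2.1
    have a3 := abs_le.1 (hb x).1
    constructor <;> nlinarith
  have Hd : ∀ x, x - 1 - ε ≤ kt⁻¹ x ∧ kt⁻¹ x ≤ x + ε := fun x => by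
    have := kd (kt⁻¹ x)
    rw [ap_inv] at this
    constructor <;> linarith
  have Ad : ∀ x, x - ε ≤ A x ∧ A x ≤ x + ε := fun x => by
    have := abs_le.1 (hb x).2.2.2.2.2.1
    constructor <;> linarith
  have Gd : ∀ x, x - 1 ≤ G x ∧ G x ≤ x + 1 := fun x => by
    have := abs_le.1 (hb x).2.2.2.2.2.2
    constructor <;> linarith
  have Bd' : ∀ x, x - ε ≤ B x ∧ B x ≤ x + ε := fun x => by
    have a1 : |ρ (x - (Y + 5)) - ρ (x - (Y + L + 20))| ≤ 1 := by
      rw [abs_le]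
      constructor <;> linarith [(rb (x - (Y + 5))).1, (rb (x - (Y + 5))).2.1,
        (rb (x - (Y + L + 20))).1, (rb (x - (Y + L + 20))).2.1]
    have a2 := mul_le_mul a1 (hb x).2.2.2.2.2.1 (abs_nonneg _) zero_le_one
    rw [← abs_mul, one_mul, abs_le] at a2
    rw [hB]
    constructor <;> linarith [a2.1, a2.2]
  have Bl : ∀ x, x ≤ Y + 5 ∨ Y + L + 21 ≤ x → B x = x := fun x hx => by
    rcases hx with hx | hx
    · rw [hB, r0 _ (by linarith), r0 _ (by linarith)]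
      ring
    · rw [hB, rone _ (by linarith), rone _ (by linarith)]
      ring
  have Bm : ∀ x, Y + 6 ≤ x → x ≤ Y + L + 20 → B x = A x := fun x a b => by
    rw [hB, rone _ (by linarith), r0 _ (by linarith)]
    ring
  have hd : ∀ x, x ≤ Y + 10 ∨ Y + 11 + L ≤ x → (tr 1 * kt⁻¹ * (tr 1)⁻¹ * kt) x = x := by
    intro x hx
    have : kt (x - 1) = kt x - 1 := by
      rcases hx with hx | hx
      · rw [kl x hx, kl _ (by linarith)]
      · rw [kr x (by linarith), kr _ (by linarith), hk, hk, ← sp (x - 1), sub_add_cancel]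
        ring
    simp only [Equiv.Perm.mul_apply, tr_inv_ap, tr_ap]
    rw [inv_eq this, sub_add_cancel]
  have Sd := ((ST.mul SH μ1).mul (ST.inv μ1) μ1).mul Sk μ1
  have hcomm : (kt⁻¹ * A⁻¹ * B * kt) * (tr 1 * kt⁻¹ * (tr 1)⁻¹ * kt) =
      (tr 1 * kt⁻¹ * (tr 1)⁻¹ * kt) * (kt⁻¹ * A⁻¹ * B * kt) := by
    refine comm_of_supp (Reg.strictMono (((SH.1.mul hA.inv).mul SB.1).mul Sk.1))
      (Reg.strictMono Sd.1) (by linarith) (fun x a b => ?_) hd
    simp only [Equiv.Perm.mul_apply]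
    rw [Bm _ (by linarith [(kd x).1]) (by linarith [(kd x).2]), inv_ap, inv_ap]
  have bd : ∀ {m n : ℝ} {e : Equiv.Perm ℝ}, Sz m n e → m ≤ 100 * μ → n ≤ 100 * ν →
      (∀ x, x - 4 ≤ e x ∧ e x ≤ x + 4) → Bd (2600 * c * (ε + u)) (2600 * c * (ε + w)) e :=
    fun h a b z => ⟨h.1, fun x => ⟨(h.2 x).1.trans (by linarith), (h.2 x).2.trans (by linarith),
      abs_le.2 ⟨by linarith [(z x).1], by linarith [(z x).2]⟩⟩⟩
  refine ⟨kt⁻¹ * A * kt * G, kt⁻¹ * B * kt, tr 1 * kt⁻¹ * (tr 1)⁻¹ * kt, fun x hx => ?_,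
    fun x hx => ?_, fun x hx => ⟨?_, hd x (hx.imp (fun _ => by linarith) fun _ => by linarith)⟩,
    ?_, bd (((SH.mul SA μ1).mul Sk μ1).mul SG μ1) (by linarith) (by linarith) fun x => ?_,
    bd ((SH.mul SB μ1).mul Sk μ1) (by linarith) (by linarith) fun x => ?_,
    bd Sd (by linarith) (by linarith) fun x => ?_⟩
  · simp only [Equiv.Perm.mul_apply]
    rw [kl (G x) (by linarith [(Gd x).2])]
    exact inv_eq (kl _ (by linarith [(Gd x).2, (Ad (G x)).2]))
  · simp only [Equiv.Perm.mul_apply]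
    have a1 := (kd (G x)).1
    rw [kr (G x) (by linarith [(Gd x).1])] at a1 ⊢
    refine inv_eq ((kr _ ?_).trans (ap_inv _ _))
    have a2 := hk (k⁻¹ (A (k (G x))))
    rw [ap_inv] at a2
    linarith [(Gd x).1, (Ad (k (G x))).1, (abs_le.1 (hb (k⁻¹ (A (k (G x))))).1).2]
  · simp only [Equiv.Perm.mul_apply]
    rw [Bl _ (hx.imp (fun _ => by linarith [(kd x).2]) fun _ => by linarith [(kd x).1]), inv_ap]
  · have cA : A * tr 1 = tr 1 * A := pA.comm_tr
    have cG : G * tr 1 = tr 1 * G := pG.comm_tr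
    generalize tr 1 = T at *
    have cA' : T⁻¹ * A⁻¹ * T = A⁻¹ := by
      rw [← mul_inv_rev, cA]
      group
    calc kt⁻¹ * A * kt * G * T * (kt⁻¹ * A * kt * G)⁻¹ * T⁻¹
        = kt⁻¹ * A * kt * (G * T) * G⁻¹ * kt⁻¹ * A⁻¹ * kt * T⁻¹ := by group
      _ = kt⁻¹ * A * kt * T * kt⁻¹ * (T⁻¹ * A⁻¹ * T) * kt * T⁻¹ := by rw [cG, cA']; group
      _ = kt⁻¹ * A * kt * ((T * kt⁻¹ * T⁻¹ * kt) * (kt⁻¹ * A⁻¹ * B * kt)) *
          (kt⁻¹ * B * kt)⁻¹ * (T * kt⁻¹ * T⁻¹ * kt)⁻¹ := by group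
      _ = _ := by rw [← hcomm]; group
  · simp only [Equiv.Perm.mul_apply]
    constructor <;> linarith [Gd x, (Gd x).1, (Gd x).2, (kd (G x)).1, (kd (G x)).2,
      (Ad (kt (G x))).1, (Ad (kt (G x))).2, (Hd (A (kt (G x)))).1, (Hd (A (kt (G x)))).2]
  · simp only [Equiv.Perm.mul_apply]
    constructor <;> linarith [(kd x).1, (kd x).2, (Bd' (kt x)).1, (Bd' (kt x)).2,
      (Hd (B (kt x))).1, (Hd (B (kt x))).2]
  · simp only [Equiv.Perm.mul_apply, tr_inv_ap, tr_ap]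
    constructor <;> linarith [(kd x).1, (kd x).2, (Hd (kt x - 1)).1, (Hd (kt x - 1)).2]

end Pool.Agent.P.MP_0354a7_al
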