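import Pool.Agent.P.MP_0354a7_al.Select
import Pool.Agent.P.MP_0354a7_al.LinkBr
import Pool.Agent.P.MP_0354a7_al.ChainA

/-!
One epoch: the nonlinearity is divided by four, up to the modulus of continuity.
-/

namespace Pool.Agent.P.MP_0354a7_al

open Real Finset

theorem bd_one {μ ν : ℝ} (h1 : 0 ≤ μ) (h2 : 0 ≤ ν) : Bd μ ν 1 :=
  ⟨IsReg.one, fun x => by simp [ph_one, nl_one, h1, h2]⟩

theorem br_refl {F : Equiv.Perm ℝ} {μ ν : ℝ} (b : Bd μ ν F) (p : Per F) : Br F F 0 μ ν := fun _ =>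
  have h1 : 0 ≤ μ := (abs_nonneg _).trans (b.2 0).1
  have h2 : 0 ≤ ν := (abs_nonneg _).trans (b.2 0).2.1
  ⟨F, 1, 1, fun _ _ => rfl, fun _ _ => rfl, fun _ _ => ⟨rfl, rfl⟩, by rw [p.comm_tr]; group, b,
    bd_one h1 h2, bd_one h1 h2⟩

theorem br_run {C : ℝ} (C1 : 1 ≤ C) (hC : ∀ (ε τ L : ℝ) (F F' : Equiv.Perm ℝ), Link ε τ F F' →
      0 ≤ τ → τ ≤ 1 → C * ε ≤ 1 → C ≤ L →
      Br F F' (L + C) (C * (ε + τ / L)) (C * (ε + τ / L ^ 2)))
    {ε T L : ℝ} (T0 : 0 < T) (e1 : C * ε ≤ 1) {E : Equiv.Perm ℝ} {F : ℕ → Equiv.Perm ℝ} {n : ℕ}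
    (hr : ∀ t ≤ n, IsReg (F t) ∧ Per (F t))
    (hl : ∀ t < n, Link ε ((1 / 2) ^ (t + 1)) (F t) (F (t + 1))) (L0 : 0 ≤ L)
    (h : Br E (F 0) L (C * (ε + 1 / T)) (C * (ε + 1 / T ^ 2))) :
    Br E (F n) (L + 2 * C * n + 4 * T) (C * (ε + 1 / T)) (C * (ε + 1 / T ^ 2)) := by
  have k : ∀ t ≤ n, Br E (F t) (L + 2 * C * t + 4 * T * (1 - (3 / 4) ^ t)) (C * (ε + 1 / T))
      (C * (ε + 1 / T ^ 2)) := by
    intro t
    induction t with
    | zero => exact fun _ => by simpa using h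
    | succ t ih =>
      intro ht
      have p : (0 : ℝ) < (3 / 4) ^ t := by positivity
      have p1 : (3 / 4 : ℝ) ^ t ≤ 1 := pow_le_one₀ (by norm_num) (by norm_num)
      have p2 : (1 / 2 : ℝ) ^ (t + 1) ≤ ((3 / 4) ^ t) ^ 2 := by
        rw [← pow_mul, mul_comm, pow_mul, pow_succ]
        linarith [pow_le_pow_left₀ (show (0 : ℝ) ≤ 1 / 2 by norm_num)
          (show (1 / 2 : ℝ) ≤ (3 / 4) ^ 2 by norm_num) t, pow_pos (show (0 : ℝ) < 1 / 2 by norm_num) t]
      have p3 : ((3 / 4 : ℝ) ^ t) ^ 2 ≤ (3 / 4) ^ t := by nlinarith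
      have q : 0 < T * (3 / 4) ^ t := by positivity
      have b := (hC ε _ (C + T * (3 / 4) ^ t) _ _ (hl t (by omega)) (by positivity) (by linarith) e1
        (by linarith)).mono le_rfl (μ' := C * (ε + 1 / T)) (ν' := C * (ε + 1 / T ^ 2))
        (mul_le_mul_of_nonneg_left (add_le_add_right (by
          rw [div_le_div_iff₀ (by linarith) T0]
          nlinarith) _) (by linarith))
        (mul_le_mul_of_nonneg_left (add_le_add_right (by
          rw [div_le_div_iff₀ (by positivity) (by positivity)]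
          have := pow_le_pow_left₀ q.le (show _ ≤ C + T * (3 / 4) ^ t by linarith) 2
          nlinarith [mul_le_mul_of_nonneg_right p2 (sq_nonneg T)]) _) (by linarith))
      refine ((ih (by omega)).trans b (hr t (by omega)).1 (hr t (by omega)).2 ?_
        (by linarith)).mono (le_of_eq ?_) le_rfl le_rfl
      · have : 0 ≤ 4 * T * (1 - (3 / 4) ^ t) := mul_nonneg (by linarith) (by linarith)
        positivity
      · push_cast
        ring
  refine (k n le_rfl).mono ?_ le_rfl le_rfl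
  have : 0 < T * (3 / 4) ^ n := by positivity
  linarith

theorem grid_bound {a : ℝ → ℝ} (p : Function.Periodic a 1) {δ ω B : ℝ} (d0 : 0 < δ) (m : Md a δ ω)
    (h : ∀ x ∈ (range ⌈1 / δ⌉₊).image fun j : ℕ => j * δ, |a x| ≤ B) (x : ℝ) : |a x| ≤ B + ω := by
  have f0 := Int.fract_nonneg x
  have f1 := Int.fract_lt_one x
  have a1 := Nat.floor_le (div_nonneg f0 d0.le)
  have a2 := Nat.lt_floor_add_one (Int.fract x / δ)
  rw [le_div_iff₀ d0] at a1
  rw [div_lt_iff₀ d0] at a2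
  have b := abs_le.1 (h _ (mem_image.2 ⟨⌊Int.fract x / δ⌋₊, mem_range.2 (by
    rw [Nat.floor_lt (div_nonneg f0 d0.le)]
    exact (div_lt_div_of_pos_right f1 d0).trans_le (Nat.le_ceil _)), rfl⟩))
  have c := abs_le.1 (m (Int.fract x) (⌊Int.fract x / δ⌋₊ * δ) (by
    rw [abs_le]
    constructor <;> linarith))
  rw [← p.sub_int_mul_eq ⌊x⌋ (x := x), mul_one, Int.self_sub_floor, abs_le]
  constructor <;> linarith

theorem epoch : ∃ C : ℝ, 1 ≤ C ∧ ∀ (T : ℕ) (ε D δ ω : ℝ) (F : Equiv.Perm ℝ), IsReg F → Per F →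
    (∀ x, |nl F x| ≤ ε) → C * T * ε ≤ 1 → 24 ≤ T → (1 / 2) ^ T ≤ ε → (∀ x, |F x - x| ≤ D) →
    D ≤ 1 / 2 → 0 < δ → δ ≤ (1 / 2) ^ (8 * T) * ω → Md (nl F) δ ω →
    2 * (2 / δ + 1) ≤ exp (2 ^ T / 2 ^ 20) →
    ∃ F' : Equiv.Perm ℝ, Br F F' (C * T) (C * (ε + 1 / T)) (C * (ε + 1 / T ^ 2)) ∧ IsReg F' ∧
      Per F' ∧ (∀ x, |nl F' x| ≤ ε / 4 + 3 * ω) ∧ (∀ x, |F' x - x| ≤ D + C * T * ε) ∧
      MdT (nl F) (nl F') ((1 / 2) ^ (8 * T)) (C * T * ε) := by
  obtain ⟨C, C1, hC⟩ := link_br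
  refine ⟨96 * C + 16000, by linarith, ?_⟩
  intro T ε D δ ω F rF pF nF hε hT hq hD D1 d0 d1 md hX
  have T1 : (24 : ℝ) ≤ T := by exact_mod_cast hT
  set q : ℝ := (1 / 2) ^ T with hq'
  have q0 : 0 < q := by positivity
  have q1 : q ≤ 1 / 2 ^ 24 := by
    rw [← one_div_pow]
    exact pow_le_pow_of_le_one (by norm_num) (by norm_num) hT
  have qM : ((2 ^ T : ℕ) : ℝ) * q = 1 := by
    rw [hq']
    push_cast
    rw [← mul_pow]
    norm_num
  have hh : (1 / 2 : ℝ) ^ (8 * T) = q ^ 8 := by rw [mul_comm, pow_mul]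
  have ε0 : 0 < ε := by linarith
  have Tε : 0 < T * ε := by positivity
  have CTε : 0 < C * (T * ε) := by positivity
  have e1 : 16000 * (T * ε) ≤ 1 := by linarith
  have e2 : 24 * ε ≤ T * ε := by nlinarith
  have e3 : C * (3 * (32 * ε)) ≤ 1 := by nlinarith
  have qp : ∀ i : ℕ, q ^ (i + 1) ≤ 1 / 2 ^ 24 := fun i =>
    (pow_le_of_le_one q0.le (by linarith) (by omega)).trans q1
  have h1 := qp 7
  have h0 : 0 < q ^ 8 := by positivity
  have εh : ε * q ^ 8 ≤ ε := by nlinarith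
  have εh0 : 0 < ε * q ^ 8 := by positivity
  have sF := sm_of_nl rF pF nF (by linarith)
  have a1 : 20 * ε ≤ 1 := by linarith
  have a2 : 20 * (8 * T : ℕ) * ε ≤ 1 := by
    push_cast
    linarith
  have d2 : ∀ t ≤ 8 * T, ∀ x, |run F t x - x| ≤ D + 32 * (T * ε) := fun t ht x => by
    have : (t : ℝ) ≤ 8 * T := by exact_mod_cast ht
    linarith [run_disp sF a1 a2 hD t ht x, mul_le_mul_of_nonneg_right this ε0.le]
  obtain ⟨K, G, eK, sK, pG, LG, dK, mK⟩ := exists_split (run_sm sF a1 a2 _ le_rfl) h0 (by linarith)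
    (ε' := ε / 100) (by linarith) (fun x => by
      have := run_osc sF a1 a2 _ le_rfl x
      rw [hh] at this
      refine this.trans (mul_le_mul_of_nonneg_right ?_ h0.le)
      push_cast
      nlinarith)
  have κ1 : 11 * (8192 * q ^ 2) ≤ ε / 100 := by nlinarith
  have P : Par K T (2 ^ T) (2 * ε * q ^ 8) (4 * (2 * ε)) (q ^ 5) (8192 * q ^ 2) := by
    have i : ∀ a b : ℕ, ((2 ^ T : ℕ) : ℝ) ^ a * q ^ (a + b) = q ^ b := fun a b => by
      rw [pow_add, ← mul_assoc, ← mul_pow, qM, one_pow, one_mul]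
    have q2 : ε * q ^ 2 ≤ 1 / 2 ^ 48 := by nlinarith
    refine ⟨rfl, sK, dK, by linarith, by linarith, by linarith, ?_, by positivity, by linarith,
      ?_, ?_, ?_⟩
    · rw [mul_assoc, i 3 2]
    · have e : 2 ^ 31 * ((2 ^ T : ℕ) : ℝ) ^ 6 * (2 * ε * q ^ 8) = 2 ^ 32 * (ε * q ^ 2) := by
        linear_combination 2 ^ 32 * ε * i 6 2
      rw [e]
      linarith
    · have := i 1 7
      rw [pow_one] at this
      have e : 2 ^ 25 * ((2 ^ T : ℕ) : ℝ) * (2 * ε * q ^ 8) = 2 ^ 26 * (ε * q ^ 2) * q ^ 5 := by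
        linear_combination 2 ^ 26 * ε * this
      rw [e]
      nlinarith [pow_pos q0 5]
    · have e : 2 ^ 14 * (2 * ε * q ^ 8) = 2 ^ 15 * q * q ^ 2 * (q ^ 5 * ε) := by ring
      have : 2 ^ 15 * q * q ^ 2 ≤ 1 := by nlinarith [qp 1, pow_pos q0 2]
      rw [e]
      nlinarith [mul_pos (pow_pos q0 5) ε0]
  obtain ⟨s, s1, s2, s3, f, hf⟩ := P.exists_field (by linarith)
    ((range ⌈1 / (δ / 2)⌉₊).image fun j : ℕ => j * (δ / 2)) (by
      have a : (((range ⌈1 / (δ / 2)⌉₊).image fun j : ℕ => j * (δ / 2)).card : ℝ) ≤ ⌈1 / (δ / 2)⌉₊ := by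
        exact_mod_cast card_image_le.trans (card_range _).le
      have b := (Nat.ceil_lt_add_one (show 0 ≤ 1 / (δ / 2) by positivity)).le
      rw [one_div_div] at a b
      push_cast
      rw [one_div_div]
      linarith)
  obtain ⟨b1, -, b3, b4, -⟩ := P.conj f
  set K0 := (cj s)⁻¹ * K * cj s with hK0
  have m1 : MdT (nl F) (nl (run K0 T)) ((1 / 2) ^ (8 * T)) (300 * (T * ε)) := by
    have u1 := (run_md sF a1 a2 _ le_rfl).mono (h' := q ^ 8) (by linarith) le_rfl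
    have u2 := (f.conj_md sK (by linarith)).mono (h' := q ^ 8) (by linarith) le_rfl
    have u3 := (run_md b1 b3 b4 _ le_rfl).mono (h' := q ^ 8) (by linarith) le_rfl
    rw [hh]
    refine (((u1.trans mK h0.le (by positivity)).trans u2 h0.le (by positivity)).trans u3 h0.le
      (by positivity)).mono le_rfl ?_
    push_cast
    linarith
  have sT := run_sm b1 b3 b4 T le_rfl
  have n1 : ∀ x, |nl (run K0 T) x| ≤ ε / 10 + 2 * ω := by
    have w0 := md.nonneg d0.le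
    have x1 : exp (300 * (T * ε)) ≤ 2 := exp_le_two (by linarith)
    have x2 : 1 / 2 ≤ exp (-(300 * (T * ε))) := by linarith [add_one_le_exp (-(300 * (T * ε)))]
    refine grid_bound (Reg.per_a sT.reg sT.per) (half_pos d0)
      ((m1 δ ω d0 d1 md).mono (by nlinarith) (by nlinarith)) fun x hx => (hf x hx).trans ?_
    have e : 40 * (((2 ^ T : ℕ) : ℝ) * (2 * ε * q ^ 8)) * (4 * (2 * ε)) = 640 * ε * q ^ 7 * ε := by
      linear_combination 640 * ε * ε * q ^ 7 * qM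
    have : 640 * ε * q ^ 7 ≤ 1 / 100 := by nlinarith [qp 6, pow_pos q0 7]
    rw [e]
    nlinarith
  have dG : ∀ x, |G x - x| ≤ D + 33 * (T * ε) := fun x => by
    have a := abs_le.1 (d2 _ le_rfl x)
    have b := abs_le.1 (dK (G x))
    rw [eK, Equiv.Perm.mul_apply] at a
    rw [abs_le]
    constructor <;> linarith
  have d3 : ∀ t ≤ T, ∀ x, |run K0 t x - x| ≤ 65 * (T * ε) := fun t ht x => by
    have : (t : ℝ) ≤ T := by exact_mod_cast ht
    linarith [run_disp b1 b3 b4 (f.conj_disp dK) t ht x, mul_le_mul_of_nonneg_right this ε0.le]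
  have sG : ∀ e, 2 * ε ≤ e → e ≤ 1 / 10 → Sm G e e := fun e u v =>
    ⟨LG.reg, pG, fun x => (LG.hp x).trans u, fun x => (LG.hn x).trans (by linarith), v⟩
  have T0 : (0 : ℝ) < T := by linarith
  have i1 : 0 < 1 / (T : ℝ) := by positivity
  have i2 : 0 < 1 / (T : ℝ) ^ 2 := by positivity
  have B0 : Br F F 0 (C * (3 * (32 * ε) + 1 / T)) (C * (3 * (32 * ε) + 1 / T ^ 2)) :=
    br_refl ⟨rF, fun x => ⟨(sF.hp x).trans (by nlinarith), (nF x).trans (by nlinarith),
      (hD x).trans (by linarith)⟩⟩ pF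
  have B1 := br_run C1 hC T0 e3 (E := F) (F := run F) (n := 8 * T)
    (fun t ht => ⟨(run_sm sF a1 a2 t ht).reg, (run_sm sF a1 a2 t ht).per⟩) (fun t ht => by
      have := ((run_sm sF a1 a2 t ht.le).mono (μ' := 32 * ε) (ε' := 32 * ε) (by linarith)
        (by linarith) (by linarith)).half_link (G := 1) (D' := 0)
        (sm_of_nl IsReg.one (fun _ => rfl) (fun x => by rw [nl_one, abs_zero]; linarith)
          (by linarith)) (d2 t ht.le) (fun x => by simp) (by linarith) ((1 / 2) ^ (t + 1))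
      rwa [mul_one, mul_one] at this) le_rfl B0
  have B2 := (hC (3 * (32 * ε)) 0 C _ _ (f.conj_link (sK.mono le_rfl (by linarith) sK.small)
    (sG _ (by linarith) (by linarith)) (fun x => (dK x).trans (by linarith))
    (fun x => (dG x).trans (by linarith)) (by linarith)) le_rfl zero_le_one e3 le_rfl).mono le_rfl
    (μ' := C * (3 * (32 * ε) + 1 / T)) (ν' := C * (3 * (32 * ε) + 1 / T ^ 2))
    (by rw [zero_div]; nlinarith) (by rw [zero_div]; nlinarith)
  rw [eK] at B1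
  have B3 := br_run C1 hC T0 e3 (E := F) (F := fun t => run K0 t * G) (n := T)
    (fun t ht => ⟨(run_sm b1 b3 b4 t ht).reg.mul LG.reg, (run_sm b1 b3 b4 t ht).per.mul pG⟩)
    (fun t ht => ((run_sm b1 b3 b4 t ht.le).mono (μ' := 32 * ε) (ε' := 32 * ε) (by linarith)
      (by linarith) (by linarith)).half_link (sG _ (by linarith) (by linarith)) (d3 t ht.le) dG
      (by linarith) ((1 / 2) ^ (t + 1))) (by positivity)
    (B1.trans B2 (sK.reg.mul LG.reg) (sK.per.mul pG) (by positivity) (by positivity))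
  refine ⟨run K0 T * G, B3.mono ?_ (by nlinarith) (by nlinarith), sT.reg.mul LG.reg,
    sT.per.mul pG, fun x => ?_, fun x => ?_, ?_⟩
  · push_cast
    nlinarith
  · have w0 := md.nonneg d0.le
    have : |nl (run K0 T) (G x) * exp (ph G x)| ≤ (ε / 10 + 2 * ω) * (3 / 2) := by
      rw [abs_mul, abs_of_pos (exp_pos _)]
      refine mul_le_mul (n1 _) ?_ (exp_pos _).le (by positivity)
      linarith [(abs_le.1 (abs_exp_sub_one (LG.hp x) (by linarith))).2]
    rw [sT.reg.nl_mul LG.reg]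
    linarith [abs_add_le (nl (run K0 T) (G x) * exp (ph G x)) (nl G x), LG.hn x]
  · have a := abs_le.1 (d3 T le_rfl (G x))
    have b := abs_le.1 (dG x)
    rw [Equiv.Perm.mul_apply, abs_le]
    constructor <;> linarith
  · have u := LG.md_right (h := q ^ 8) sT.reg (fun x => (sT.hn x).trans (by linarith)) (by linarith)
    rw [div_mul_cancel₀ _ h0.ne', ← hh] at u
    exact (m1.trans u (by positivity) (by positivity)).mono le_rfl (by linarith)

end Pool.Agent.P.MP_0354a7_al
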