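import Pool.Agent.P.MP_0354a7_al.Defs

/-!
Reduction of the general statement to the statement for small periodic maps.
-/

namespace Pool.Agent.P.MP_0354a7_al

open Real

namespace Red

/-- The scales of the statement for small periodic maps. -/
noncomputable def dl (k : ℕ) : ℝ := (1 / 2) ^ (2 ^ (2 ^ k))

theorem half_pow_le {m n : ℕ} (h : m ≤ n) : (1 / 2 : ℝ) ^ n ≤ (1 / 2) ^ m :=
  pow_le_pow_of_le_one (by norm_num) (by norm_num) h

theorem small (K : ℝ) : ∃ m₁ : ℕ, ∀ m, m₁ ≤ m → K * (1 / 2 : ℝ) ^ m ≤ 1 := by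
  obtain ⟨m₁, h⟩ := exists_pow_lt_of_lt_one (show (0 : ℝ) < 1 / (|K| + 1) by positivity)
    (show (1 / 2 : ℝ) < 1 by norm_num)
  refine ⟨m₁, fun m hm => ?_⟩
  have a1 := (half_pow_le hm).trans h.le
  have a2 : (0 : ℝ) ≤ (1 / 2) ^ m := by positivity
  rw [le_div_iff₀ (by positivity)] at a1
  nlinarith [le_abs_self K]

theorem dl_le (k : ℕ) : dl k ≤ (1 / 2) ^ (2 ^ k) := half_pow_le Nat.lt_two_pow_self.le

theorem dl_le' (k : ℕ) : dl k ≤ (1 / 2) ^ k :=
  (dl_le k).trans (half_pow_le Nat.lt_two_pow_self.le)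

theorem dl_pos (k : ℕ) : 0 < dl k := by unfold dl; positivity

theorem dl_small (K : ℝ) (hK : 0 ≤ K) : ∃ k₁ : ℕ, ∀ k, k₁ ≤ k → K * dl k ≤ 1 / 4 := by
  obtain ⟨m₁, h⟩ := small (4 * K)
  refine ⟨m₁, fun k hk => ?_⟩
  have := h k hk
  nlinarith [dl_le' k]

/-- The condensed form of the hypothesis on the modulus of continuity. -/
theorem condense {a : ℝ → ℝ} {w : ℕ → ℝ} (hw : Summable w)
    (hm : ∀ (m : ℕ) (x y : ℝ), |x - y| ≤ (1 / 2) ^ (2 ^ m) → |a x - a y| ≤ w m) :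
    ∃ u : ℕ → ℝ, Summable (fun k : ℕ => 2 ^ k * u k) ∧ (∀ k, dl k ≤ u k) ∧
      ∀ K : ℝ, 0 ≤ K → ∃ k₁ : ℕ, ∀ k, k₁ ≤ k → Md a (K * dl k) (u k) := by
  let wt : ℕ → ℝ := fun m => (Finset.range (m + 1)).inf' Finset.nonempty_range_add_one w
  have md : ∀ (m : ℕ) (x y : ℝ), |x - y| ≤ (1 / 2) ^ (2 ^ m) → |a x - a y| ≤ wt m := by
    intro m x y h
    refine Finset.le_inf' _ _ fun i hi => hm i x y (h.trans (half_pow_le ?_))
    exact Nat.pow_le_pow_right (by norm_num) (Nat.lt_succ_iff.1 (Finset.mem_range.1 hi))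
  have w0 : ∀ m, 0 ≤ wt m := fun m => by
    have := md m 0 0 (by rw [sub_self, abs_zero]; positivity)
    exact (abs_nonneg _).trans this
  have wle : ∀ m, wt m ≤ w m := fun m => Finset.inf'_le _ (Finset.self_mem_range_succ m)
  have anti : ∀ m n, m ≤ n → wt n ≤ wt m := fun m n h =>
    Finset.le_inf' _ _ fun i hi => Finset.inf'_le _
      (Finset.mem_range.2 (by have := Finset.mem_range.1 hi; omega))
  have sw : Summable wt := Summable.of_nonneg_of_le w0 wle hw
  let v : ℕ → ℝ := fun m => wt (m - 1) + (1 / 2) ^ m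
  have sv : Summable v := by
    refine Summable.add ?_ summable_geometric_two
    rw [← summable_nat_add_iff 1]
    simpa using sw
  have v0 : ∀ m, 0 ≤ v m := fun m => add_nonneg (w0 _) (by positivity)
  refine ⟨fun k => v (2 ^ k), ?_, fun k => ?_, fun K hK => ?_⟩
  · refine (summable_condensed_iff_of_nonneg v0 fun m n _ h => ?_).2 sv
    exact add_le_add (anti _ _ (by omega)) (half_pow_le h)
  · exact (dl_le k).trans (le_add_of_nonneg_left (w0 _))
  · obtain ⟨m₁, h⟩ := small K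
    refine ⟨m₁, fun k hk x y hxy => ?_⟩
    have k1 : k < 2 ^ k := Nat.lt_two_pow_self
    obtain ⟨m, hm2⟩ : ∃ m, 2 ^ k = m + 1 := ⟨2 ^ k - 1, by omega⟩
    have k2 : m < 2 ^ m := Nat.lt_two_pow_self
    have e : dl k = (1 / 2) ^ (2 ^ m) * (1 / 2) ^ (2 ^ m) := by
      rw [dl, hm2, pow_succ, ← pow_add]
      congr 1
      ring
    have b := h (2 ^ m) (by omega)
    have c : (0 : ℝ) ≤ (1 / 2) ^ (2 ^ m) := by positivity
    have := md m x y (hxy.trans (by rw [e]; nlinarith))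
    refine this.trans ?_
    show wt m ≤ wt (2 ^ k - 1) + (1 / 2) ^ (2 ^ k)
    rw [show 2 ^ k - 1 = m by omega]
    exact le_add_of_nonneg_right (by positivity)

/-- A map `x + p x` with `p` bounded and positive derivative is a diffeomorphism. -/
theorem exists_perm' {p p1 p2 : ℝ → ℝ} {M : ℝ} (h1 : ∀ x, HasDerivAt p (p1 x) x)
    (h2 : ∀ x, HasDerivAt p1 (p2 x) x) (hc : Continuous p2) (pos : ∀ x, 0 < 1 + p1 x)
    (hb : ∀ x, |p x| ≤ M) :
    ∃ e : Equiv.Perm ℝ, (∀ x, e x = x + p x) ∧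
      Reg e (fun x => log (1 + p1 x)) (fun x => p2 x / (1 + p1 x)) := by
  have d : ∀ x, HasDerivAt (fun y => y + p y) (1 + p1 x) x := fun x => (hasDerivAt_id x).add (h1 x)
  have sm : StrictMono fun y => y + p y := strictMono_of_hasDerivAt_pos d pos
  have ct : Continuous fun y => y + p y := continuous_iff_continuousAt.2 fun x => (d x).continuousAt
  have sj : Function.Surjective fun y => y + p y := by
    intro c
    exact intermediate_value_univ (c - M) (c + M) ct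
      ⟨by linarith [(abs_le.1 (hb (c - M))).2], by linarith [(abs_le.1 (hb (c + M))).1]⟩
  refine ⟨Equiv.ofBijective _ ⟨sm.injective, sj⟩, fun x => rfl, fun x => ?_, fun x => ?_, ?_⟩
  · rw [exp_log (pos x)]
    exact d x
  · exact ((h2 x).const_add 1).log (pos x).ne'
  · exact hc.div (continuous_const.add (continuous_iff_continuousAt.2 fun x => (h2 x).continuousAt))
      fun x => (pos x).ne'

/-- `p` vanishes outside the open interval from `-3/4` to `-1/4`. -/
def Van (p : ℝ → ℝ) : Prop := ∀ x, x ≤ -3 / 4 ∨ -1 / 4 ≤ x → p x = 0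

theorem Van.bound {p : ℝ → ℝ} (h : Van p) (hc : Continuous p) : ∃ M : ℝ, ∀ x, |p x| ≤ M := by
  obtain ⟨M, hM⟩ := (isCompact_Icc (a := (-1 : ℝ)) (b := 0)).exists_bound_of_continuousOn
    hc.continuousOn
  refine ⟨M, fun x => ?_⟩
  by_cases c : x ≤ -3 / 4 ∨ -1 / 4 ≤ x
  · have := hM 0 ⟨by norm_num, le_rfl⟩
    rw [h 0 (Or.inr (by norm_num))] at this
    rw [h x c]
    exact this
  · push Not at c
    exact hM x ⟨by linarith [c.1], by linarith [c.2]⟩

/-- The periodic extension of the restriction to the interval from `-1` to `0`. -/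
noncomputable def per (p : ℝ → ℝ) (x : ℝ) : ℝ := p (x - ⌊x⌋ - 1)

theorem per_add_one (p : ℝ → ℝ) (x : ℝ) : per p (x + 1) = per p x := by
  simp only [per, Int.floor_add_one]
  congr 1
  push_cast
  ring

theorem per_loc {p : ℝ → ℝ} (h : Van p) {x y : ℝ} (hxy : |y - x| ≤ 1 / 4) :
    per p y = p (y - ⌊x⌋ - 1) := by
  have a1 := Int.floor_le x
  have a2 := Int.lt_floor_add_one x
  have b := abs_le.1 hxy
  rcases lt_or_ge y ⌊x⌋ with c | c
  · have e : ⌊y⌋ = ⌊x⌋ - 1 := by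
      rw [Int.floor_eq_iff]
      push_cast
      constructor <;> linarith [b.1]
    rw [per, e, h, h]
    · left; linarith
    · right; push_cast; linarith [b.1]
  rcases lt_or_ge y (⌊x⌋ + 1) with c' | c'
  · have e : ⌊y⌋ = ⌊x⌋ := by
      rw [Int.floor_eq_iff]
      exact ⟨c, c'⟩
    rw [per, e]
  · have e : ⌊y⌋ = ⌊x⌋ + 1 := by
      rw [Int.floor_eq_iff]
      push_cast
      constructor <;> linarith [b.2]
    rw [per, e, h, h]
    · right; linarith
    · left; push_cast; linarith [b.2]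

theorem per_ev {p : ℝ → ℝ} (h : Van p) (x : ℝ) :
    per p =ᶠ[nhds x] fun y => p (y - (⌊x⌋ + 1)) := by
  filter_upwards [Metric.closedBall_mem_nhds x (show (0 : ℝ) < 1 / 4 by norm_num)] with y hy
  rw [per_loc h (x := x) (by simpa [Real.dist_eq] using hy), sub_sub]

theorem per_deriv {p p1 : ℝ → ℝ} (h : Van p) (h1 : ∀ x, HasDerivAt p (p1 x) x) (x : ℝ) :
    HasDerivAt (per p) (per p1 x) x := by
  refine HasDerivAt.congr_of_eventuallyEq ?_ (per_ev h x)
  rw [per, sub_sub]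
  exact HasDerivAt.comp_sub_const x _ (h1 _)

theorem per_cont {p : ℝ → ℝ} (h : Van p) (hc : Continuous p) : Continuous (per p) :=
  continuous_iff_continuousAt.2 fun x =>
    ContinuousAt.congr (by fun_prop) (per_ev h x).symm

theorem per_zero {p : ℝ → ℝ} (h : Van p) {x : ℝ} (hx : |x| ≤ 1 / 4) : per p x = 0 := by
  rw [per_loc h (x := 0) (by simpa using hx), h]
  left
  have := (abs_le.1 hx).2
  simp only [Int.floor_zero, Int.cast_zero]
  linarith

theorem per_eq {p : ℝ → ℝ} (h : Van p) {x : ℝ} (h1 : -1 ≤ x) (h2 : x ≤ 0) : per p x = p x := by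
  rcases eq_or_lt_of_le h2 with rfl | c
  · rw [per_zero h (by norm_num), h 0 (Or.inr (by norm_num))]
  · have e : ⌊x⌋ = -1 := by
      rw [Int.floor_eq_iff]
      push_cast
      constructor <;> linarith
    rw [per, e]
    congr 1
    push_cast
    ring

theorem per_md {p : ℝ → ℝ} (h : Van p) {δ ω : ℝ} (hδ : δ ≤ 1 / 4) (hm : Md p δ ω) :
    Md (per p) δ ω := by
  intro x y hxy
  rw [per_loc h (x := y) (hxy.trans hδ), per]
  apply hm
  rwa [show x - ⌊y⌋ - 1 - (y - ⌊y⌋ - 1) = x - y by ring]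

theorem mul_osc {a a' b b' A B : ℝ} (ha : |a'| ≤ A) (hb : |b| ≤ B) :
    |a * b - a' * b'| ≤ |a - a'| * B + A * |b - b'| := by
  rw [show a * b - a' * b' = (a - a') * b + a' * (b - b') by ring]
  refine (abs_add_le _ _).trans (add_le_add ?_ ?_)
  · rw [abs_mul]
    exact mul_le_mul_of_nonneg_left hb (abs_nonneg _)
  · rw [abs_mul]
    exact mul_le_mul_of_nonneg_right ha (abs_nonneg _)

/-- One step of the fragmentation. -/
theorem step (core : Core) {p p1 p2 : ℝ → ℝ} (h1 : ∀ x, HasDerivAt p (p1 x) x)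
    (h2 : ∀ x, HasDerivAt p1 (p2 x) x) (hc : Continuous p2) (pos : ∀ x, 0 < 1 + p1 x)
    (v0 : Van p) (v1 : Van p1) (v2 : Van p2) {u : ℕ → ℝ}
    (hu : Summable fun k : ℕ => 2 ^ k * u k) (hd : ∀ k, dl k ≤ u k)
    (hm : ∀ K : ℝ, 0 ≤ K → ∃ k₁ : ℕ, ∀ k, k₁ ≤ k → Md p2 (K * dl k) (u k)) :
    ∃ η : ℝ, 0 < η ∧ ∀ s s' : ℝ, 0 ≤ s → s ≤ 1 → 0 ≤ s' → s' ≤ 1 → |s' - s| ≤ η →
      ∀ e e' : Equiv.Perm ℝ, (∀ x, e x = x + s * p x) → (∀ x, e' x = x + s' * p x) →
        e' * e⁻¹ ∈ Comm := by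
  have c0 : Continuous p := continuous_iff_continuousAt.2 fun x => (h1 x).continuousAt
  have c1 : Continuous p1 := continuous_iff_continuousAt.2 fun x => (h2 x).continuousAt
  obtain ⟨M0, b0⟩ := v0.bound c0
  obtain ⟨M, b2⟩ := v2.bound hc
  have M0' : 0 ≤ M := (abs_nonneg _).trans (b2 0)
  obtain ⟨ρ, r1, br⟩ : ∃ ρ : ℝ, 1 ≤ ρ ∧ ∀ x, (1 + p1 x)⁻¹ ≤ ρ := by
    have vv : Van fun x => (1 + p1 x)⁻¹ - 1 := fun x hx => by simp [v1 x hx]
    obtain ⟨N, hN⟩ := vv.bound
      (((continuous_const.add c1).inv₀ fun x => (pos x).ne').sub continuous_const)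
    exact ⟨N + 1, by linarith [(abs_nonneg _).trans (hN 0)],
      fun x => by linarith [(abs_le.1 (hN x)).2]⟩
  have r0 : 0 < ρ := by linarith
  -- the periodic data
  have H1 := per_deriv v0 h1
  have H2 := per_deriv v1 h2
  have HC := per_cont v2 hc
  have B2 : ∀ x, |per p2 x| ≤ M := fun x => b2 _
  have low : ∀ s : ℝ, 0 ≤ s → s ≤ 1 → ∀ x, ρ⁻¹ ≤ 1 + s * per p1 x := by
    intro s s0 s1 x
    have a1 : ρ⁻¹ ≤ 1 + per p1 x := inv_le_of_inv_le₀ (pos _) (br _)
    have a2 : ρ⁻¹ ≤ 1 := inv_le_one_of_one_le₀ r1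
    nlinarith
  have ps : ∀ s : ℝ, 0 ≤ s → s ≤ 1 → ∀ x, 0 < 1 + s * per p1 x := fun s s0 s1 x =>
    (inv_pos.2 r0).trans_le (low s s0 s1 x)
  have rb : ∀ s : ℝ, 0 ≤ s → s ≤ 1 → ∀ x, |(1 + s * per p1 x)⁻¹| ≤ ρ := fun s s0 s1 x => by
    rw [abs_of_pos (inv_pos.2 (ps s s0 s1 x))]
    exact inv_le_of_inv_le₀ r0 (low s s0 s1 x)
  have rl : ∀ s : ℝ, 0 ≤ s → s ≤ 1 → ∀ x y,
      |(1 + s * per p1 x)⁻¹ - (1 + s * per p1 y)⁻¹| ≤ ρ ^ 2 * M * |x - y| := by
    intro s s0 s1 x y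
    have a1 := mvt_abs H2 B2 x y
    have e : (1 + s * per p1 x)⁻¹ - (1 + s * per p1 y)⁻¹ =
        -(s * (per p1 x - per p1 y) * (1 + s * per p1 x)⁻¹ * (1 + s * per p1 y)⁻¹) := by
      have := (ps s s0 s1 x).ne'
      have := (ps s s0 s1 y).ne'
      field_simp
      ring
    rw [e, abs_neg, abs_mul, abs_mul, abs_mul, abs_of_nonneg s0]
    calc s * |per p1 x - per p1 y| * |(1 + s * per p1 x)⁻¹| * |(1 + s * per p1 y)⁻¹|
        ≤ 1 * (M * |x - y|) * ρ * ρ := by
          gcongr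
          · exact rb s s0 s1 x
          · exact rb s s0 s1 y
      _ = ρ ^ 2 * M * |x - y| := by ring
  have ex : ∀ s : ℝ, 0 ≤ s → s ≤ 1 → ∃ F : Equiv.Perm ℝ, (∀ x, F x = x + s * per p x) ∧
      Reg F (fun x => log (1 + s * per p1 x)) (fun x => s * per p2 x / (1 + s * per p1 x)) := by
    intro s s0 s1
    refine exists_perm' (M := M0) (fun x => (H1 x).const_mul s) (fun x => (H2 x).const_mul s)
      (continuous_const.mul HC) (ps s s0 s1) fun x => ?_
    rw [abs_mul, abs_of_nonneg s0]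
    have := b0 (x - ⌊x⌋ - 1)
    have a : 0 ≤ |per p x| := abs_nonneg _
    exact (mul_le_of_le_one_left a s1).trans this
  obtain ⟨k₁, hk1⟩ := hm ρ r0.le
  obtain ⟨k₂, hk2⟩ := dl_small ρ r0.le
  obtain ⟨ε₀, e0, hcore⟩ := core (fun k => (ρ ^ 3 + 3 * M ^ 2 * ρ ^ 5) * u k) (max k₁ k₂)
    ((hu.mul_left (ρ ^ 3 + 3 * M ^ 2 * ρ ^ 5)).congr fun k => by ring)
  refine ⟨ε₀ / ((M + 1) * ρ ^ 3), by positivity, fun s s' s0 s1 t0 t1 hs e e' he he' => ?_⟩
  obtain ⟨F, hF, rF⟩ := ex s s0 s1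
  obtain ⟨F', hF', rF'⟩ := ex s' t0 t1
  have rG := rF'.mul rF.inv
  have nlG : ∀ x, nl (F' * F⁻¹) x = (s' - s) * (per p2 (F⁻¹ x) * ((1 + s * per p1 (F⁻¹ x))⁻¹ *
      ((1 + s * per p1 (F⁻¹ x))⁻¹ * (1 + s' * per p1 (F⁻¹ x))⁻¹))) := by
    intro x
    rw [rG.nl_eq]
    have a1 := ps s s0 s1 (F⁻¹ x)
    have a2 := ps s' t0 t1 (F⁻¹ x)
    simp only [exp_neg, exp_log a1]
    field_simp
    ring
  have lipF : ∀ x y, |F⁻¹ x - F⁻¹ y| ≤ ρ * |x - y| := by
    refine mvt_abs rF.inv.d1 fun x => ?_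
    simp only [exp_neg, exp_log (ps s s0 s1 (F⁻¹ x))]
    exact rb s s0 s1 _
  have r2 : ∀ y, |(1 + s * per p1 y)⁻¹ * (1 + s' * per p1 y)⁻¹| ≤ ρ ^ 2 := fun y => by
    rw [abs_mul, sq]
    exact mul_le_mul (rb s s0 s1 y) (rb s' t0 t1 y) (abs_nonneg _) r0.le
  have r3 : ∀ y, |(1 + s * per p1 y)⁻¹ * ((1 + s * per p1 y)⁻¹ * (1 + s' * per p1 y)⁻¹)| ≤
      ρ ^ 3 := fun y => by
    rw [abs_mul, show ρ ^ 3 = ρ * ρ ^ 2 by ring]
    exact mul_le_mul (rb s s0 s1 y) (r2 y) (abs_nonneg _) r0.le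
  have pF : Per F := fun x => by rw [hF, hF, per_add_one]; ring
  have pF' : Per F' := fun x => by rw [hF', hF', per_add_one]; ring
  have fix : ∀ x, |x| ≤ 1 / 4 → F x = x := fun x hx => by rw [hF, per_zero v0 hx]; ring
  refine hcore (F' * F⁻¹) _ rG.isReg (pF'.mul pF.inv) (fun x => ?_) (fun k hk x y hxy => ?_)
    (fun x hx => ?_) (fun x x1 x2 => ?_) (fun x hx => ?_)
  · rw [nlG, abs_mul, abs_mul]
    have a1 : |per p2 (F⁻¹ x)| ≤ M + 1 := (B2 _).trans (by linarith)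
    calc _ ≤ ε₀ / ((M + 1) * ρ ^ 3) * ((M + 1) * ρ ^ 3) := by
          gcongr
          exact r3 _
      _ = ε₀ := by field_simp
  · have hxy' : |F⁻¹ x - F⁻¹ y| ≤ ρ * dl k :=
      (lipF x y).trans (mul_le_mul_of_nonneg_left hxy r0.le)
    have a1 := per_md v2 (hk2 k (le_of_max_le_right hk)) (hk1 k (le_of_max_le_left hk)) _ _ hxy'
    rw [nlG, nlG, ← mul_sub, abs_mul]
    generalize F⁻¹ x = X at *
    generalize F⁻¹ y = Y at *
    have hD : ρ ^ 2 * M * |X - Y| ≤ ρ ^ 3 * M * u k := by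
      calc ρ ^ 2 * M * |X - Y| ≤ ρ ^ 2 * M * (ρ * u k) := by
            gcongr
            exact hxy'.trans (mul_le_mul_of_nonneg_left (hd k) r0.le)
        _ = ρ ^ 3 * M * u k := by ring
    have l1 := (rl s s0 s1 X Y).trans hD
    have l2 := (rl s' t0 t1 X Y).trans hD
    have o1 := mul_osc (a := (1 + s * per p1 X)⁻¹) (b' := (1 + s' * per p1 Y)⁻¹)
      (rb s s0 s1 Y) (rb s' t0 t1 X)
    have o2 := mul_osc (a := (1 + s * per p1 X)⁻¹)
      (b' := (1 + s * per p1 Y)⁻¹ * (1 + s' * per p1 Y)⁻¹) (rb s s0 s1 Y) (r2 X)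
    have o3 := mul_osc (a := per p2 X)
      (b' := (1 + s * per p1 Y)⁻¹ * ((1 + s * per p1 Y)⁻¹ * (1 + s' * per p1 Y)⁻¹)) (B2 Y) (r3 X)
    have q1 := o1.trans (add_le_add (mul_le_mul_of_nonneg_right l1 r0.le)
      (mul_le_mul_of_nonneg_left l2 r0.le))
    have q2 := o2.trans (add_le_add (mul_le_mul_of_nonneg_right l1 (by positivity))
      (mul_le_mul_of_nonneg_left q1 r0.le))
    have q3 := o3.trans (add_le_add (mul_le_mul_of_nonneg_right a1 (by positivity))
      (mul_le_mul_of_nonneg_left q2 M0'))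
    have s2 : |s' - s| ≤ 1 := by rw [abs_le]; constructor <;> linarith
    refine (mul_le_of_le_one_left (abs_nonneg _) s2).trans (q3.trans (le_of_eq ?_))
    ring
  · have a1 : F⁻¹ x = x := by
      apply F.injective
      rw [ap_inv, fix x hx]
    rw [Equiv.Perm.mul_apply, a1, hF', per_zero v0 hx]
    ring
  · have f0 : F 0 = 0 := fix 0 (by norm_num)
    have f1 : F (-1) = -1 := by
      have := pF (-1)
      rw [neg_add_cancel, f0] at this
      linarith
    have y1 : -1 ≤ F⁻¹ x := by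
      rw [← rF.strictMono.le_iff_le, ap_inv, f1]
      exact x1
    have y2 : F⁻¹ x ≤ 0 := by
      rw [← rF.strictMono.le_iff_le, ap_inv, f0]
      exact x2
    have a1 : e⁻¹ x = F⁻¹ x := by
      apply e.injective
      rw [ap_inv, he, ← per_eq v0 y1 y2, ← hF, ap_inv]
    rw [Equiv.Perm.mul_apply, Equiv.Perm.mul_apply, a1, he', hF', per_eq v0 y1 y2]
  · have z : p x = 0 := v0 x (by
      rcases hx with c | c
      · left; linarith
      · right; linarith)
    have a1 : e⁻¹ x = x := by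
      apply e.injective
      rw [ap_inv, he, z]
      ring
    rw [Equiv.Perm.mul_apply, a1, he', z]
    ring

/-- The statement for maps supported in the interval from `-3/4` to `-1/4`. -/
theorem frag (core : Core) {p p1 p2 : ℝ → ℝ} (h1 : ∀ x, HasDerivAt p (p1 x) x)
    (h2 : ∀ x, HasDerivAt p1 (p2 x) x) (hc : Continuous p2) (pos : ∀ x, 0 < 1 + p1 x)
    (v0 : Van p) (v1 : Van p1) (v2 : Van p2) {u : ℕ → ℝ}
    (hu : Summable fun k : ℕ => 2 ^ k * u k) (hd : ∀ k, dl k ≤ u k)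
    (hm : ∀ K : ℝ, 0 ≤ K → ∃ k₁ : ℕ, ∀ k, k₁ ≤ k → Md p2 (K * dl k) (u k))
    (f : Equiv.Perm ℝ) (hf : ∀ x, f x = x + p x) : f ∈ Comm := by
  obtain ⟨η, e0, hs⟩ := step core h1 h2 hc pos v0 v1 v2 hu hd hm
  obtain ⟨n, hn⟩ := exists_nat_one_div_lt e0
  have c0 : Continuous p := continuous_iff_continuousAt.2 fun x => (h1 x).continuousAt
  obtain ⟨M0, b0⟩ := v0.bound c0
  have n0 : (0 : ℝ) < n + 1 := by positivity
  have key : ∀ j : ℕ, j ≤ n + 1 → ∀ e : Equiv.Perm ℝ,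
      (∀ x, e x = x + (j / (n + 1) : ℝ) * p x) → e ∈ Comm := by
    intro j
    induction j with
    | zero =>
      intro _ e he
      have : e = 1 := Equiv.ext fun x => by simpa using he x
      rw [this]
      exact Comm.one_mem
    | succ j ih =>
      intro hj e' he'
      have j1 : ((j + 1 : ℕ) : ℝ) ≤ n + 1 := by exact_mod_cast hj
      have j2 : (j : ℝ) ≤ n + 1 := by push_cast at j1; linarith
      have s0 : (0 : ℝ) ≤ j / (n + 1) := by positivity
      have s1 : (j / (n + 1) : ℝ) ≤ 1 := (div_le_one n0).2 j2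
      obtain ⟨e, he, -⟩ := exists_perm' (M := M0) (fun x => (h1 x).const_mul (j / (n + 1) : ℝ))
        (fun x => (h2 x).const_mul (j / (n + 1) : ℝ)) (continuous_const.mul hc)
        (fun x => by
          rcases eq_or_lt_of_le s1 with c | c
          · rw [c, one_mul]
            exact pos x
          · nlinarith [mul_nonneg s0 (pos x).le])
        (fun x => by
          rw [abs_mul, abs_of_nonneg s0]
          exact (mul_le_of_le_one_left (abs_nonneg _) s1).trans (b0 x))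
      have g := hs _ _ s0 s1 (by positivity) ((div_le_one n0).2 j1) (by
        rw [← sub_div]
        push_cast
        rw [add_sub_cancel_left, abs_of_pos (by positivity)]
        exact hn.le) e e' he he'
      have := Comm.mul_mem g (ih (by omega) e he)
      rwa [inv_mul_cancel_right] at this
  refine key (n + 1) le_rfl f fun x => ?_
  push_cast
  rw [div_self n0.ne', one_mul, hf]

/-- An affine map. -/
noncomputable def aff (l : ℝ) (hl : l ≠ 0) : Equiv.Perm ℝ where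
  toFun x := l * (x + 1 / 2)
  invFun z := z / l - 1 / 2
  left_inv x := by field_simp; ring
  right_inv z := by field_simp; ring

theorem aff_ap (l : ℝ) (hl : l ≠ 0) (x : ℝ) : aff l hl x = l * (x + 1 / 2) := rfl

theorem aff_inv_ap (l : ℝ) (hl : l ≠ 0) (x : ℝ) : (aff l hl)⁻¹ x = x / l - 1 / 2 := rfl

theorem isD2_conj {l : ℝ} (hl : 0 < l) {a : Equiv.Perm ℝ} (ha : IsD2 a) :
    IsD2 (aff l hl.ne' * a * (aff l hl.ne')⁻¹) := by
  obtain ⟨a1, a2, R, a3⟩ := ha
  have c1 : ContDiff ℝ 2 fun x : ℝ => l * (x + 1 / 2) := by fun_prop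
  have c2 : ContDiff ℝ 2 fun x : ℝ => x / l - 1 / 2 := by fun_prop
  refine ⟨c1.comp (a1.comp c2), c1.comp (a2.comp c2), l * (R + 1 / 2), fun x hx => ?_⟩
  rw [Equiv.Perm.mul_apply, Equiv.Perm.mul_apply, a3, ap_inv]
  rw [aff_inv_ap]
  have b1 : R + 1 / 2 < |x / l| := by
    rw [abs_div, abs_of_pos hl, lt_div_iff₀ hl]
    linarith
  have b2 := abs_sub_abs_le_abs_sub (x / l) (1 / 2)
  rw [abs_of_pos (show (0 : ℝ) < 1 / 2 by norm_num)] at b2
  linarith

theorem comm_conj {l : ℝ} (hl : 0 < l) {g : Equiv.Perm ℝ} (hg : g ∈ Comm) :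
    aff l hl.ne' * g * (aff l hl.ne')⁻¹ ∈ Comm := by
  induction hg using Subgroup.closure_induction with
  | mem g hg =>
    obtain ⟨a, b, ha, hb, rfl⟩ := hg
    have := comm_mem (isD2_conj hl ha) (isD2_conj hl hb)
    convert this using 1
    group
  | one => simp
  | mul a b _ _ ha hb =>
    have := Comm.mul_mem ha hb
    convert this using 1
    group
  | inv a _ ha =>
    have := Comm.inv_mem ha
    convert this using 1
    group

end Red

open Red in
theorem reduction (core : Core) (f : Equiv.Perm ℝ) (hf : IsD2 f) (w : ℕ → ℝ) (hw : Summable w)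
    (hm : ∀ (m : ℕ) (x y : ℝ), |x - y| ≤ (1 / 2) ^ (2 ^ m) →
      |deriv (deriv f) x - deriv (deriv f) y| ≤ w m) : f ∈ Comm := by
  obtain ⟨f1, f2, R, f3⟩ := hf
  obtain ⟨u, hu, hd, hmd⟩ := condense hw hm
  have g1 : ContDiff ℝ 1 (deriv f) := by
    rw [show (2 : WithTop ℕ∞) = 1 + 1 by norm_num, contDiff_succ_iff_deriv] at f1
    exact f1.2.2
  have d1 : ∀ x, HasDerivAt f (deriv f x) x := fun x =>
    (f1.differentiable (by norm_num) x).hasDerivAt
  have d2 : ∀ x, HasDerivAt (deriv f) (deriv (deriv f) x) x := fun x =>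
    (g1.differentiable (by norm_num) x).hasDerivAt
  have c2 : Continuous (deriv (deriv f)) := g1.continuous_deriv le_rfl
  have op : ∀ x : ℝ, R < |x| → ∀ᶠ y in nhds x, R < |y| := fun x hx =>
    continuous_abs.continuousAt.eventually (lt_mem_nhds hx)
  have z1 : ∀ x : ℝ, R < |x| → deriv f x = 1 := fun x hx => by
    have : (f : ℝ → ℝ) =ᶠ[nhds x] id := (op x hx).mono fun y hy => f3 y hy
    rw [this.deriv_eq, deriv_id]
  have z2 : ∀ x : ℝ, R < |x| → deriv (deriv f) x = 0 := fun x hx => by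
    have : deriv f =ᶠ[nhds x] fun _ => 1 := (op x hx).mono fun y hy => z1 y hy
    rw [this.deriv_eq, deriv_const]
  have ne : ∀ x, deriv f x ≠ 0 := fun x h0 => by
    have a1 := (f2.differentiable (by norm_num) (f x)).hasDerivAt.comp x (d1 x)
    have a2 : (⇑f.symm ∘ ⇑f) = id := funext fun y => f.symm_apply_apply y
    rw [a2, h0, mul_zero] at a1
    exact one_ne_zero ((hasDerivAt_id x).unique a1)
  have pos : ∀ x, 0 < deriv f x := fun x => by
    by_contra c
    have big : R < |(|R| + 1)| := by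
      rw [abs_of_pos (by positivity)]
      linarith [le_abs_self R]
    obtain ⟨y, hy⟩ := intermediate_value_univ x (|R| + 1) g1.continuous
      (show (0 : ℝ) ∈ Set.Icc _ _ from ⟨not_lt.1 c, by rw [z1 _ big]; norm_num⟩)
    exact ne y hy
  obtain ⟨l, hl⟩ : ∃ l : ℝ, l = 4 * (|R| + 1) := ⟨_, rfl⟩
  have l1 : 1 ≤ l := by rw [hl]; linarith [abs_nonneg R]
  have l0 : 0 < l := by linarith
  have far : ∀ x : ℝ, x ≤ -3 / 4 ∨ -1 / 4 ≤ x → R < |l * (x + 1 / 2)| := fun x hx => by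
    have a : 1 / 4 ≤ |x + 1 / 2| := by
      rcases hx with c | c
      · exact le_abs.2 (Or.inr (by linarith))
      · exact le_abs.2 (Or.inl (by linarith))
    rw [abs_mul, abs_of_pos l0]
    nlinarith [le_abs_self R]
  have da : ∀ x : ℝ, HasDerivAt (fun y : ℝ => l * (y + 1 / 2)) l x := fun x => by
    have := ((hasDerivAt_id x).add_const (1 / 2)).const_mul l
    rw [mul_one] at this
    exact this
  have key : (aff l l0.ne')⁻¹ * f * aff l l0.ne' ∈ Comm := by
    refine frag core (p := fun x => f (l * (x + 1 / 2)) / l - 1 / 2 - x)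
      (p1 := fun x => deriv f (l * (x + 1 / 2)) - 1)
      (p2 := fun x => deriv (deriv f) (l * (x + 1 / 2)) * l) (u := fun k => l * u k)
      (fun x => ?_) (fun x => ?_) (by fun_prop) (fun x => ?_) (fun x hx => ?_) (fun x hx => ?_)
      (fun x hx => ?_) ((hu.mul_left l).congr fun k => by ring) (fun k => ?_) (fun K hK => ?_)
      _ fun x => ?_
    · have := ((((d1 _).comp x (da x)).div_const l).sub_const (1 / 2)).sub (hasDerivAt_id x)
      rw [mul_div_assoc, div_self l0.ne', mul_one] at this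
      exact this
    · exact ((d2 _).comp x (da x)).sub_const 1
    · linarith [pos (l * (x + 1 / 2))]
    · show f (l * (x + 1 / 2)) / l - 1 / 2 - x = 0
      rw [f3 _ (far x hx)]
      field_simp
      ring
    · show deriv f (l * (x + 1 / 2)) - 1 = 0
      rw [z1 _ (far x hx), sub_self]
    · show deriv (deriv f) (l * (x + 1 / 2)) * l = 0
      rw [z2 _ (far x hx), zero_mul]
    · nlinarith [hd k, dl_pos k]
    · obtain ⟨k₁, hk⟩ := hmd (l * K) (by positivity)
      refine ⟨k₁, fun k hk1 x y hxy => ?_⟩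
      have := hk k hk1 (l * (x + 1 / 2)) (l * (y + 1 / 2)) (by
        rw [show l * (x + 1 / 2) - l * (y + 1 / 2) = l * (x - y) by ring, abs_mul, abs_of_pos l0,
          mul_assoc]
        exact mul_le_mul_of_nonneg_left hxy l0.le)
      rw [← sub_mul, abs_mul, abs_of_pos l0, mul_comm]
      exact mul_le_mul_of_nonneg_left this l0.le
    · rw [Equiv.Perm.mul_apply, Equiv.Perm.mul_apply, aff_ap, aff_inv_ap]
      ring
  have := comm_conj l0 key
  convert this using 1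
  group

end Pool.Agent.P.MP_0354a7_al
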