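import Pool.Agent.P.MP_0354a7_al.Core
import Pool.Agent.P.MP_0354a7_al.Reduce

namespace Pool.Agent.P.MP_0354a7_al.LogDiniResult

/-- A compactly supported `C^2` diffeomorphism of the line whose second derivative has a modulus
of continuity that is summable along the scales `2^(-2^m)` is a finite product of commutators of
compactly supported `C^2` diffeomorphisms of the line. -/
theorem result :
    ∀ f : Equiv.Perm ℝ,
      (ContDiff ℝ 2 (⇑f) ∧ ContDiff ℝ 2 (⇑f.symm) ∧ ∃ R : ℝ, ∀ x : ℝ, R < |x| → f x = x) →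
      (∃ w : ℕ → ℝ, Summable w ∧ ∀ (m : ℕ) (x y : ℝ), |x - y| ≤ (1 / 2 : ℝ) ^ (2 ^ m) →
        |deriv (deriv (⇑f)) x - deriv (deriv (⇑f)) y| ≤ w m) →
      f ∈ Subgroup.closure {g : Equiv.Perm ℝ | ∃ a b : Equiv.Perm ℝ,
        (ContDiff ℝ 2 (⇑a) ∧ ContDiff ℝ 2 (⇑a.symm) ∧ ∃ R : ℝ, ∀ x : ℝ, R < |x| → a x = x) ∧
        (ContDiff ℝ 2 (⇑b) ∧ ContDiff ℝ 2 (⇑b.symm) ∧ ∃ R : ℝ, ∀ x : ℝ, R < |x| → b x = x) ∧
        g = a * b * a⁻¹ * b⁻¹} :=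
  fun f hf ⟨w, hw, hm⟩ => Pool.Agent.P.MP_0354a7_al.reduction Pool.Agent.P.MP_0354a7_al.core f hf w hw hm

end Pool.Agent.P.MP_0354a7_al.LogDiniResult
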