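import Pool.Agent.P.MP_0354a7_al.Step

/-!
Iterated halving steps with the translations `1/2, 1/4, ...`.
-/

namespace Pool.Agent.P.MP_0354a7_al

open Real Finset

/-- The map after `t` halving steps. -/
noncomputable def run (K : Equiv.Perm ℝ) : ℕ → Equiv.Perm ℝ
  | 0 => K
  | t + 1 => half ((1 / 2) ^ (t + 1)) (run K t)

/-- The points over which the nonlinearity is averaged. -/
noncomputable def leaf (K : Equiv.Perm ℝ) : ℕ → ℝ → ℕ → ℝ
  | 0, x, _ => x
  | t + 1, x, i => leaf K t (if i % 2 = 0 then x else psi ((1 / 2) ^ (t + 1)) (run K t) x) (i / 2)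

theorem Sm.half_link {K G : Equiv.Perm ℝ} {ε D D' : ℝ} (h : Sm K ε ε) (g : Sm G ε ε)
    (hD : ∀ x, |K x - x| ≤ D) (hD' : ∀ x, |G x - x| ≤ D') (h1 : D + D' ≤ 1) (τ : ℝ) :
    Link (3 * ε) τ (K * G) (half τ K * G) := by
  have e0 := h.eps0
  refine ⟨K * (mid K)⁻¹, mid K * G, tr τ, fun _ => 0, fun _ => 0, fun _ => 0, h.quot_reg,
    h.mid_reg.mul g.reg, h.quot_per, h.mid_per.mul g.per, by group, by rw [half]; group,
    fun x => by rw [tr_ap, add_zero], fun _ => rfl, fun x => hasDerivAt_const x 0,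
    fun x => hasDerivAt_const x 0, continuous_const, fun x => ?_⟩
  have z : |(0 : ℝ)| ≤ 3 * ε := by rw [abs_zero]; linarith
  refine ⟨z, z, z, by linarith [h.quot_nl x], ?_, by linarith [h.quot_disp x], ?_⟩
  · rw [h.mid_reg.nl_mul g.reg]
    have : |nl (mid K) (G x) * exp (ph G x)| ≤ ε * 2 := by
      rw [abs_mul, abs_of_pos (exp_pos _)]
      exact mul_le_mul (h.nl_mid_le _) (exp_le_two (by linarith [(abs_le.1 (g.hp x)).2, g.small]))
        (exp_pos _).le e0
    linarith [abs_add_le (nl (mid K) (G x) * exp (ph G x)) (nl G x), g.hn x]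
  · have a := abs_le.1 (h.mid_disp hD (G x))
    have b := abs_le.1 (hD' x)
    rw [Equiv.Perm.mul_apply, abs_le]
    constructor <;> linarith

section

variable {K K' : Equiv.Perm ℝ} {ε μ : ℝ} {n : ℕ}

theorem run_sm' (h : Sm K ε ε) (h1 : 20 * ε ≤ 1) (hn : 20 * n * ε ≤ 1) :
    ∀ t ≤ n, Sm (run K t) (2 * ε) (ε + 20 * t * ε ^ 2) := by
  have e0 := h.eps0
  intro t
  induction t with
  | zero => exact fun _ => h.mono (by linarith) (by simp) (by linarith)
  | succ t ih =>
    intro ht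
    have s := ih (by omega)
    have c : ((t : ℝ) + 1) ≤ n := by exact_mod_cast ht
    have c0 : (0 : ℝ) ≤ t := Nat.cast_nonneg t
    have c1 : 20 * ((t : ℝ) + 1) * ε ≤ 1 := by nlinarith
    have b : ∀ x, |nl (run K (t + 1)) x| ≤ ε + 20 * (t + 1 : ℕ) * ε ^ 2 := fun x => by
      refine (s.nl_half_le _ x).trans ?_
      push_cast
      have : 20 * t * ε ^ 2 ≤ ε := by nlinarith
      nlinarith [mul_le_mul_of_nonneg_left this e0]
    have b' : ε + 20 * (t + 1 : ℕ) * ε ^ 2 ≤ 2 * ε := by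
      push_cast
      nlinarith
    exact ⟨s.half_reg _, s.half_per _,
      fun x => (Reg.phi_le (s.half_reg _) (s.half_per _) b x).trans b', b, by linarith⟩

theorem run_sm (h : Sm K ε ε) (h1 : 20 * ε ≤ 1) (hn : 20 * n * ε ≤ 1) (t : ℕ) (ht : t ≤ n) :
    Sm (run K t) (2 * ε) (2 * ε) := by
  have c : (t : ℝ) ≤ n := by exact_mod_cast ht
  have e0 := h.eps0
  have c1 : 20 * (t : ℝ) * ε ≤ 1 := by nlinarith
  exact (run_sm' h h1 hn t ht).mono le_rfl (by nlinarith) (by linarith)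

theorem run_md (h : Sm K ε ε) (h1 : 20 * ε ≤ 1) (hn : 20 * n * ε ≤ 1) :
    ∀ t ≤ n, MdT (nl K) (nl (run K t)) 1 (12 * t * ε) := by
  intro t
  induction t with
  | zero => exact fun _ => by simpa [run] using MdT.refl (nl K) 1
  | succ t ih =>
    intro ht
    have := (ih (by omega)).trans ((run_sm h h1 hn t (by omega)).half_md ((1 / 2) ^ (t + 1)))
      zero_le_one (by have := h.eps0; positivity)
    refine this.mono le_rfl (le_of_eq ?_)
    push_cast
    ring

theorem run_disp (h : Sm K ε ε) (h1 : 20 * ε ≤ 1) (hn : 20 * n * ε ≤ 1) {D : ℝ}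
    (hD : ∀ x, |K x - x| ≤ D) : ∀ t ≤ n, ∀ x, |run K t x - x| ≤ D + 4 * t * ε := by
  intro t
  induction t with
  | zero => exact fun _ x => by simpa [run] using hD x
  | succ t ih =>
    intro ht x
    refine ((run_sm h h1 hn t (by omega)).half_disp (ih (by omega)) _ x).trans (le_of_eq ?_)
    push_cast
    ring

theorem run_osc (h : Sm K ε ε) (h1 : 20 * ε ≤ 1) (hn : 20 * n * ε ≤ 1) :
    ∀ t ≤ n, ∀ x, |ph (run K t) (x + (1 / 2) ^ t) - ph (run K t) x| ≤
      20 * t * ε ^ 2 * (1 / 2) ^ t := by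
  intro t
  induction t with
  | zero => exact fun _ x => by simp [run, Reg.per_phi h.reg h.per x]
  | succ t ih =>
    intro ht x
    refine ((run_sm h h1 hn t (by omega)).half_osc (τ := (1 / 2) ^ (t + 1)) (by positivity)
      (fun y => by
        rw [show 2 * (1 / 2 : ℝ) ^ (t + 1) = (1 / 2) ^ t by ring]
        exact ih (by omega) y) x).trans (le_of_eq ?_)
    push_cast
    ring

theorem run_mu (h : Sm K ε ε) (h1 : 20 * ε ≤ 1) (hn : 20 * n * ε ≤ 1) (hμ : ∀ x, |ph K x| ≤ μ)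
    (h2 : 2 ^ n * μ ≤ 1 / 10) : ∀ t ≤ n, Sm (run K t) (2 ^ t * μ) (2 * ε) := by
  have m0 : 0 ≤ μ := (abs_nonneg _).trans (hμ 0)
  have b : ∀ t ≤ n, 2 ^ t * μ ≤ 1 / 10 := fun t ht =>
    (mul_le_mul_of_nonneg_right (pow_le_pow_right₀ one_le_two ht) m0).trans h2
  intro t
  induction t with
  | zero =>
    intro ht
    have s := run_sm h h1 hn 0 ht
    exact ⟨s.reg, s.per, fun x => by simpa [run] using hμ x, s.hn, b 0 ht⟩
  | succ t ih =>
    intro ht
    have s := run_sm h h1 hn _ ht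
    exact ⟨s.reg, s.per, fun x => ((ih (by omega)).ph_half_le _ x).trans (le_of_eq (by ring)),
      s.hn, b _ ht⟩

theorem run_stab (h : Sm K ε ε) (h' : Sm K' ε ε) (h1 : 20 * ε ≤ 1) (hn : 20 * n * ε ≤ 1) {η : ℝ}
    (hd : ∀ x, |K x - K' x| ≤ η) : ∀ t ≤ n, ∀ x, |run K t x - run K' t x| ≤ 9 ^ t * η := by
  intro t
  induction t with
  | zero => exact fun _ x => by simpa [run] using hd x
  | succ t ih =>
    intro ht x
    exact ((run_sm h h1 hn t (by omega)).half_stab (run_sm h' h1 hn t (by omega)) (ih (by omega))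
      _ x).trans (le_of_eq (by ring))

theorem sum_two_mul (f : ℕ → ℝ) (m : ℕ) :
    ∑ i ∈ range (2 * m), f i = ∑ i ∈ range m, f (2 * i) + ∑ i ∈ range m, f (2 * i + 1) := by
  induction m with
  | zero => simp
  | succ m ih =>
    rw [show 2 * (m + 1) = 2 * m + 1 + 1 by ring, sum_range_succ, sum_range_succ, ih, sum_range_succ,
      sum_range_succ]
    ring

theorem leaf_avg (h : Sm K ε ε) (h1 : 20 * ε ≤ 1) (hn : 20 * n * ε ≤ 1) (hμ : ∀ x, |ph K x| ≤ μ)
    (h2 : 2 ^ n * μ ≤ 1 / 10) : ∀ t ≤ n, ∀ x,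
      |nl (run K t) x - (∑ i ∈ range (2 ^ t), nl K (leaf K t x i)) / 2 ^ t| ≤ 10 * 2 ^ t * μ * ε := by
  have m0 : 0 ≤ μ := (abs_nonneg _).trans (hμ 0)
  have e0 := h.eps0
  intro t
  induction t with
  | zero => exact fun _ x => by simp [run, leaf]; positivity
  | succ t ih =>
    intro ht x
    have a := abs_le.1 ((run_mu h h1 hn hμ h2 t (by omega)).nl_half_sub ((1 / 2) ^ (t + 1)) x)
    have b := abs_le.1 (ih (by omega) x)
    have c := abs_le.1 (ih (by omega) (psi ((1 / 2) ^ (t + 1)) (run K t) x))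
    have e : (∑ i ∈ range (2 ^ (t + 1)), nl K (leaf K (t + 1) x i)) / 2 ^ (t + 1) =
        ((∑ i ∈ range (2 ^ t), nl K (leaf K t x i)) / 2 ^ t +
        (∑ i ∈ range (2 ^ t), nl K (leaf K t (psi ((1 / 2) ^ (t + 1)) (run K t) x) i)) / 2 ^ t) / 2 := by
      rw [pow_succ' 2 t, sum_two_mul]
      have e1 : ∀ i, leaf K (t + 1) x (2 * i) = leaf K t x i := fun i => by
        rw [leaf, if_pos (by omega), show 2 * i / 2 = i by omega]
      have e2 : ∀ i, leaf K (t + 1) x (2 * i + 1) =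
          leaf K t (psi ((1 / 2) ^ (t + 1)) (run K t) x) i := fun i => by
        rw [leaf, if_neg (by omega), show (2 * i + 1) / 2 = i by omega]
      simp only [e1, e2]
      ring
    rw [e, run, abs_le, pow_succ (2 : ℝ) t]
    constructor <;> linarith

theorem leaf_pos (h : Sm K ε ε) (h1 : 20 * ε ≤ 1) (hn : 20 * n * ε ≤ 1) (hμ : ∀ x, |ph K x| ≤ μ)
    (h2 : 2 ^ n * μ ≤ 1 / 10) : ∀ t ≤ n, ∀ x, ∀ i < 2 ^ t,
      |leaf K t x i - (x + i / 2 ^ t)| ≤ t * μ := by
  have m0 : 0 ≤ μ := (abs_nonneg _).trans (hμ 0)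
  intro t
  induction t with
  | zero =>
    intro _ x i hi
    obtain rfl : i = 0 := by omega
    simp [leaf]
  | succ t ih =>
    intro ht x i hi
    have a := (run_mu h h1 hn hμ h2 t (by omega)).psi_pos ((1 / 2) ^ (t + 1)) x
    have e0 : 2 * (2 ^ t * μ) * |(1 / 2 : ℝ) ^ (t + 1)| = μ := by
      rw [abs_of_nonneg (by positivity), one_div, inv_pow]
      field_simp
      ring
    rw [e0, abs_le] at a
    have hi' : i / 2 < 2 ^ t := by omega
    rw [leaf]
    split_ifs with c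
    · have b := abs_le.1 (ih (by omega) x _ hi')
      have e : (i : ℝ) / 2 ^ (t + 1) = (i / 2 : ℕ) / 2 ^ t := by
        have : (i : ℝ) = 2 * (i / 2 : ℕ) := by exact_mod_cast (by omega : i = 2 * (i / 2))
        rw [this]
        field_simp
        ring
      rw [e, abs_le]
      push_cast
      constructor <;> linarith
    · have b := abs_le.1 (ih (by omega) (psi ((1 / 2) ^ (t + 1)) (run K t) x) _ hi')
      have e : (i : ℝ) / 2 ^ (t + 1) = (i / 2 : ℕ) / 2 ^ t + (1 / 2) ^ (t + 1) := by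
        have : (i : ℝ) = 2 * (i / 2 : ℕ) + 1 := by exact_mod_cast (by omega : i = 2 * (i / 2) + 1)
        rw [this, one_div, inv_pow]
        field_simp
        ring
      rw [e, abs_le]
      push_cast
      constructor <;> linarith

theorem leaf_lip (h : Sm K ε ε) (h1 : 20 * ε ≤ 1) (hn : 20 * n * ε ≤ 1) :
    ∀ t ≤ n, ∀ x y i, |leaf K t x i - leaf K t y i| ≤ 2 ^ t * |x - y| := by
  intro t
  induction t with
  | zero => exact fun _ x y i => by simp [leaf]
  | succ t ih =>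
    intro ht x y i
    have s := run_sm h h1 hn t (by omega)
    rw [leaf, leaf]
    refine (ih (by omega) _ _ _).trans ?_
    rw [pow_succ (2 : ℝ) t, mul_assoc]
    refine mul_le_mul_of_nonneg_left ?_ (by positivity)
    split_ifs
    · linarith [abs_nonneg (x - y)]
    · exact lip_two (s.psi_reg _) (fun z => by linarith [s.ph_psi_le ((1 / 2) ^ (t + 1)) z]) x y

theorem leaf_stab (h : Sm K ε ε) (h' : Sm K' ε ε) (h1 : 20 * ε ≤ 1) (hn : 20 * n * ε ≤ 1) {η : ℝ}
    (hd : ∀ x, |K x - K' x| ≤ η) :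
    ∀ t ≤ n, ∀ x i, |leaf K t x i - leaf K' t x i| ≤ 18 ^ t * η := by
  have η0 : 0 ≤ η := (abs_nonneg _).trans (hd 0)
  intro t
  induction t with
  | zero => exact fun _ x i => by simpa [leaf] using η0
  | succ t ih =>
    intro ht x i
    have a := (run_sm h h1 hn t (by omega)).psi_stab (run_sm h' h1 hn t (by omega))
      (run_stab h h' h1 hn hd t (by omega)) ((1 / 2) ^ (t + 1)) x
    have p : 0 ≤ 18 ^ t * η := by positivity
    rw [leaf, leaf, pow_succ (18 : ℝ) t]
    split_ifs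
    · linarith [ih (by omega) x (i / 2)]
    · have b := abs_le.1 ((leaf_lip h h1 hn t (by omega) _ _ (i / 2)).trans
        (mul_le_mul_of_nonneg_left a (by positivity)))
      have c := abs_le.1 (ih (by omega) (psi ((1 / 2) ^ (t + 1)) (run K' t) x) (i / 2))
      have e : (2 : ℝ) ^ t * (4 * (9 ^ t * η)) = 4 * (18 ^ t * η) := by
        rw [show (18 : ℝ) = 2 * 9 by norm_num, mul_pow]
        ring
      rw [e] at b
      rw [abs_le]
      constructor <;> linarith

end

end Pool.Agent.P.MP_0354a7_al
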