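import Pool.Agent.P.MP_0354a7_al.Window
import Pool.Agent.P.MP_0354a7_al.Run

/-!
Choice of a displacement field after which the dyadic averages of the nonlinearity are small.
-/

namespace Pool.Agent.P.MP_0354a7_al

open Real Finset

/-- Amplitudes on a grid. -/
noncomputable def amp {M n : ℕ} (g : ℝ) (σ : ZMod M → Fin n) (j : ℤ) : ℝ := g * (σ j : ℕ)

/-- The sum of two window fields. -/
noncomputable def fs (M : ℕ) (β β' : ℝ) (c c' : ℤ → ℝ) (y : ℝ) : ℝ :=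
  wf c0 M β c y + wf c0 M β' c' y

theorem amp_per {M n : ℕ} (g : ℝ) (σ : ZMod M → Fin n) (j : ℤ) : amp g σ (j + M) = amp g σ j := by
  simp [amp]

theorem amp_bd {M n : ℕ} {r : ℝ} (r0 : 0 < r) (σ : ZMod M → Fin n) (j : ℤ) :
    0 ≤ amp (r / n) σ j ∧ amp (r / n) σ j < r := by
  have a : ((σ j : ℕ) : ℝ) < n := by exact_mod_cast (σ j).2
  have b : (0 : ℝ) ≤ (σ j : ℕ) := Nat.cast_nonneg _
  have n0 : (0 : ℝ) < n := by linarith
  refine ⟨by rw [amp]; positivity, ?_⟩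
  rw [amp, div_mul_eq_mul_div, div_lt_iff₀ n0]
  exact mul_lt_mul_of_pos_left a r0

theorem amp_le {M n : ℕ} {r : ℝ} (r0 : 0 < r) (σ : ZMod M → Fin n) (j : ℤ) :
    |amp (r / n) σ j| ≤ r := by
  rw [abs_of_nonneg (amp_bd r0 σ j).1]
  exact (amp_bd r0 σ j).2.le

/-- The size conditions. -/
structure Par (K : Equiv.Perm ℝ) (T M : ℕ) (μ ε r κ : ℝ) : Prop where
  hM : M = 2 ^ T
  sm : Sm K μ ε
  disp : ∀ x, |K x - x| ≤ 2 * μ
  e1 : 40 * ε ≤ 1
  e2 : 40 * T * ε ≤ 1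
  k1 : 11 * κ ≤ ε
  k2 : 8192 * (M : ℝ) ^ 3 * r ≤ κ
  r0 : 0 < r
  m0 : μ ≤ ε
  m1 : 2 ^ 31 * (M : ℝ) ^ 6 * μ ≤ 1
  m2 : 2 ^ 25 * (M : ℝ) * μ ≤ r
  m3 : 2 ^ 14 * μ ≤ r * ε

namespace Par

variable {K : Equiv.Perm ℝ} {T M : ℕ} {μ ε r κ : ℝ}

theorem one_le (P : Par K T M μ ε r κ) : 1 ≤ M := by
  rw [P.hM]
  exact Nat.one_le_two_pow

theorem cast (P : Par K T M μ ε r κ) : (2 : ℝ) ^ T = M := by
  rw [P.hM]
  push_cast
  rfl

theorem le_M (P : Par K T M μ ε r κ) : (T : ℝ) ≤ M := by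
  rw [P.hM]
  exact_mod_cast Nat.lt_two_pow_self.le

theorem pow_le (P : Par K T M μ ε r κ) (i : ℕ) (hi : i ≤ 6) : 2 ^ 31 * ((M : ℝ) ^ i * μ) ≤ 1 := by
  have : (M : ℝ) ^ i ≤ M ^ 6 := pow_le_pow_right₀ (by exact_mod_cast P.one_le) hi
  nlinarith [P.m1, mul_le_mul_of_nonneg_right this P.sm.mu0]

theorem fld (P : Par K T M μ ε r κ) {c c' : ℤ → ℝ} (hc : ∀ j, |c j| ≤ r) (hc' : ∀ j, |c' j| ≤ r)
    (p : ∀ j, c (j + M) = c j) (p' : ∀ j, c' (j + M) = c' j) (β β' : ℝ) :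
    Fld (fs M β β' c c') (fun y => M * wf c1 M β c y + M * wf c1 M β' c' y)
      (fun y => M * (M * wf c2 M β c y) + M * (M * wf c2 M β' c' y))
      (fun y => M * (M * (M * wf c3 M β c y)) + M * (M * (M * wf c3 M β' c' y))) κ :=
  wf_fld hc hc' p p' P.one_le P.k2 (by linarith [P.k1, P.e1]) β β'

theorem conj (P : Par K T M μ ε r κ) {s s1 s2 s3 : ℝ → ℝ} (f : Fld s s1 s2 s3 κ) :
    Sm ((cj s)⁻¹ * K * cj s) (2 * ε) (2 * ε) ∧ (∀ x, |ph ((cj s)⁻¹ * K * cj s) x| ≤ 2 * μ) ∧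
      20 * (2 * ε) ≤ 1 ∧ 20 * T * (2 * ε) ≤ 1 ∧ 2 ^ T * (2 * μ) ≤ 1 / 10 := by
  have a := f.conj_sm P.sm (by linarith [P.e1]) (by linarith [P.e1, P.m0]) P.disp
  have b := P.pow_le 1 (by norm_num)
  refine ⟨a.mono (by linarith [P.m0]) (by linarith [P.k1]) (by linarith [P.e1]), a.hp,
    by linarith [P.e1], by linarith [P.e2], ?_⟩
  rw [P.cast]
  rw [pow_one] at b
  linarith

/-- The contribution of the active family at a leaf. -/
theorem act (P : Par K T M μ ε r κ) {x z β : ℝ} {i : ℕ} (hl : 1 / 4 ≤ c0 (M * x + β))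
    (hz : |z - (x + i / 2 ^ T)| ≤ T * (2 * μ)) :
    ⌊M * z + β⌋ = ⌊M * x + β⌋ + i ∧ |c0 (M * z + β) - c0 (M * x + β)| ≤ 32 * ((M : ℝ) ^ 2 * μ) := by
  have m0 : (0 : ℝ) < M := by exact_mod_cast P.one_le
  have a : |M * z + β - (M * x + β + i)| ≤ 2 * ((M : ℝ) ^ 2 * μ) := by
    have : M * z + β - (M * x + β + i) = M * (z - (x + i / 2 ^ T)) := by
      rw [P.cast]
      field_simp
      ring
    rw [this, abs_mul, abs_of_pos m0]
    nlinarith [mul_le_mul_of_nonneg_left (hz.trans (mul_le_mul_of_nonneg_right P.le_M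
      (by linarith [P.sm.mu0]))) m0.le]
  have b := P.pow_le 2 (by norm_num)
  refine ⟨?_, ?_⟩
  · rw [floor_near (t := M * x + β + i) (by rwa [c_add_nat]) (by linarith), Int.floor_add_natCast]
  · have := mvt_abs d_c0 (fun z => (c_bd z).2.1) (M * z + β) (M * x + β + i)
    rw [c_add_nat] at this
    linarith

theorem moment [NeZero M] (P : Par K T M μ ε r κ) {n : ℕ} (hn : 2 ^ 20 ≤ n) {c' : ℤ → ℝ}
    (hc' : ∀ j, |c' j| ≤ r) (p' : ∀ j, c' (j + M) = c' j) {β β' x : ℝ}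
    (hl : 1 / 4 ≤ c0 (M * x + β)) {φ b : ℝ → ℝ} (hφ : ∀ x, HasDerivAt φ (b x) x)
    (hb : ∀ x, |b x| ≤ ε) (hμ : ∀ x, |φ x| ≤ μ) (hm : Md b (r / n) (ε / 2 ^ 10)) (ε0 : 0 < ε) :
    ∑ σ : ZMod M → Fin n, exp (1 / (2 ^ 10 * ε) * ∑ i ∈ range M,
      b (cj (fs M β β' (amp (r / n) σ) c') (leaf ((cj (fs M β β' (amp (r / n) σ) c'))⁻¹ * K *
        cj (fs M β β' (amp (r / n) σ) c')) T x i))) ≤ (n * exp (7 / 2 ^ 20)) ^ M := by
  have r0 := P.r0
  have μ0 := P.sm.mu0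
  have m1 : (1 : ℝ) ≤ M := by exact_mod_cast P.one_le
  have n1 : (2 : ℝ) ^ 20 ≤ n := by exact_mod_cast hn
  have n0 : (0 : ℝ) < n := by linarith
  set g := r / n with hg
  have g0 : 0 < g := by positivity
  set l := c0 (M * x + β) with hl'
  have l1 : l ≤ 1 := le_of_abs_le (c_bd _).1
  have F := fun σ : ZMod M → Fin n => P.fld (amp_le r0 σ) hc' (amp_per g σ) p' β β'
  set z : (ZMod M → Fin n) → ℕ → ℝ := fun σ i =>
    leaf ((cj (fs M β β' (amp g σ) c'))⁻¹ * K * cj (fs M β β' (amp g σ) c')) T x i with hz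
  have z1 : ∀ σ, ∀ i < M, |z σ i - (x + i / 2 ^ T)| ≤ T * (2 * μ) := fun σ i hi => by
    obtain ⟨a1, a2, a3, a4, a5⟩ := P.conj (F σ)
    exact leaf_pos a1 a3 a4 a2 a5 T le_rfl x i (by rwa [← P.hM])
  have z2 : ∀ σ, ∀ i < M, |z σ i - (x + i / 2 ^ T)| ≤ 2 * (M * μ) := fun σ i hi => by
    linarith [z1 σ i hi, mul_le_mul_of_nonneg_right P.le_M μ0]
  have q1 : 32 * (M * r) ≤ 1 := by
    have : (M : ℝ) ^ 1 ≤ M ^ 3 := pow_le_pow_right₀ m1 (by norm_num)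
    nlinarith [P.k2, P.k1, P.e1, mul_le_mul_of_nonneg_right this r0.le]
  have q2 := P.pow_le 2 (by norm_num)
  have q6 := P.pow_le 6 le_rfl
  have q3 : 2 ^ 25 * (M * μ) ≤ r := by linarith [P.m2]
  set g' := g * l * (1 - 1 / 2 ^ 20) with hg'
  have g1 : g / 8 ≤ g' := by nlinarith
  have g2 : g' ≤ g := by nlinarith
  have g3 : 0 < g' := by linarith
  set N := ⌈(r * l + 8 * (M * μ)) / g'⌉₊ with hN
  have N1 : r * l + 8 * (M * μ) ≤ N * g' := by
    rw [← div_le_iff₀ g3]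
    exact Nat.le_ceil _
  have N2 : (N : ℝ) ≤ n * (1 + 4 / 2 ^ 20) := by
    have a := (Nat.ceil_lt_add_one (show 0 ≤ (r * l + 8 * (M * μ)) / g' by positivity)).le
    have c : (r * l + 8 * (M * μ)) / g' ≤ n * (1 + 3 / 2 ^ 20) := by
      rw [div_le_iff₀ g3]
      have : n * (1 + 3 / 2 ^ 20) * g' = r * l * ((1 + 3 / 2 ^ 20) * (1 - 1 / 2 ^ 20)) := by
        rw [hg', hg]
        field_simp
      rw [this]
      nlinarith
    linarith
  refine (count_bound (fun σ i => cj (fs M β β' (amp g σ) c') (z σ i))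
    (fun i => x + i / 2 ^ T + wf c0 M β' c' (x + i / 2 ^ T) - 4 * (M * μ)) (n := N) g3 hφ hb hμ
    (hm.mono g2 le_rfl) (by positivity) ?_ ?_ ?_).trans ?_
  · rw [div_mul_eq_mul_div, div_le_one (by positivity)]
    linarith
  · intro σ σ' hne
    obtain ⟨j, -, hj⟩ := exists_max_image univ
      (fun j : ZMod M => |((σ j : ℕ) : ℝ) - (σ' j : ℕ)|) univ_nonempty
    set Δ := |((σ j : ℕ) : ℝ) - (σ' j : ℕ)| with hΔ
    have Δ1 : 1 ≤ Δ := by
      obtain ⟨k, hk⟩ := Function.ne_iff.1 hne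
      refine le_trans ?_ (hj k (mem_univ _))
      have : ((σ k : ℕ) : ℤ) - (σ' k : ℕ) ≠ 0 := by
        have := Fin.val_ne_of_ne hk
        omega
      exact_mod_cast Int.one_le_abs this
    have d0 : ∀ k, |amp g σ k - amp g σ' k| ≤ g * Δ := fun k => by
      rw [amp, amp, ← mul_sub, abs_mul, abs_of_pos g0]
      exact mul_le_mul_of_nonneg_left (hj _ (mem_univ _)) g0.le
    have st := (F σ).conj_stab (F σ') P.sm P.disp (β := g * Δ * 1) (β₁ := M * (g * Δ * 16))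
      (fun y => by
        rw [fs, fs, add_sub_add_right_eq_sub, wf_sub]
        exact wf_le d0 (fun t => (c_bd t).1) M β y) (fun y => by
        rw [add_sub_add_right_eq_sub, ← mul_sub, wf_sub, abs_mul, abs_of_nonneg (by linarith)]
        exact mul_le_mul_of_nonneg_left (wf_le d0 (fun t => (c_bd t).2.1) M β y) (by linarith))
    set i := (j - (⌊M * x + β⌋ : ℤ)).val with hi
    have hi' : i < M := ZMod.val_lt _
    refine ⟨i, hi', ?_⟩
    obtain ⟨a1, -, a3, a4, -⟩ := P.conj (F σ)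
    have s1 : |z σ i - z σ' i| ≤ _ := leaf_stab a1 (P.conj (F σ')).1 a3 a4 st T le_rfl x i
    have s2 : (18 : ℝ) ^ T ≤ M ^ 5 := by
      rw [← P.cast, ← pow_mul, mul_comm, pow_mul]
      exact pow_le_pow_left₀ (by norm_num) (by norm_num) T
    have gΔ : 0 < g * Δ := by positivity
    have s3 : |z σ i - z σ' i| ≤ 136 * ((M : ℝ) ^ 6 * μ) * (g * Δ) := by
      refine (s1.trans (mul_le_mul_of_nonneg_right s2 (by positivity))).trans ?_
      have : (M : ℝ) ^ 5 * (8 * μ * (g * Δ * 1 + M * (g * Δ * 16))) =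
          (8 * (M ^ 5 * μ) + 128 * (M ^ 6 * μ)) * (g * Δ) := by ring
      rw [this]
      have : (M : ℝ) ^ 5 ≤ M ^ 6 := pow_le_pow_right₀ m1 (by norm_num)
      exact mul_le_mul_of_nonneg_right (by linarith [mul_le_mul_of_nonneg_right this μ0]) gΔ.le
    have s4 := abs_le.1 ((lip_two (F σ).spec.2.reg
      (fun y => ((F σ).spec.2.hp y).trans (F σ).spec.2.small) (z σ i) (z σ' i)).trans
        (mul_le_mul_of_nonneg_left s3 zero_le_two))
    obtain ⟨b1, b2⟩ := P.act hl (z1 σ' i hi')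
    have s5 : |cj (fs M β β' (amp g σ) c') (z σ' i) - cj (fs M β β' (amp g σ') c') (z σ' i)| =
        g * Δ * c0 (M * z σ' i + β) := by
      rw [(F σ).spec.1, (F σ').spec.1, add_sub_add_left_eq_sub, fs, fs, add_sub_add_right_eq_sub,
        wf, wf, ← sub_mul, b1, amp, amp, ← mul_sub, abs_mul, abs_mul, abs_of_pos g0,
        abs_of_nonneg (c0_nonneg _)]
      have : ((⌊M * x + β⌋ + i : ℤ) : ZMod M) = j := by
        rw [hi]
        push_cast
        rw [ZMod.natCast_zmod_val]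
        ring
      rw [this]
    have s6 := mul_le_mul_of_nonneg_left (abs_le.1 b2).1 gΔ.le
    have s7 : g' ≤ g' * Δ := by nlinarith
    have s8 : g' * Δ ≤ g * Δ * c0 (M * z σ' i + β) - 272 * ((M : ℝ) ^ 6 * μ) * (g * Δ) := by
      have : 1 / 2 ^ 20 * l - 32 * ((M : ℝ) ^ 2 * μ) - 272 * ((M : ℝ) ^ 6 * μ) ≥ 0 := by linarith
      have := mul_nonneg gΔ.le this
      rw [hg']
      linarith
    have s9 := abs_sub_abs_le_abs_sub
      (cj (fs M β β' (amp g σ) c') (z σ' i) - cj (fs M β β' (amp g σ') c') (z σ' i))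
      (cj (fs M β β' (amp g σ) c') (z σ' i) - cj (fs M β β' (amp g σ) c') (z σ i))
    have s10 : |cj (fs M β β' (amp g σ) c') (z σ' i) - cj (fs M β β' (amp g σ) c') (z σ i)| ≤
        272 * ((M : ℝ) ^ 6 * μ) * (g * Δ) := abs_le.2 ⟨by linarith [s4.2], by linarith [s4.1]⟩
    rw [s5, sub_sub_sub_cancel_left] at s9
    linarith
  · intro σ i hi
    obtain ⟨b1, b2⟩ := P.act hl (z1 σ i hi)
    have a := amp_bd r0 σ (⌊M * x + β⌋ + i)
    have w := mvt_abs (wf_deriv hc' d_c0 (fun k => (c_int k).1) (fun k => (c_int k).2.1) M β')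
      (C := 1 / 2) (fun y => by
        rw [abs_mul, abs_of_nonneg (by linarith)]
        linarith [mul_le_mul_of_nonneg_left (wf_le hc' (fun t => (c_bd t).2.1) M β' y)
          (show (0 : ℝ) ≤ M by linarith)]) (z σ i) (x + i / 2 ^ T)
    have w1 := abs_le.1 (w.trans (mul_le_mul_of_nonneg_left (z2 σ i hi) (by norm_num)))
    have w2 := abs_le.1 (z2 σ i hi)
    have w3 : |amp g σ (⌊M * x + β⌋ + i) * (c0 (M * z σ i + β) - l)| ≤ M * μ := by
      rw [abs_mul, abs_of_nonneg a.1]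
      have := mul_le_mul a.2.le b2 (abs_nonneg _) r0.le
      nlinarith [mul_le_mul_of_nonneg_right q1 (show 0 ≤ M * μ by positivity)]
    have w4 := abs_le.1 w3
    have w5 := mul_lt_mul_of_pos_right a.2 (show 0 < l by linarith)
    have w6 := mul_nonneg a.1 (show 0 ≤ l by linarith)
    have w7 : wf c0 M β (amp g σ) (z σ i) = amp g σ (⌊M * x + β⌋ + i) * c0 (M * z σ i + β) := by
      rw [wf, b1]
    rw [(F σ).spec.1, fs, w7]
    constructor <;> linarith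
  · refine pow_le_pow_left₀ (by positivity) ?_ M
    have e1 : 1 / (2 ^ 10 * ε) * (ε / 2 ^ 10) = 1 / 2 ^ 20 := by
      field_simp
    have e2 : (1 / (2 ^ 10 * ε) * ε) ^ 2 = 1 / 2 ^ 20 := by
      field_simp
    have e3 : 1 / (2 ^ 10 * ε) * (2 * μ / g') ≤ n * (1 / 2 ^ 20) := by
      have : 2 * μ / g' ≤ n * (ε / 2 ^ 10) := by
        rw [div_le_iff₀ g3]
        have a := mul_le_mul_of_nonneg_left g1 (show 0 ≤ n * (ε / 2 ^ 10) by positivity)
        have c : n * (ε / 2 ^ 10) * (g / 8) = r * ε / 2 ^ 13 := by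
          rw [hg]
          field_simp
          norm_num
        linarith [P.m3]
      refine (mul_le_mul_of_nonneg_left this (by positivity)).trans (le_of_eq ?_)
      rw [mul_left_comm, e1]
    rw [e1, e2, show (7 : ℝ) / 2 ^ 20 = 1 / 2 ^ 20 + 6 / 2 ^ 20 by norm_num, exp_add, mul_left_comm]
    refine mul_le_mul_of_nonneg_left ?_ (exp_pos _).le
    have x1 : 1 + 6 / 2 ^ 20 + (6 / 2 ^ 20) ^ 2 / 2 ≤ exp (6 / 2 ^ 20) :=
      quadratic_le_exp_of_nonneg (by norm_num)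
    nlinarith [mul_le_mul_of_nonneg_left x1 n0.le]

end Par

theorem exists_md {K : Equiv.Perm ℝ} (r : IsReg K) (p : Per K) {ξ : ℝ} (h : 0 < ξ) :
    ∃ δ : ℝ, 0 < δ ∧ Md (nl K) δ ξ := by
  obtain ⟨δ, d0, hd⟩ := Metric.uniformContinuousOn_iff_le.1
    ((isCompact_Icc (a := (-1 : ℝ)) (b := 2)).uniformContinuousOn_of_continuous
      r.cont.continuousOn) ξ h
  have pp : Function.Periodic (nl K) 1 := Reg.per_a r p
  refine ⟨min δ 1, lt_min d0 one_pos, fun x y hxy => ?_⟩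
  have a := abs_le.1 (hxy.trans (min_le_right _ _))
  have f1 := Int.floor_le x
  have f2 := Int.lt_floor_add_one x
  rw [← pp.sub_int_mul_eq ⌊x⌋ (x := x), ← pp.sub_int_mul_eq ⌊x⌋ (x := y), mul_one]
  refine hd _ ⟨by linarith, by linarith⟩ _ ⟨by linarith, by linarith⟩ ?_
  rw [Real.dist_eq, sub_sub_sub_cancel_right]
  exact hxy.trans (min_le_left _ _)

theorem Par.exists_field {K : Equiv.Perm ℝ} {T M : ℕ} {μ ε r κ : ℝ} (P : Par K T M μ ε r κ)
    (ε0 : 0 < ε) (X : Finset ℝ) (hX : 2 * (X.card : ℝ) ≤ exp (M / 2 ^ 20)) :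
    ∃ s s1 s2 s3 : ℝ → ℝ, Fld s s1 s2 s3 κ ∧ ∀ x ∈ X,
      |nl (run ((cj s)⁻¹ * K * cj s) T) x| ≤ ε / 128 + 11 * κ + 40 * (M * μ) * ε := by
  have : NeZero M := ⟨by have := P.one_le; omega⟩
  have r0 := P.r0
  have m0 : (0 : ℝ) < M := by exact_mod_cast P.one_le
  obtain ⟨δ, d0, hd⟩ := exists_md P.sm.reg P.sm.per (show 0 < ε / 2 ^ 10 by positivity)
  obtain ⟨n, hn, hn'⟩ : ∃ n : ℕ, 2 ^ 20 ≤ n ∧ r / n ≤ δ := by
    refine ⟨2 ^ 20 + ⌈r / δ⌉₊, by omega, ?_⟩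
    have := Nat.le_ceil (r / δ)
    rw [div_le_iff₀ d0] at this
    rw [div_le_iff₀ (by positivity)]
    push_cast
    nlinarith
  have hm := hd.mono hn' le_rfl
  set y : (ZMod M → Fin n) × (ZMod M → Fin n) → ℝ → ℕ → ℝ := fun σ x i =>
    cj (fs M 0 (1 / 2) (amp (r / n) σ.1) (amp (r / n) σ.2))
      (leaf ((cj (fs M 0 (1 / 2) (amp (r / n) σ.1) (amp (r / n) σ.2)))⁻¹ * K *
        cj (fs M 0 (1 / 2) (amp (r / n) σ.1) (amp (r / n) σ.2))) T x i) with hy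
  have key : ∀ (x : ℝ) (φ b : ℝ → ℝ), (∀ x, HasDerivAt φ (b x) x) → (∀ x, |b x| ≤ ε) →
      (∀ x, |φ x| ≤ μ) → Md b (r / n) (ε / 2 ^ 10) →
      ∑ σ, exp (1 / (2 ^ 10 * ε) * ∑ i ∈ range M, b (y σ x i)) ≤
        (n : ℝ) ^ M * (n * exp (7 / 2 ^ 20)) ^ M := by
    intro x φ b h1 h2 h3 h4
    have cd : ∀ v : ℝ, ∑ _σ : ZMod M → Fin n, v = (n : ℝ) ^ M * v := fun v => by
      rw [sum_const, card_univ, Fintype.card_fun, Fintype.card_fin, ZMod.card, nsmul_eq_mul]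
      push_cast
      rfl
    rw [← cd]
    rcases c0_max (M * x) with hl | hl
    · rw [Fintype.sum_prod_type_right]
      exact sum_le_sum fun σ _ => P.moment hn (amp_le r0 σ) (amp_per _ σ) hl h1 h2 h3 h4 ε0
    · rw [Fintype.sum_prod_type]
      refine sum_le_sum fun σ _ => ?_
      have sw : ∀ c c' : ℤ → ℝ, fs M 0 (1 / 2) c c' = fs M (1 / 2) 0 c' c := fun c c' =>
        funext fun t => add_comm _ _
      simp only [hy, sw]
      exact P.moment hn (amp_le r0 σ) (amp_per _ σ) hl h1 h2 h3 h4 ε0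
  have : Nonempty (Fin n) := ⟨⟨0, by omega⟩⟩
  obtain ⟨σ, -, hσ⟩ := exists_le_of_sum_le (s := univ) univ_nonempty
    (f := fun σ => ∑ x ∈ X, (exp (1 / (2 ^ 10 * ε) * ∑ i ∈ range M, nl K (y σ x i)) +
      exp (1 / (2 ^ 10 * ε) * ∑ i ∈ range M, -nl K (y σ x i))))
    (g := fun _ => 2 * (X.card : ℝ) * exp (7 / 2 ^ 20) ^ M) (by
      rw [sum_comm]
      refine (sum_le_sum fun x _ => ?_ : _ ≤ ∑ _x ∈ X, 2 * ((n : ℝ) ^ M *
        (n * exp (7 / 2 ^ 20)) ^ M)).trans (le_of_eq ?_)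
      · rw [sum_add_distrib]
        linarith [key x _ _ P.sm.reg.d2 P.sm.hn P.sm.hp hm,
          key x (fun t => -ph K t) (fun t => -nl K t) (fun t => (P.sm.reg.d2 t).neg)
            (fun t => by rw [abs_neg]; exact P.sm.hn t) (fun t => by rw [abs_neg]; exact P.sm.hp t)
            hm.neg]
      · rw [sum_const, sum_const, card_univ, Fintype.card_prod, Fintype.card_fun, Fintype.card_fin,
          ZMod.card, nsmul_eq_mul, nsmul_eq_mul, mul_pow]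
        push_cast
        ring)
  have F := P.fld (amp_le r0 σ.1) (amp_le r0 σ.2) (amp_per _ σ.1) (amp_per _ σ.2) 0 (1 / 2)
  refine ⟨_, _, _, _, F, fun x hx => ?_⟩
  have b0 := (single_le_sum (f := fun x => exp (1 / (2 ^ 10 * ε) * ∑ i ∈ range M, nl K (y σ x i)) +
      exp (1 / (2 ^ 10 * ε) * ∑ i ∈ range M, -nl K (y σ x i))) (fun _ _ => by positivity) hx).trans hσ
  have b1 : 2 * (X.card : ℝ) * exp (7 / 2 ^ 20) ^ M ≤ exp (1 / (2 ^ 10 * ε) * (M * (ε / 128))) := by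
    refine (mul_le_mul_of_nonneg_right hX (by positivity)).trans (le_of_eq ?_)
    rw [← exp_nat_mul, ← exp_add]
    congr 1
    field_simp
    ring
  have t : ∀ S : ℝ, exp (1 / (2 ^ 10 * ε) * S) ≤ exp (1 / (2 ^ 10 * ε) * (M * (ε / 128))) →
      S ≤ M * (ε / 128) := fun S h => le_of_mul_le_mul_left (exp_le_exp.1 h) (by positivity)
  have b2 := t _ (show exp (1 / (2 ^ 10 * ε) * ∑ i ∈ range M, nl K (y σ x i)) ≤ _ by
    linarith [exp_pos (1 / (2 ^ 10 * ε) * ∑ i ∈ range M, -nl K (y σ x i))])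
  have b3 := t _ (show exp (1 / (2 ^ 10 * ε) * ∑ i ∈ range M, -nl K (y σ x i)) ≤ _ by
    linarith [exp_pos (1 / (2 ^ 10 * ε) * ∑ i ∈ range M, nl K (y σ x i))])
  rw [sum_neg_distrib] at b3
  obtain ⟨a1, a2, a3, a4, a5⟩ := P.conj F
  have c1 := abs_le.1 (leaf_avg a1 a3 a4 a2 a5 T le_rfl x)
  rw [← P.hM, P.cast] at c1
  set K0 := (cj (fs M 0 (1 / 2) (amp (r / n) σ.1) (amp (r / n) σ.2)))⁻¹ * K *
    cj (fs M 0 (1 / 2) (amp (r / n) σ.1) (amp (r / n) σ.2)) with hK0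
  have c2 : |∑ i ∈ range M, nl K0 (leaf K0 T x i) - ∑ i ∈ range M, nl K (y σ x i)| ≤
      M * (11 * κ) := by
    rw [← sum_sub_distrib]
    refine (abs_sum_le_sum_abs _ _).trans ((sum_le_sum fun i _ =>
      F.conj_nl P.sm (by linarith [P.e1]) _).trans (le_of_eq ?_))
    rw [sum_const, card_range, nsmul_eq_mul]
  have c3 : |(∑ i ∈ range M, nl K0 (leaf K0 T x i)) / M| ≤ ε / 128 + 11 * κ := by
    rw [abs_div, abs_of_pos m0, div_le_iff₀ m0, abs_le]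
    constructor <;> linarith [(abs_le.1 c2).1, (abs_le.1 c2).2]
  rw [abs_le] at c3 ⊢
  constructor <;> linarith

end Pool.Agent.P.MP_0354a7_al
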