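import Pool.Agent.P.MP_0354a7_al.Step

/-!
Splitting off the slowly varying part, and conjugation by a small smooth map.
-/

namespace Pool.Agent.P.MP_0354a7_al

open Real

/-- A map with Lipschitz nonlinearity. -/
structure Lp (G : Equiv.Perm ℝ) (μ ν l : ℝ) : Prop where
  reg : IsReg G
  hp : ∀ x, |ph G x| ≤ μ
  hn : ∀ x, |nl G x| ≤ ν
  hl : ∀ x y, |nl G x - nl G y| ≤ l * |x - y|
  small : μ ≤ 1 / 2
  l0 : 0 ≤ l

theorem exp_ph_lip {G : Equiv.Perm ℝ} {ν : ℝ} (r : IsReg G) (hp : ∀ x, |ph G x| ≤ 1 / 2)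
    (hn : ∀ x, |nl G x| ≤ ν) (x y : ℝ) : |exp (ph G x) - exp (ph G y)| ≤ 2 * ν * |x - y| :=
  mvt_abs (fun z => (r.d2 z).exp) (fun z => by
    rw [abs_mul, abs_of_pos (exp_pos _)]
    exact mul_le_mul (exp_le_two (le_of_abs_le (hp z))) (hn z) (abs_nonneg _) zero_le_two) x y

theorem lip_comp_mul {g : ℝ → ℝ} {X : Equiv.Perm ℝ} {ν ν' l : ℝ} (r : IsReg X)
    (hp : ∀ x, |ph X x| ≤ 1 / 2) (hn : ∀ x, |nl X x| ≤ ν') (hg : ∀ x, |g x| ≤ ν)
    (hl : ∀ x y, |g x - g y| ≤ l * |x - y|) (l0 : 0 ≤ l) (x y : ℝ) :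
    |g (X x) * exp (ph X x) - g (X y) * exp (ph X y)| ≤ (4 * l + 2 * ν * ν') * |x - y| := by
  have e : g (X x) * exp (ph X x) - g (X y) * exp (ph X y) =
      (g (X x) - g (X y)) * exp (ph X x) + g (X y) * (exp (ph X x) - exp (ph X y)) := by ring
  have a1 := (hl (X x) (X y)).trans (mul_le_mul_of_nonneg_left (lip_two r hp x y) l0)
  have a2 := mul_le_mul a1 (exp_le_two (le_of_abs_le (hp x))) (exp_pos _).le
    ((abs_nonneg _).trans a1)
  have a3 := mul_le_mul (hg (X y)) (exp_ph_lip r hp hn x y) (abs_nonneg _)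
    ((abs_nonneg _).trans (hg 0))
  rw [e]
  refine (abs_add_le _ _).trans ?_
  rw [abs_mul, abs_mul, abs_of_pos (exp_pos _)]
  linarith

namespace Lp

variable {G K : Equiv.Perm ℝ} {μ ν l h : ℝ}

theorem inv (g : Lp G μ ν l) : Lp G⁻¹ μ (2 * ν) (4 * l + 4 * ν ^ 2) := by
  have n0 : 0 ≤ ν := (abs_nonneg _).trans (g.hn 0)
  have p : ∀ x, |ph G⁻¹ x| ≤ μ := fun x => by
    rw [g.reg.ph_inv, abs_neg]
    exact g.hp _
  have n : ∀ x, |nl G⁻¹ x| ≤ 2 * ν := fun x => by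
    rw [g.reg.nl_inv, abs_neg, abs_mul, abs_of_pos (exp_pos _), mul_comm 2]
    exact mul_le_mul (g.hn _) (exp_le_two (by linarith [(abs_le.1 (g.hp (G⁻¹ x))).1, g.small]))
      (exp_pos _).le n0
  refine ⟨g.reg.inv, p, n, fun x y => ?_, g.small, by have := g.l0; positivity⟩
  have := lip_comp_mul g.reg.inv (fun z => (p z).trans g.small) n g.hn g.hl g.l0 x y
  rw [g.reg.nl_inv, g.reg.nl_inv, ← g.reg.ph_inv, ← g.reg.ph_inv, ← neg_sub', abs_neg]
  refine this.trans (le_of_eq ?_)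
  ring

theorem md_right (g : Lp G μ ν l) (r : IsReg K) (hK : ∀ x, |nl K x| ≤ 1) (h1 : h ≤ 1) :
    MdT (nl K) (nl (K * G)) h (2 * μ + 2 * ν + l * h) := by
  intro δ ω d0 d1 q
  have n0 : 0 ≤ ν := (abs_nonneg _).trans (g.hn 0)
  have m0 : 0 ≤ μ := (abs_nonneg _).trans (g.hp 0)
  have w0 := q.nonneg d0.le
  have l0 := g.l0
  have h0 : 0 ≤ h := by
    by_contra c
    nlinarith [not_le.1 c]
  set c := 2 * μ + 2 * ν + l * h with hc
  have c0 : μ ≤ c := by nlinarith [mul_nonneg l0 h0]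
  have x1 : exp (-c) ≤ 1 := exp_le_one_iff.2 (by linarith)
  have dd : δ * exp (-c) ≤ h * ω := by nlinarith
  have m1 := q.comp_mul (c := fun x => exp (ph G x)) (ψ := G) (γ := 1 + 2 * μ) (Λ := exp μ)
    (δ' := δ * exp (-c)) hK (fun x => by
      rw [abs_of_pos (exp_pos _)]
      linarith [(abs_le.1 (abs_exp_sub_one (g.hp x) (by linarith [g.small]))).2])
    (exp_ph_lip g.reg (fun z => (g.hp z).trans g.small) g.hn) (Reg.lip g.reg g.hp) (by
      rw [mul_left_comm, ← exp_add]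
      have : exp (μ + -c) ≤ 1 := exp_le_one_iff.2 (by linarith)
      nlinarith) (exp_pos _).le (by linarith)
  refine ((m1.add (md_of_lip l0 g.hl)).congr fun x => by rw [r.nl_mul g.reg, mul_comm]).mono
    le_rfl ?_
  have x2 := mul_le_mul_of_nonneg_right (add_one_le_exp c) w0
  have x3 := mul_le_mul_of_nonneg_left dd l0
  have x4 := mul_le_mul_of_nonneg_left (dd.trans (show h * ω ≤ ω by nlinarith)) n0
  nlinarith

theorem md_left (g : Lp G μ ν l) (r : IsReg K) (hp : ∀ x, |ph K x| ≤ 1 / 2)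
    (hK : ∀ x, |nl K x| ≤ 1) (h1 : h ≤ 1) : MdT (nl K) (nl (G * K)) h (4 * l + 2 * ν) := by
  intro δ ω d0 d1 q
  have n0 : 0 ≤ ν := (abs_nonneg _).trans (g.hn 0)
  have w0 := q.nonneg d0.le
  have l0 := g.l0
  set c := 4 * l + 2 * ν with hc
  have c0 : 0 ≤ c := by linarith
  have x1 : exp (-c) ≤ 1 := exp_le_one_iff.2 (by linarith)
  have d2 : δ * exp (-c) ≤ δ := by nlinarith
  have m1 := md_of_lip (δ := δ * exp (-c)) (by linarith)
    (lip_comp_mul r hp hK g.hn g.hl l0)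
  refine ((m1.add (q.mono d2 le_rfl)).congr fun x => g.reg.nl_mul r x).mono le_rfl ?_
  have x2 := mul_le_mul_of_nonneg_right (add_one_le_exp c) w0
  have x3 := mul_le_mul_of_nonneg_left (show δ * exp (-c) ≤ ω by nlinarith) c0
  rw [mul_one]
  nlinarith

end Lp

theorem abs_exp_sub {u v : ℝ} (hu : |u| ≤ 1 / 10) (hv : |v| ≤ 1 / 10) :
    |exp u - exp v| ≤ 6 / 5 * |u - v| := by
  have k : ∀ a b : ℝ, |a| ≤ 1 / 10 → |b| ≤ 1 / 10 → a ≤ b → |exp b - exp a| ≤ 6 / 5 * |b - a| := by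
    intro a b ha hb hab
    obtain ⟨z, _, z2, e⟩ := mvt_ex hasDerivAt_exp hab
    have := (abs_le.1 (abs_exp_sub_one hb (by norm_num))).2
    rw [e, abs_mul, abs_of_pos (exp_pos _)]
    exact mul_le_mul_of_nonneg_right ((exp_le_exp.2 z2).trans (by linarith)) (abs_nonneg _)
  rcases le_total u v with c | c
  · rw [abs_sub_comm, abs_sub_comm u]
    exact k u v hu hv c
  · exact k v u hv hu c

/-- Splitting off the average over intervals of length `h`. -/
theorem exists_split {F : Equiv.Perm ℝ} {ε ε' h : ℝ} (hF : Sm F ε ε) (h0 : 0 < h) (h1 : h ≤ 1)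
    (e2 : ε' ≤ ε) (hosc : ∀ x, |ph F (x + h) - ph F x| ≤ ε' * h) :
    ∃ K G : Equiv.Perm ℝ, F = K * G ∧ Sm K (ε * h) (4 * ε) ∧ Per G ∧ Lp G ε (2 * ε') (4 * ε / h) ∧
      (∀ x, |K x - x| ≤ 2 * (ε * h)) ∧ MdT (nl F) (nl K) h (28 * ε) := by
  have e0 := hF.eps0
  have es := hF.small
  have e1 : 0 ≤ ε' := by
    by_contra c
    nlinarith [not_le.1 c, (abs_nonneg _).trans (hosc 0)]
  have cF : Continuous fun x => F x - x := (Reg.continuous hF.reg).sub continuous_id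
  set P : ℝ → ℝ := fun x => ∫ t in (0 : ℝ)..x, (F t - t) with hP
  have dP : ∀ x, HasDerivAt P (F x - x) x := fun x => (cF.integral_hasStrictDerivAt 0 x).hasDerivAt
  have pP : ∀ x, P (x + 1) - P x = P 1 := fun x => by
    have hp : Function.Periodic (fun y => F y - y) 1 := fun y => by simp only [hF.per y]; ring
    have := hp.intervalIntegral_add_eq x 0
    rw [zero_add] at this
    rw [hP]
    simp only
    rw [intervalIntegral.integral_interval_sub_left (cF.intervalIntegrable _ _)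
      (cF.intervalIntegrable _ _), this]
  have q : ∀ x, ∃ z, |x - z| ≤ h ∧ 1 + (F (x + h) - (x + h) - (F x - x)) / h = exp (ph F z) := by
    intro x
    obtain ⟨z, z1, z2, e⟩ := mvt_ex hF.reg.d1 (show x ≤ x + h by linarith)
    refine ⟨z, by rw [abs_le]; constructor <;> linarith, ?_⟩
    field_simp
    linarith
  have d3 : ∀ x, HasDerivAt (fun x => (exp (ph F (x + h)) - exp (ph F x)) / h)
      ((exp (ph F (x + h)) * nl F (x + h) - exp (ph F x) * nl F x) / h) x := fun x =>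
    ((HasDerivAt.comp_add_const x h (hF.reg.d2 (x + h)).exp).sub (hF.reg.d2 x).exp).div_const h
  have d2 : ∀ x, HasDerivAt (fun x => (F (x + h) - (x + h) - (F x - x)) / h)
      ((exp (ph F (x + h)) - exp (ph F x)) / h) x := fun x =>
    ((((HasDerivAt.comp_add_const x h (hF.reg.d1 (x + h))).sub
      ((hasDerivAt_id x).add_const h)).sub ((hF.reg.d1 x).sub (hasDerivAt_id x))).div_const
        h).congr_deriv (by ring)
  obtain ⟨G, hG, r⟩ := exists_perm
    (p := fun x => (P (x + h) - P x) / h + (F 0 - (P (0 + h) - P 0) / h))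
    (fun x => (((HasDerivAt.comp_add_const x h (dP (x + h))).sub (dP x)).div_const h).add_const _)
    d2 (continuous_iff_continuousAt.2 fun x => (d3 x).continuousAt) (fun x => by
      obtain ⟨z, _, e⟩ := q x
      have := abs_exp_sub_one (hF.hp z) (by linarith)
      rw [← e, add_sub_cancel_left] at this
      linarith)
  have pG : Per G := fun x => by
    rw [hG, hG, show x + 1 + h = x + h + 1 by ring, sub_eq_iff_eq_add.1 (pP (x + h)),
      sub_eq_iff_eq_add.1 (pP x)]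
    ring
  have g1 : ∀ x, ∃ z, |x - z| ≤ h ∧ ph G x = ph F z ∧
      1 + (F (x + h) - (x + h) - (F x - x)) / h = exp (ph G x) := fun x => by
    obtain ⟨z, z1, e⟩ := q x
    have : ph G x = ph F z := by rw [r.ph_eq]; simp only [e, log_exp]
    exact ⟨z, z1, this, by rw [this, e]⟩
  have g2 : ∀ x, |ph G x| ≤ ε := fun x => by
    obtain ⟨z, _, e, _⟩ := g1 x
    rw [e]
    exact hF.hp z
  have g3 : ∀ x, |ph F x - ph G x| ≤ ε * h := fun x => by
    obtain ⟨z, z1, e, _⟩ := g1 x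
    rw [e]
    exact (mvt_abs hF.reg.d2 hF.hn x z).trans (mul_le_mul_of_nonneg_left z1 e0)
  have g4 : ∀ x, nl G x = (exp (ph F (x + h)) - exp (ph F x)) / h * exp (-ph G x) := fun x => by
    obtain ⟨_, _, _, e⟩ := g1 x
    rw [r.nl_eq, exp_neg, ← e]
    exact div_eq_mul_inv _ _
  have ex : ∀ u, |u| ≤ ε → exp u ≤ 6 / 5 := fun u hu => by
    linarith [(abs_le.1 (abs_exp_sub_one hu (by linarith))).2]
  have ex' : ∀ x, exp (-ph G x) ≤ 6 / 5 := fun x => ex _ (by rw [abs_neg]; exact g2 x)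
  have g5 : ∀ x, |nl G x| ≤ 2 * ε' := fun x => by
    have a := abs_exp_sub ((hF.hp (x + h)).trans es) ((hF.hp x).trans es)
    have b : |(exp (ph F (x + h)) - exp (ph F x)) / h| ≤ 6 / 5 * ε' := by
      rw [abs_div, abs_of_pos h0, div_le_iff₀ h0]
      linarith [hosc x]
    rw [g4, abs_mul, abs_of_pos (exp_pos _)]
    nlinarith [mul_le_mul b (ex' x) (exp_pos _).le (by positivity)]
  have g6 : ∀ x y, |nl G x - nl G y| ≤ 4 * ε / h * |x - y| := by
    refine mvt_abs (f' := fun x => (exp (ph F (x + h)) * nl F (x + h) - exp (ph F x) * nl F x) / h *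
      exp (-ph G x) - nl G x ^ 2) (fun x => ?_) fun x => ?_
    · refine (((d3 x).mul (r.isReg.d2 x).neg.exp).congr_of_eventuallyEq
        (Filter.Eventually.of_forall g4)).congr_deriv ?_
      simp only [Pi.neg_apply]
      rw [sq]
      nth_rewrite 2 [g4]
      ring
    · have t : ∀ z, |exp (ph F z) * nl F z| ≤ 6 / 5 * ε := fun z => by
        rw [abs_mul, abs_of_pos (exp_pos _)]
        exact mul_le_mul (ex _ (hF.hp z)) (hF.hn z) (abs_nonneg _) (by norm_num)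
      have b : |(exp (ph F (x + h)) * nl F (x + h) - exp (ph F x) * nl F x) / h| ≤ 12 / 5 * (ε / h) := by
        rw [abs_div, abs_of_pos h0, ← mul_div_assoc]
        refine div_le_div_of_nonneg_right ((abs_sub _ _).trans ?_) h0.le
        linarith [t (x + h), t x]
      have c : ε ≤ ε / h := by
        rw [le_div_iff₀ h0]
        nlinarith
      have d : nl G x ^ 2 ≤ ε := by
        have := pow_le_pow_left₀ (abs_nonneg _) ((g5 x).trans (show _ ≤ 2 * ε by linarith)) 2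
        rw [sq_abs] at this
        nlinarith
      refine (abs_sub _ _).trans ?_
      rw [abs_mul, abs_of_pos (exp_pos _), abs_of_nonneg (sq_nonneg (nl G x)), mul_div_assoc]
      nlinarith [mul_le_mul b (ex' x) (exp_pos _).le (by positivity)]
  have L : Lp G ε (2 * ε') (4 * ε / h) := ⟨r.isReg, g2, g5, g6, by linarith, by positivity⟩
  have rK := hF.reg.mul L.reg.inv
  have pK := hF.per.mul pG.inv
  have k1 : ∀ x, |ph (F * G⁻¹) x| ≤ ε * h := fun x => by
    rw [hF.reg.ph_mul L.reg.inv, L.reg.ph_inv]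
    exact g3 _
  refine ⟨F * G⁻¹, G, by group, ⟨rK, pK, k1, fun x => ?_, by nlinarith⟩, pG, L,
    disp_of_fix (c := G 0) rK pK k1 (by nlinarith) ?_, ?_⟩
  · rw [hF.reg.nl_mul L.reg.inv, L.reg.nl_inv, L.reg.ph_inv, ← sub_eq_add_neg, ← sub_mul, abs_mul,
      abs_of_pos (exp_pos _)]
    have := (abs_sub _ _).trans (add_le_add (hF.hn (G⁻¹ x)) (g5 (G⁻¹ x)))
    nlinarith [mul_le_mul this (ex' (G⁻¹ x)) (exp_pos _).le (by positivity)]
  · rw [Equiv.Perm.mul_apply, inv_ap, hG]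
    ring
  · refine (L.inv.md_right hF.reg (fun x => (hF.hn x).trans (by linarith)) h1).mono le_rfl ?_
    have : (4 * (4 * ε / h) + 4 * (2 * ε') ^ 2) * h = 16 * ε + 16 * (ε' * ε' * h) := by
      field_simp
      ring
    have b : ε' * ε' * h ≤ ε * (1 / 10) * 1 :=
      mul_le_mul (mul_le_mul e2 (by linarith) e1 e0) h1 h0.le (by positivity)
    rw [this]
    linarith

/-- A small periodic displacement field with three derivatives. -/
structure Fld (s s1 s2 s3 : ℝ → ℝ) (κ : ℝ) : Prop where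
  per : ∀ x, s (x + 1) = s x
  d1 : ∀ x, HasDerivAt s (s1 x) x
  d2 : ∀ x, HasDerivAt s1 (s2 x) x
  d3 : ∀ x, HasDerivAt s2 (s3 x) x
  bd : ∀ x, |s x| ≤ κ ∧ |s1 x| ≤ κ ∧ |s2 x| ≤ κ ∧ |s3 x| ≤ κ
  small : κ ≤ 1 / 100

open Classical in
/-- The map `x + s x`. -/
noncomputable def cj (s : ℝ → ℝ) : Equiv.Perm ℝ :=
  if h : ∃ e : Equiv.Perm ℝ, ∀ x, e x = x + s x then h.choose else 1

namespace Fld

variable {s s1 s2 s3 s' s1' s2' s3' : ℝ → ℝ} {κ μ ε : ℝ} {K G : Equiv.Perm ℝ}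

theorem cont (f : Fld s s1 s2 s3 κ) : Continuous s2 :=
  continuous_iff_continuousAt.2 fun x => (f.d3 x).continuousAt

theorem spec (f : Fld s s1 s2 s3 κ) :
    (∀ x, cj s x = x + s x) ∧ Lp (cj s) (2 * κ) (2 * κ) (2 * κ) := by
  have ks := f.small
  have k0 : 0 ≤ κ := (abs_nonneg _).trans (f.bd 0).1
  obtain ⟨e, he, r⟩ := exists_perm f.d1 f.d2 f.cont fun x => (f.bd x).2.1.trans (by linarith)
  have ex : ∃ e : Equiv.Perm ℝ, ∀ x, e x = x + s x := ⟨e, he⟩
  have q : ∀ x, cj s x = x + s x := by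
    rw [cj, dif_pos ex]
    exact ex.choose_spec
  have : cj s = e := Equiv.ext fun x => by rw [q, he]
  have p : ∀ x, 99 / 100 ≤ 1 + s1 x := fun x => by linarith [(abs_le.1 (f.bd x).2.1).1]
  refine ⟨q, ?_⟩
  rw [this]
  refine ⟨r.isReg, fun x => ?_, fun x => ?_, ?_, by linarith, by linarith⟩
  · rw [r.ph_eq]
    linarith [abs_log_le ((f.bd x).2.1.trans (show κ ≤ 1 / 2 by linarith)), (f.bd x).2.1]
  · rw [r.nl_eq]
    simp only
    rw [abs_div, abs_of_pos (show 0 < 1 + s1 x by linarith [p x]), div_le_iff₀ (by linarith [p x])]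
    nlinarith [(f.bd x).2.2.1, p x]
  · rw [r.nl_eq]
    refine mvt_abs (fun x => (f.d3 x).div ((f.d2 x).const_add 1) (by linarith [p x])) fun x => ?_
    have p2 : 0 < (1 + s1 x) ^ 2 := pow_pos (by linarith [p x]) 2
    rw [abs_div, abs_of_pos p2, div_le_iff₀ p2]
    refine (abs_sub _ _).trans ?_
    rw [abs_mul, abs_mul, abs_of_pos (show 0 < 1 + s1 x by linarith [p x])]
    have a1 := mul_le_mul_of_nonneg_right (f.bd x).2.2.2 (show 0 ≤ 1 + s1 x by linarith [p x])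
    have a2 := mul_le_mul (f.bd x).2.2.1 ((f.bd x).2.2.1.trans ks) (abs_nonneg _) k0
    nlinarith [p x, mul_nonneg k0 (show 0 ≤ 1 + s1 x - 99 / 100 by linarith [p x]),
      mul_nonneg k0 (mul_nonneg (show 0 ≤ 1 + s1 x - 99 / 100 by linarith [p x])
        (show 0 ≤ 1 + s1 x by linarith [p x]))]

theorem cj_per (f : Fld s s1 s2 s3 κ) : Per (cj s) := fun x => by
  rw [f.spec.1, f.spec.1, f.per]
  ring

theorem conj_disp (f : Fld s s1 s2 s3 κ) (hD : ∀ x, |K x - x| ≤ 2 * μ) (x : ℝ) :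
    |((cj s)⁻¹ * K * cj s) x - x| ≤ 4 * μ := by
  have := lip_two_inv f.spec.2.reg (fun z => (f.spec.2.hp z).trans f.spec.2.small) (K (cj s x))
    (cj s x)
  rw [inv_ap] at this
  simp only [Equiv.Perm.mul_apply]
  linarith [hD (cj s x)]

theorem conj_nl (f : Fld s s1 s2 s3 κ) (h : Sm K μ ε) (h1 : ε ≤ 1 / 4) (x : ℝ) :
    |nl ((cj s)⁻¹ * K * cj s) x - nl K (cj s x)| ≤ 11 * κ := by
  have L := f.spec.2
  have ks := f.small
  have k0 : 0 ≤ κ := (abs_nonneg _).trans (f.bd 0).1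
  have a1 : |nl (cj s)⁻¹ ((K * cj s) x) * exp (ph (K * cj s) x)| ≤ 2 * (2 * κ) * 2 := by
    rw [abs_mul, abs_of_pos (exp_pos _)]
    refine mul_le_mul (L.inv.hn _) (exp_le_two ?_) (exp_pos _).le (by linarith)
    rw [h.reg.ph_mul L.reg]
    linarith [(abs_le.1 (h.hp (cj s x))).2, (abs_le.1 (L.hp x)).2, h.small]
  have a2 : |nl K (cj s x) * (exp (ph (cj s) x) - 1)| ≤ 1 / 4 * (2 * (2 * κ)) := by
    rw [abs_mul]
    exact mul_le_mul ((h.hn _).trans h1) (abs_exp_sub_one (L.hp x) (by linarith)) (abs_nonneg _)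
      (by norm_num)
  have a3 := abs_le.1 (L.hn x)
  rw [mul_assoc, L.reg.inv.nl_mul (h.reg.mul L.reg), h.reg.nl_mul L.reg, abs_le]
  rw [abs_le] at a1 a2
  constructor <;> linarith

theorem conj_sm (f : Fld s s1 s2 s3 κ) (h : Sm K μ ε) (h1 : ε ≤ 1 / 4) (h2 : μ ≤ 1 / 20)
    (hD : ∀ x, |K x - x| ≤ 2 * μ) : Sm ((cj s)⁻¹ * K * cj s) (2 * μ) (ε + 11 * κ) := by
  have L := f.spec.2
  have k0 : 0 ≤ κ := (abs_nonneg _).trans (f.bd 0).1
  refine ⟨(L.reg.inv.mul h.reg).mul L.reg, (f.cj_per.inv.mul h.per).mul f.cj_per, fun x => ?_,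
    fun x => ?_, by linarith⟩
  · have a := abs_le.1 ((mvt_abs L.reg.d2 L.hn _ _).trans
      (mul_le_mul_of_nonneg_left (f.conj_disp hD x) (by linarith)))
    have b := abs_le.1 (h.hp (cj s x))
    have c := mul_le_mul_of_nonneg_right f.small h.mu0
    rw [(L.reg.inv.mul h.reg).ph_mul L.reg, L.reg.inv.ph_mul h.reg, L.reg.ph_inv, abs_le]
    simp only [Equiv.Perm.mul_apply] at a
    constructor <;> linarith [h.mu0]
  · have a := abs_le.1 (f.conj_nl h h1 x)
    have b := abs_le.1 (h.hn (cj s x))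
    rw [abs_le]
    constructor <;> linarith

theorem conj_md (f : Fld s s1 s2 s3 κ) (h : Sm K μ ε) (h1 : ε ≤ 1 / 4) :
    MdT (nl K) (nl ((cj s)⁻¹ * K * cj s)) 1 (60 * κ) := by
  have L := f.spec.2
  have ks := f.small
  have k0 : 0 ≤ κ := (abs_nonneg _).trans (f.bd 0).1
  have m1 := L.md_right h.reg (fun x => (h.hn x).trans (by linarith)) le_rfl
  have m2 := L.inv.md_left (h.reg.mul L.reg) (fun x => by
    rw [h.reg.ph_mul L.reg]
    linarith [abs_add_le (ph K (cj s x)) (ph (cj s) x), h.hp (cj s x), L.hp x, h.small]) (fun x => by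
    rw [h.reg.nl_mul L.reg]
    have : |nl K (cj s x) * exp (ph (cj s) x)| ≤ 1 / 4 * 2 := by
      rw [abs_mul, abs_of_pos (exp_pos _)]
      exact mul_le_mul ((h.hn _).trans h1) (exp_le_two ((le_of_abs_le (L.hp x)).trans L.small))
        (exp_pos _).le (by norm_num)
    linarith [abs_add_le (nl K (cj s x) * exp (ph (cj s) x)) (nl (cj s) x), L.hn x]) le_rfl
  rw [mul_assoc]
  exact (m1.trans m2 zero_le_one (by linarith)).mono le_rfl (by nlinarith)

theorem conj_stab (f : Fld s s1 s2 s3 κ) (f' : Fld s' s1' s2' s3' κ) (h : Sm K μ ε)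
    (hD : ∀ x, |K x - x| ≤ 2 * μ) {β β₁ : ℝ} (hb : ∀ x, |s x - s' x| ≤ β)
    (hb1 : ∀ x, |s1 x - s1' x| ≤ β₁) (x : ℝ) :
    |((cj s)⁻¹ * K * cj s) x - ((cj s')⁻¹ * K * cj s') x| ≤ 8 * μ * (β + β₁) := by
  have L := f.spec.2
  have m0 := h.mu0
  have b0 : 0 ≤ β := (abs_nonneg _).trans (hb 0)
  have b1 : 0 ≤ β₁ := (abs_nonneg _).trans (hb1 0)
  set u := ((cj s')⁻¹ * K * cj s') x with hu
  have a := lip_two_inv L.reg (fun z => (L.hp z).trans L.small) (K (cj s x)) (cj s u)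
  rw [inv_ap] at a
  have e : u + s' u = K (cj s' x) := by
    rw [← f'.spec.1, hu]
    simp only [Equiv.Perm.mul_apply, ap_inv]
  have a1 := lip_sub h.reg h.hp (by linarith [h.small]) (cj s x) (cj s' x)
  have a2 : |cj s x - cj s' x| ≤ β := by
    rw [f.spec.1, f'.spec.1, add_sub_add_left_eq_sub]
    exact hb x
  have a3 := abs_le.1 (a1.trans (mul_le_mul_of_nonneg_left a2 (by linarith)))
  have a4 := abs_le.1 ((mvt_abs (f := fun z => s z - s' z) (fun z => (f.d1 z).sub (f'.d1 z)) hb1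
    u x).trans (mul_le_mul_of_nonneg_left (f'.conj_disp hD x) b1))
  have a5 : |K (cj s x) - cj s u| ≤ 2 * μ * β + β₁ * (4 * μ) := by
    have e1 := f.spec.1 x
    have e2 := f'.spec.1 x
    rw [f.spec.1 u, abs_le]
    constructor <;> linarith
  simp only [Equiv.Perm.mul_apply]
  nlinarith [mul_nonneg m0 b0]

theorem conj_link (f : Fld s s1 s2 s3 κ) (h : Sm K μ ε) (g : Sm G ε ε) (hD : ∀ x, |K x - x| ≤ ε)
    (hD' : ∀ x, |G x - x| ≤ 1) (hk : κ ≤ ε) :
    Link ε 0 (K * G) ((cj s)⁻¹ * K * cj s * G) :=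
  ⟨K, G, cj s, s, s1, s2, h.reg, g.reg, h.per, g.per, rfl, rfl,
    fun x => by rw [f.spec.1, add_zero], f.per, f.d1, f.d2, f.cont, fun x =>
    ⟨(f.bd x).1.trans hk, (f.bd x).2.1.trans hk, (f.bd x).2.2.1.trans hk, h.hn x, g.hn x, hD x,
      hD' x⟩⟩

end Fld

end Pool.Agent.P.MP_0354a7_al
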