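import Pool.Agent.P.MP_0354a7_al.Defs

/-!
The halving step `K = A B ↦ R⁻¹ A R B`, where `B` is the mean of `K` and a translation.
-/

namespace Pool.Agent.P.MP_0354a7_al

open Real

theorem Md.mono {a : ℝ → ℝ} {δ ω δ' ω' : ℝ} (h : Md a δ ω) (h1 : δ' ≤ δ) (h2 : ω ≤ ω') :
    Md a δ' ω' := fun x y hxy => (h x y (hxy.trans h1)).trans h2

theorem Md.nonneg {a : ℝ → ℝ} {δ ω : ℝ} (h : Md a δ ω) (h0 : 0 ≤ δ) : 0 ≤ ω := by
  have := h 0 0 (by simpa using h0)
  simpa using this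

theorem Md.add {a b : ℝ → ℝ} {δ ω ω' : ℝ} (h : Md a δ ω) (h' : Md b δ ω') :
    Md (fun x => a x + b x) δ (ω + ω') := fun x y hxy => by
  have e : a x + b x - (a y + b y) = (a x - a y) + (b x - b y) := by ring
  simp only [e]
  exact (abs_add_le _ _).trans (add_le_add (h x y hxy) (h' x y hxy))

theorem Md.neg {a : ℝ → ℝ} {δ ω : ℝ} (h : Md a δ ω) : Md (fun x => -a x) δ ω := fun x y hxy => by
  have e : -a x - -a y = -(a x - a y) := by ring
  simp only [e, abs_neg]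
  exact h x y hxy

theorem Md.congr {a b : ℝ → ℝ} {δ ω : ℝ} (h : Md a δ ω) (e : ∀ x, b x = a x) : Md b δ ω := by
  rw [show b = a from funext e]
  exact h

theorem md_of_lip {a : ℝ → ℝ} {l δ : ℝ} (hl : 0 ≤ l) (h : ∀ x y, |a x - a y| ≤ l * |x - y|) :
    Md a δ (l * δ) := fun x y hxy => (h x y).trans (mul_le_mul_of_nonneg_left hxy hl)

theorem Md.comp_mul {g c ψ : ℝ → ℝ} {δ ω ε γ l Λ δ' : ℝ} (h : Md g δ ω) (hg : ∀ x, |g x| ≤ ε)
    (hc : ∀ x, |c x| ≤ γ) (hl : ∀ x y, |c x - c y| ≤ l * |x - y|)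
    (hψ : ∀ x y, |ψ x - ψ y| ≤ Λ * |x - y|) (hδ : Λ * δ' ≤ δ) (h0 : 0 ≤ Λ) (l0 : 0 ≤ l) :
    Md (fun x => c x * g (ψ x)) δ' (γ * ω + l * δ' * ε) := fun x y hxy => by
  have e : c x * g (ψ x) - c y * g (ψ y) = c x * (g (ψ x) - g (ψ y)) + (c x - c y) * g (ψ y) := by
    ring
  have a1 := h (ψ x) (ψ y) ((hψ x y).trans ((mul_le_mul_of_nonneg_left hxy h0).trans hδ))
  have a2 := (hl x y).trans (mul_le_mul_of_nonneg_left hxy l0)
  simp only [e]
  refine (abs_add_le _ _).trans (add_le_add ?_ ?_)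
  · rw [abs_mul]
    exact mul_le_mul (hc x) a1 (abs_nonneg _) ((abs_nonneg _).trans (hc x))
  · rw [abs_mul]
    exact mul_le_mul a2 (hg _) (abs_nonneg _) ((abs_nonneg _).trans a2)

/-- Moduli of continuity of `a` at scales `δ ≤ h ω` pass to `a'` with the loss `exp c`. -/
def MdT (a a' : ℝ → ℝ) (h c : ℝ) : Prop :=
  ∀ δ ω : ℝ, 0 < δ → δ ≤ h * ω → Md a δ ω → Md a' (δ * exp (-c)) (exp c * ω)

theorem MdT.refl (a : ℝ → ℝ) (h : ℝ) : MdT a a h 0 := fun δ ω _ _ m => by simpa using m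

theorem MdT.trans {a a' a'' : ℝ → ℝ} {h c c' : ℝ} (m : MdT a a' h c) (m' : MdT a' a'' h c')
    (h0 : 0 ≤ h) (hc : 0 ≤ c) : MdT a a'' h (c + c') := fun δ ω d0 d1 q => by
  have w0 := q.nonneg d0.le
  have e1 : exp (-c) ≤ 1 := exp_le_one_iff.2 (by linarith)
  have e2 : 1 ≤ exp c := one_le_exp hc
  have := m' _ _ (mul_pos d0 (exp_pos _)) (by
    have : h * ω ≤ h * (exp c * ω) := mul_le_mul_of_nonneg_left (by nlinarith) h0
    nlinarith) (m δ ω d0 d1 q)
  rw [neg_add, exp_add, exp_add, ← mul_assoc, mul_comm (exp c), mul_assoc (exp c')]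
  exact this

theorem MdT.mono {a a' : ℝ → ℝ} {h h' c c' : ℝ} (m : MdT a a' h c) (hh : h' ≤ h) (hc : c ≤ c') :
    MdT a a' h' c' := fun δ ω d0 d1 q => by
  have w0 := q.nonneg d0.le
  exact (m δ ω d0 (d1.trans (mul_le_mul_of_nonneg_right hh w0)) q).mono
    (mul_le_mul_of_nonneg_left (exp_le_exp.2 (by linarith)) d0.le)
    (mul_le_mul_of_nonneg_right (exp_le_exp.2 hc) w0)

theorem abs_log_mean {u μ : ℝ} (h : |u| ≤ μ) : |log ((1 + exp u) / 2)| ≤ μ := by
  have b := abs_le.1 h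
  have m0 : 0 ≤ μ := (abs_nonneg _).trans h
  have p : 0 < (1 + exp u) / 2 := by positivity
  rw [abs_le, le_log_iff_exp_le p, log_le_iff_le_exp p]
  have := exp_le_exp.2 b.1
  have := exp_le_exp.2 b.2
  have := one_le_exp m0
  have := exp_le_one_iff.2 (show -μ ≤ 0 by linarith)
  constructor <;> linarith

theorem sub_log_mean (u : ℝ) : u - log ((1 + exp u) / 2) = -log ((1 + exp (-u)) / 2) := by
  have : (1 + exp u) / 2 = exp u * ((1 + exp (-u)) / 2) := by
    rw [exp_neg]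
    field_simp
    ring
  rw [this, log_mul (exp_pos _).ne' (by positivity), log_exp]
  ring

theorem exp_le_two {u : ℝ} (h : u ≤ 1 / 2) : exp u ≤ 2 := by
  rcases le_total u 0 with c | c
  · linarith [exp_le_one_iff.2 c]
  · have := abs_exp_sub_one (show |u| ≤ 1 / 2 by rwa [abs_of_nonneg c]) (by norm_num)
    linarith [(abs_le.1 this).2]

/-- A small periodic map. -/
structure Sm (K : Equiv.Perm ℝ) (μ ε : ℝ) : Prop where
  reg : IsReg K
  per : Per K
  hp : ∀ x, |ph K x| ≤ μ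
  hn : ∀ x, |nl K x| ≤ ε
  small : μ ≤ 1 / 10

theorem Sm.mu0 {K : Equiv.Perm ℝ} {μ ε : ℝ} (h : Sm K μ ε) : 0 ≤ μ := (abs_nonneg _).trans (h.hp 0)

theorem Sm.eps0 {K : Equiv.Perm ℝ} {μ ε : ℝ} (h : Sm K μ ε) : 0 ≤ ε := (abs_nonneg _).trans (h.hn 0)

theorem Sm.mono {K : Equiv.Perm ℝ} {μ ε μ' ε' : ℝ} (h : Sm K μ ε) (h1 : μ ≤ μ') (h2 : ε ≤ ε')
    (h3 : μ' ≤ 1 / 10) : Sm K μ' ε' :=
  ⟨h.reg, h.per, fun x => (h.hp x).trans h1, fun x => (h.hn x).trans h2, h3⟩

theorem sm_of_nl {K : Equiv.Perm ℝ} {ε : ℝ} (r : IsReg K) (p : Per K) (h : ∀ x, |nl K x| ≤ ε)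
    (s : ε ≤ 1 / 10) : Sm K ε ε := ⟨r, p, Reg.phi_le r p h, h, s⟩

theorem lip_two {e : Equiv.Perm ℝ} (r : IsReg e) (h : ∀ x, |ph e x| ≤ 1 / 2) (x y : ℝ) :
    |e x - e y| ≤ 2 * |x - y| :=
  (Reg.lip r h x y).trans (mul_le_mul_of_nonneg_right (exp_le_two le_rfl) (abs_nonneg _))

theorem lip_two_inv {e : Equiv.Perm ℝ} (r : IsReg e) (h : ∀ x, |ph e x| ≤ 1 / 2) (x y : ℝ) :
    |e⁻¹ x - e⁻¹ y| ≤ 2 * |x - y| :=
  lip_two r.inv (fun z => by rw [r.ph_inv, abs_neg]; exact h _) x y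

/-- `e - id` is Lipschitz with a small constant. -/
theorem lip_sub {e : Equiv.Perm ℝ} {μ : ℝ} (r : IsReg e) (h : ∀ x, |ph e x| ≤ μ) (s : μ ≤ 1)
    (x y : ℝ) : |e x - x - (e y - y)| ≤ 2 * μ * |x - y| :=
  mvt_abs (f := fun z => e z - z) (fun z => (r.d1 z).sub (hasDerivAt_id z))
    (fun z => abs_exp_sub_one (h z) s) x y

/-- A periodic map with a fixed point moves points by little. -/
theorem disp_of_fix {e : Equiv.Perm ℝ} {μ c : ℝ} (r : IsReg e) (p : Per e) (h : ∀ x, |ph e x| ≤ μ)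
    (s : μ ≤ 1) (hc : e c = c) (x : ℝ) : |e x - x| ≤ 2 * μ := by
  have := lip_sub r h s x (c + ⌊x - c⌋)
  rw [p.int, hc, sub_self, sub_zero] at this
  have m0 : 0 ≤ μ := (abs_nonneg _).trans (h 0)
  have b : |x - (c + ⌊x - c⌋)| ≤ 1 := by
    rw [abs_le]
    constructor <;> linarith [Int.floor_le (x - c), Int.lt_floor_add_one (x - c)]
  nlinarith

open Classical in
/-- The mean of `K` and the translation by `K 0`. -/
noncomputable def mid (K : Equiv.Perm ℝ) : Equiv.Perm ℝ :=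
  if h : ∃ e : Equiv.Perm ℝ, ∀ x, e x = (K x + x + K 0) / 2 then h.choose else 1

/-- The weight of the mean. -/
noncomputable def th (K : Equiv.Perm ℝ) (x : ℝ) : ℝ := exp (ph K x) / (1 + exp (ph K x))

/-- The translation seen in the coordinate given by the mean. -/
noncomputable def psi (τ : ℝ) (K : Equiv.Perm ℝ) : Equiv.Perm ℝ := (mid K)⁻¹ * tr τ * mid K

/-- The halving step. -/
noncomputable def half (τ : ℝ) (K : Equiv.Perm ℝ) : Equiv.Perm ℝ :=
  (tr τ)⁻¹ * (K * (mid K)⁻¹) * tr τ * mid K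

namespace Sm

variable {K K' : Equiv.Perm ℝ} {μ ε μ' ε' : ℝ}

theorem mid_spec (h : Sm K μ ε) : (∀ x, mid K x = (K x + x + K 0) / 2) ∧
    Reg (mid K) (fun x => log ((1 + exp (ph K x)) / 2)) (fun x => th K x * nl K x) := by
  obtain ⟨e, he, r⟩ := exists_perm (p := fun x => (K x - x + K 0) / 2)
    (p1 := fun x => (exp (ph K x) - 1) / 2) (p2 := fun x => exp (ph K x) * nl K x / 2)
    (fun x => (((h.reg.d1 x).sub (hasDerivAt_id x)).add_const _).div_const 2)
    (fun x => ((h.reg.d2 x).exp.sub_const 1).div_const 2)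
    (((Reg.continuous_phi h.reg).rexp.mul h.reg.cont).div_const 2) (fun x => by
      have := abs_exp_sub_one (h.hp x) (by linarith [h.small])
      rw [abs_div, abs_two]
      linarith [h.small])
  have ex : ∃ e : Equiv.Perm ℝ, ∀ x, e x = (K x + x + K 0) / 2 :=
    ⟨e, fun x => by rw [he]; ring⟩
  have s : ∀ x, mid K x = (K x + x + K 0) / 2 := by
    rw [mid, dif_pos ex]
    exact ex.choose_spec
  have : mid K = e := Equiv.ext fun x => by rw [s, he]; ring
  refine ⟨s, ?_⟩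
  rw [this]
  refine r.congr (fun x => ?_) fun x => ?_
  · congr 1
    ring
  · rw [th, show 1 + (exp (ph K x) - 1) / 2 = (1 + exp (ph K x)) / 2 by ring]
    have := exp_pos (ph K x)
    field_simp

theorem mid_reg (h : Sm K μ ε) : IsReg (mid K) := h.mid_spec.2.isReg

theorem mid_per (h : Sm K μ ε) : Per (mid K) := fun x => by
  rw [h.mid_spec.1, h.mid_spec.1, h.per]
  ring

theorem ph_mid (h : Sm K μ ε) (x : ℝ) : |ph (mid K) x| ≤ μ := by
  rw [h.mid_spec.2.ph_eq]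
  exact abs_log_mean (h.hp x)

theorem ph_sub_mid (h : Sm K μ ε) (x : ℝ) : |ph K x - ph (mid K) x| ≤ μ := by
  rw [h.mid_spec.2.ph_eq, sub_log_mean, abs_neg]
  exact abs_log_mean (by rw [abs_neg]; exact h.hp x)

theorem nl_mid (h : Sm K μ ε) (x : ℝ) : nl (mid K) x = th K x * nl K x :=
  congrFun h.mid_spec.2.nl_eq x

theorem th_le (h : Sm K μ ε) (x : ℝ) : |th K x - 1 / 2| ≤ μ := by
  have a := abs_exp_sub_one (h.hp x) (by linarith [h.small])
  have p := exp_pos (ph K x)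
  have e : th K x - 1 / 2 = (exp (ph K x) - 1) / (2 * (1 + exp (ph K x))) := by
    rw [th]
    field_simp
    ring
  rw [e, abs_div, abs_of_pos (show 0 < 2 * (1 + exp (ph K x)) by positivity), div_le_iff₀ (by positivity)]
  nlinarith [h.mu0]

theorem th_lip (h : Sm K μ ε) (x y : ℝ) : |th K x - th K y| ≤ ε * |x - y| := by
  refine mvt_abs (f' := fun x => th K x * (1 - th K x) * nl K x) (fun z => ?_) (fun z => ?_) x y
  · have p := exp_pos (ph K z)
    have := (h.reg.d2 z).exp.div ((h.reg.d2 z).exp.const_add 1) (by positivity)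
    refine HasDerivAt.congr_deriv (f := th K) this ?_
    rw [th]
    field_simp
  · have b := abs_le.1 (h.th_le z)
    have : |th K z * (1 - th K z)| ≤ 1 := by
      rw [abs_le]
      constructor <;> nlinarith [h.small, h.mu0]
    rw [abs_mul]
    nlinarith [h.hn z, abs_nonneg (nl K z), abs_nonneg (th K z * (1 - th K z))]

theorem nl_mid_le (h : Sm K μ ε) (x : ℝ) : |nl (mid K) x| ≤ ε := by
  have b := abs_le.1 (h.th_le x)
  have : |th K x| ≤ 1 := by
    rw [abs_le]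
    constructor <;> linarith [h.small]
  rw [h.nl_mid, abs_mul]
  nlinarith [h.hn x, abs_nonneg (nl K x), abs_nonneg (th K x)]

theorem psi_reg (h : Sm K μ ε) (τ : ℝ) : IsReg (psi τ K) :=
  (h.mid_reg.inv.mul (tr_reg τ).isReg).mul h.mid_reg

theorem ph_psi (h : Sm K μ ε) (τ x : ℝ) :
    ph (psi τ K) x = ph (mid K) x - ph (mid K) (psi τ K x) := by
  rw [psi, (h.mid_reg.inv.mul (tr_reg τ).isReg).ph_mul h.mid_reg,
    h.mid_reg.inv.ph_mul (tr_reg τ).isReg, h.mid_reg.ph_inv, (tr_reg τ).ph_eq]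
  simp only [Equiv.Perm.mul_apply]
  ring

theorem ph_psi_le (h : Sm K μ ε) (τ x : ℝ) : |ph (psi τ K) x| ≤ 2 * μ := by
  rw [h.ph_psi]
  linarith [abs_sub (ph (mid K) x) (ph (mid K) (psi τ K x)), h.ph_mid x, h.ph_mid (psi τ K x)]

theorem exp_psi (h : Sm K μ ε) (τ x : ℝ) : |exp (ph (psi τ K) x) - 1| ≤ 4 * μ := by
  linarith [abs_exp_sub_one (h.ph_psi_le τ x) (by linarith [h.small])]

theorem nl_psi_le (h : Sm K μ ε) (τ x : ℝ) : |nl (psi τ K) x| ≤ 3 * ε := by
  have d := (h.mid_reg.d2 x).sub ((h.mid_reg.d2 _).comp x ((h.psi_reg τ).d1 x))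
  have e : nl (psi τ K) x = nl (mid K) x - nl (mid K) (psi τ K x) * exp (ph (psi τ K) x) := by
    exact ((h.psi_reg τ).d2 x).unique
      (d.congr_of_eventuallyEq (Filter.Eventually.of_forall (h.ph_psi τ)))
  have b := abs_le.1 (h.exp_psi τ x)
  have : |nl (mid K) (psi τ K x) * exp (ph (psi τ K) x)| ≤ ε * 2 := by
    rw [abs_mul, abs_of_pos (exp_pos _)]
    exact mul_le_mul (h.nl_mid_le _) (by linarith [h.small]) (exp_pos _).le h.eps0
  rw [e]
  linarith [abs_sub (nl (mid K) x) (nl (mid K) (psi τ K x) * exp (ph (psi τ K) x)), h.nl_mid_le x]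

theorem psi_pos (h : Sm K μ ε) (τ x : ℝ) : |psi τ K x - x - τ| ≤ 2 * μ * |τ| := by
  have := lip_sub h.mid_reg.inv (μ := μ) (fun z => by
    rw [h.mid_reg.ph_inv, abs_neg]; exact h.ph_mid _) (by linarith [h.small]) (mid K x + τ) (mid K x)
  rw [inv_ap, add_sub_cancel_left] at this
  have e : psi τ K x - x - τ = (mid K)⁻¹ (mid K x + τ) - (mid K x + τ) - (x - mid K x) := by
    simp only [psi, Equiv.Perm.mul_apply, tr_ap]
    ring
  rw [e]
  exact this

theorem half_eq (τ : ℝ) : half τ K = (tr τ)⁻¹ * K * psi τ K := by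
  simp only [half, psi, mul_assoc]

theorem half_reg (h : Sm K μ ε) (τ : ℝ) : IsReg (half τ K) := by
  rw [half_eq]
  exact ((tr_reg τ).isReg.inv.mul h.reg).mul (h.psi_reg τ)

theorem half_per (h : Sm K μ ε) (τ : ℝ) : Per (half τ K) :=
  (((tr_per τ).inv.mul (h.per.mul h.mid_per.inv)).mul (tr_per τ)).mul h.mid_per

theorem ph_half (h : Sm K μ ε) (τ x : ℝ) :
    ph (half τ K) x = ph K (psi τ K x) - ph (mid K) (psi τ K x) + ph (mid K) x := by
  rw [half_eq, ((tr_reg τ).isReg.inv.mul h.reg).ph_mul (h.psi_reg τ),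
    (tr_reg τ).isReg.inv.ph_mul h.reg, (tr_reg τ).isReg.ph_inv, (tr_reg τ).ph_eq, h.ph_psi]
  ring

theorem ph_half_le (h : Sm K μ ε) (τ x : ℝ) : |ph (half τ K) x| ≤ 2 * μ := by
  rw [h.ph_half]
  linarith [abs_add_le (ph K (psi τ K x) - ph (mid K) (psi τ K x)) (ph (mid K) x), h.ph_mid x,
    h.ph_sub_mid (psi τ K x)]

theorem nl_half (h : Sm K μ ε) (τ x : ℝ) : nl (half τ K) x = th K x * nl K x +
    (1 - th K (psi τ K x)) * exp (ph (psi τ K) x) * nl K (psi τ K x) := by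
  have d := (((h.reg.d2 _).comp x ((h.psi_reg τ).d1 x)).sub
    ((h.mid_reg.d2 _).comp x ((h.psi_reg τ).d1 x))).add (h.mid_reg.d2 x)
  rw [((h.half_reg τ).d2 x).unique
    (d.congr_of_eventuallyEq (Filter.Eventually.of_forall (h.ph_half τ))), h.nl_mid, h.nl_mid]
  ring

theorem cc_le (h : Sm K μ ε) (τ x : ℝ) :
    |(1 - th K (psi τ K x)) * exp (ph (psi τ K) x) - 1 / 2| ≤ 4 * μ := by
  have b := abs_le.1 (h.exp_psi τ x)
  have c := abs_le.1 (h.th_le (psi τ K x))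
  rw [abs_le]
  constructor <;> nlinarith [h.small, h.mu0]

theorem nl_half_sub (h : Sm K μ ε) (τ x : ℝ) :
    |nl (half τ K) x - (nl K x + nl K (psi τ K x)) / 2| ≤ 5 * μ * ε := by
  have e : nl (half τ K) x - (nl K x + nl K (psi τ K x)) / 2 = (th K x - 1 / 2) * nl K x +
      ((1 - th K (psi τ K x)) * exp (ph (psi τ K) x) - 1 / 2) * nl K (psi τ K x) := by
    rw [h.nl_half]
    ring
  rw [e]
  refine (abs_add_le _ _).trans ?_
  rw [abs_mul, abs_mul]
  have a1 := mul_le_mul (h.th_le x) (h.hn x) (abs_nonneg _) h.mu0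
  have a2 := mul_le_mul (h.cc_le τ x) (h.hn (psi τ K x)) (abs_nonneg _) (by linarith [h.mu0])
  linarith

theorem nl_half_le (h : Sm K μ ε) (τ x : ℝ) : |nl (half τ K) x| ≤ ε + 5 * μ * ε := by
  have a := abs_le.1 (h.nl_half_sub τ x)
  have b := abs_le.1 (h.hn x)
  have c := abs_le.1 (h.hn (psi τ K x))
  rw [abs_le]
  constructor <;> linarith

theorem half_md (h : Sm K ε ε) (τ : ℝ) : MdT (nl K) (nl (half τ K)) 1 (6 * ε) := by
  intro δ ω d0 d1 q
  have e0 := h.eps0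
  have w0 := q.nonneg d0.le
  have x1 : exp (-(6 * ε)) ≤ 1 := exp_le_one_iff.2 (by linarith)
  have dd : δ * exp (-(6 * ε)) ≤ δ := by nlinarith
  have m1 := q.comp_mul (c := th K) (ψ := fun x => x) (γ := 1 / 2 + ε) (Λ := 1)
    (δ' := δ * exp (-(6 * ε))) h.hn (fun x => by
      have := abs_le.1 (h.th_le x)
      rw [abs_le]
      constructor <;> linarith) h.th_lip (fun x y => by rw [one_mul]) (by linarith) zero_le_one e0
  have m2 := q.comp_mul (c := fun x => (1 - th K (psi τ K x)) * exp (ph (psi τ K) x))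
    (ψ := psi τ K) (γ := 1 / 2 + 4 * ε) (l := 7 * ε) (Λ := exp (2 * ε))
    (δ' := δ * exp (-(6 * ε))) h.hn (fun x => by
      have := abs_le.1 (h.cc_le τ x)
      rw [abs_le]
      constructor <;> linarith) (fun x y => by
      have e : (1 - th K (psi τ K x)) * exp (ph (psi τ K) x) -
          (1 - th K (psi τ K y)) * exp (ph (psi τ K) y) =
          -(th K (psi τ K x) - th K (psi τ K y)) * exp (ph (psi τ K) x) +
          (1 - th K (psi τ K y)) * (exp (ph (psi τ K) x) - exp (ph (psi τ K) y)) := by ring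
      have ex : ∀ z, exp (ph (psi τ K) z) ≤ 7 / 5 := fun z => by
        linarith [(abs_le.1 (h.exp_psi τ z)).2, h.small]
      have l1 := (h.th_lip (psi τ K x) (psi τ K y)).trans (mul_le_mul_of_nonneg_left
        (lip_two (h.psi_reg τ) (fun z => by linarith [h.ph_psi_le τ z, h.small]) x y) e0)
      have l2 := mvt_abs (fun z => ((h.psi_reg τ).d2 z).exp) (C := 7 / 5 * (3 * ε)) (fun z => by
        rw [abs_mul, abs_of_pos (exp_pos _)]
        exact mul_le_mul (ex z) (h.nl_psi_le τ z) (abs_nonneg _) (by norm_num)) x y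
      have l3 : |1 - th K (psi τ K y)| ≤ 1 := by
        have := abs_le.1 (h.th_le (psi τ K y))
        rw [abs_le]
        constructor <;> linarith [h.small]
      rw [e]
      refine (abs_add_le _ _).trans ?_
      rw [abs_mul, abs_mul, abs_neg, abs_of_pos (exp_pos _)]
      have a1 := mul_le_mul l1 (ex x) (exp_pos _).le (by positivity)
      have a2 := mul_le_mul l3 l2 (abs_nonneg _) zero_le_one
      nlinarith [mul_nonneg e0 (abs_nonneg (x - y))])
    (Reg.lip (h.psi_reg τ) (h.ph_psi_le τ)) (by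
      rw [mul_left_comm, ← exp_add]
      have : exp (2 * ε + -(6 * ε)) ≤ 1 := exp_le_one_iff.2 (by linarith)
      nlinarith) (exp_pos _).le (by linarith)
  refine ((m1.add m2).congr (h.nl_half τ)).mono le_rfl ?_
  have x2 := add_one_le_exp (6 * ε)
  have x3 : ε * ε * (δ * exp (-(6 * ε))) ≤ ε * (1 / 10) * ω :=
    mul_le_mul (mul_le_mul_of_nonneg_left h.small e0) (by linarith) (by positivity) (by positivity)
  nlinarith [mul_nonneg e0 w0]

theorem quot_reg (h : Sm K μ ε) : IsReg (K * (mid K)⁻¹) := h.reg.mul h.mid_reg.inv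

theorem quot_per (h : Sm K μ ε) : Per (K * (mid K)⁻¹) := h.per.mul h.mid_per.inv

theorem quot_disp (h : Sm K μ ε) (x : ℝ) : |(K * (mid K)⁻¹) x - x| ≤ 2 * μ := by
  refine disp_of_fix (c := mid K 0) h.quot_reg h.quot_per (fun z => ?_) (by linarith [h.small]) ?_ x
  · rw [h.reg.ph_mul h.mid_reg.inv, h.mid_reg.ph_inv]
    exact h.ph_sub_mid _
  · rw [Equiv.Perm.mul_apply, inv_ap, h.mid_spec.1]
    ring

theorem quot_nl (h : Sm K μ ε) (x : ℝ) : |nl (K * (mid K)⁻¹) x| ≤ 2 * ε := by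
  rw [h.reg.nl_mul h.mid_reg.inv, h.mid_reg.nl_inv, h.mid_reg.ph_inv, h.nl_mid]
  set y := (mid K)⁻¹ x
  have e : nl K y * exp (-ph (mid K) y) + -(th K y * nl K y * exp (-ph (mid K) y)) =
      (1 - th K y) * (nl K y * exp (-ph (mid K) y)) := by ring
  have l3 : |1 - th K y| ≤ 1 := by
    have := abs_le.1 (h.th_le y)
    rw [abs_le]
    constructor <;> linarith [h.small]
  have l4 : exp (-ph (mid K) y) ≤ 2 :=
    exp_le_two (by linarith [(abs_le.1 (h.ph_mid y)).1, h.small])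
  rw [e, abs_mul, abs_mul, abs_of_pos (exp_pos _)]
  have := mul_le_mul l3 (mul_le_mul (h.hn y) l4 (exp_pos _).le h.eps0) (by positivity) zero_le_one
  linarith

theorem mid_disp (h : Sm K μ ε) {D : ℝ} (hD : ∀ x, |K x - x| ≤ D) (x : ℝ) : |mid K x - x| ≤ D := by
  have a := abs_le.1 (hD x)
  have b := abs_le.1 (hD 0)
  rw [h.mid_spec.1, abs_le]
  constructor <;> linarith

theorem half_disp (h : Sm K μ ε) {D : ℝ} (hD : ∀ x, |K x - x| ≤ D) (τ x : ℝ) :
    |half τ K x - x| ≤ D + 2 * μ := by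
  have a := abs_le.1 (h.mid_disp hD x)
  have b := abs_le.1 (h.quot_disp (mid K x + τ))
  have e : half τ K x = (K * (mid K)⁻¹) (mid K x + τ) - τ := by
    simp only [half, Equiv.Perm.mul_apply, tr_ap, tr_inv_ap]
  rw [e, abs_le]
  constructor <;> linarith

theorem psi_stab (h : Sm K μ ε) (h' : Sm K' μ' ε') {η : ℝ} (hd : ∀ x, |K x - K' x| ≤ η) (τ x : ℝ) :
    |psi τ K x - psi τ K' x| ≤ 4 * η := by
  have m : ∀ z, |mid K z - mid K' z| ≤ η := fun z => by
    have a := abs_le.1 (hd z)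
    have b := abs_le.1 (hd 0)
    rw [h.mid_spec.1, h'.mid_spec.1, abs_le]
    constructor <;> linarith
  have := lip_two_inv h.mid_reg (fun z => by linarith [h.ph_mid z, h.small]) (mid K x + τ)
    (mid K (psi τ K' x))
  rw [inv_ap] at this
  have e : mid K' (psi τ K' x) = mid K' x + τ := by
    simp only [psi, Equiv.Perm.mul_apply, tr_ap, ap_inv]
  have a := abs_le.1 (m x)
  have b := abs_le.1 (m (psi τ K' x))
  have c : |mid K x + τ - mid K (psi τ K' x)| ≤ 2 * η := by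
    rw [abs_le]
    constructor <;> linarith
  have e' : psi τ K x = (mid K)⁻¹ (mid K x + τ) := rfl
  rw [e']
  linarith

theorem half_stab (h : Sm K μ ε) (h' : Sm K' μ' ε') {η : ℝ} (hd : ∀ x, |K x - K' x| ≤ η) (τ x : ℝ) :
    |half τ K x - half τ K' x| ≤ 9 * η := by
  have a := abs_le.1 (hd (psi τ K' x))
  have b := abs_le.1 ((lip_two h.reg (fun z => by linarith [h.hp z, h.small]) (psi τ K x)
    (psi τ K' x)).trans (mul_le_mul_of_nonneg_left (h.psi_stab h' hd τ x) zero_le_two))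
  simp only [half_eq, Equiv.Perm.mul_apply, tr_inv_ap]
  rw [abs_le]
  constructor <;> linarith

/-- The dyadic averages of the nonlinearity. -/
theorem half_osc (h : Sm K ε ε) {τ m : ℝ} (h0 : 0 ≤ τ) (hm : ∀ x, |ph K (x + 2 * τ) - ph K x| ≤ m)
    (x : ℝ) : |ph (half τ K) (x + τ) - ph (half τ K) x| ≤ m / 2 + 5 * ε ^ 2 * τ := by
  have e0 := h.eps0
  have c := mvt_abs (f := fun z => ph (mid K) z - ph K z / 2)
    (fun z => (h.mid_reg.d2 z).sub ((h.reg.d2 z).div_const 2)) (C := ε ^ 2) (fun z => by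
      rw [h.nl_mid, show th K z * nl K z - nl K z / 2 = (th K z - 1 / 2) * nl K z by ring, abs_mul, sq]
      exact mul_le_mul (h.th_le z) (h.hn z) (abs_nonneg _) e0)
  have l := mvt_abs h.reg.d2 h.hn
  have p1 := h.psi_pos τ x
  have p2 := h.psi_pos τ (x + τ)
  have p3 := lip_two (h.psi_reg τ) (fun z => by linarith [h.ph_psi_le τ z, h.small]) (x + τ) x
  rw [abs_of_nonneg h0] at p1 p2
  rw [add_sub_cancel_left, abs_of_nonneg h0] at p3
  have c1 := c (x + τ) x
  rw [add_sub_cancel_left, abs_of_nonneg h0] at c1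
  have c2 := abs_le.1 ((c _ _).trans (mul_le_mul_of_nonneg_left p3 (sq_nonneg ε)))
  have c3 := abs_le.1 ((l (psi τ K x) (x + τ)).trans
    (mul_le_mul_of_nonneg_left (show _ ≤ 2 * ε * τ by rwa [← sub_sub]) e0))
  have c4 := abs_le.1 ((l (psi τ K (x + τ)) (x + 2 * τ)).trans
    (mul_le_mul_of_nonneg_left (show _ ≤ 2 * ε * τ by
      rwa [show psi τ K (x + τ) - (x + 2 * τ) = psi τ K (x + τ) - (x + τ) - τ by ring]) e0))
  have c5 := abs_le.1 (hm x)
  have c6 := abs_le.1 c1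
  rw [h.ph_half, h.ph_half, abs_le]
  constructor <;> nlinarith

end Sm

end Pool.Agent.P.MP_0354a7_al
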