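import Pool.Agent.P.MP_0354a7_al.Split

/-!
Displacement fields with independent amplitudes on short windows, and a counting bound.
-/

namespace Pool.Agent.P.MP_0354a7_al

open Real Finset

theorem hasDerivAt_floor_mul {c : ℤ → ℝ} {r : ℝ} (hc : ∀ j, |c j| ≤ r) {g g' : ℝ → ℝ}
    (hg : ∀ t, HasDerivAt g (g' t) t) (h0 : ∀ n : ℤ, g n = 0) (h1 : ∀ n : ℤ, g' n = 0) (t : ℝ) :
    HasDerivAt (fun t => c ⌊t⌋ * g t) (c ⌊t⌋ * g' t) t := by
  rcases eq_or_lt_of_le (Int.floor_le t) with e | l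
  · have a := hg t
    have z0 : g t = 0 := by rw [← e]; exact h0 _
    have z1 : g' t = 0 := by rw [← e]; exact h1 _
    rw [hasDerivAt_iff_isLittleO] at a ⊢
    simp only [z0, z1, mul_zero, sub_zero, smul_zero] at a ⊢
    refine Asymptotics.IsBigO.trans_isLittleO (Asymptotics.IsBigO.of_bound r ?_) a
    refine Filter.Eventually.of_forall fun y => ?_
    rw [norm_mul]
    exact mul_le_mul_of_nonneg_right (hc _) (norm_nonneg _)
  · refine ((hg t).const_mul (c ⌊t⌋)).congr_of_eventuallyEq ?_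
    filter_upwards [Ioo_mem_nhds l (Int.lt_floor_add_one t)] with y hy
    rw [Int.floor_eq_iff.2 ⟨hy.1.le, hy.2⟩]

/-- The window profile and its derivatives. -/
noncomputable def c0 (t : ℝ) : ℝ := sin (π * t) ^ 4

/-- First derivative of the profile. -/
noncomputable def c1 (t : ℝ) : ℝ := π * (4 * sin (π * t) ^ 3 * cos (π * t))

/-- Second derivative of the profile. -/
noncomputable def c2 (t : ℝ) : ℝ :=
  π ^ 2 * (12 * sin (π * t) ^ 2 * cos (π * t) ^ 2 - 4 * sin (π * t) ^ 4)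

/-- Third derivative of the profile. -/
noncomputable def c3 (t : ℝ) : ℝ :=
  π ^ 3 * (24 * sin (π * t) * cos (π * t) ^ 3 - 40 * sin (π * t) ^ 3 * cos (π * t))

theorem d_sin (t : ℝ) : HasDerivAt (fun t => sin (π * t)) (cos (π * t) * π) t := by
  simpa using ((hasDerivAt_id t).const_mul π).sin

theorem d_cos (t : ℝ) : HasDerivAt (fun t => cos (π * t)) (-sin (π * t) * π) t := by
  simpa using ((hasDerivAt_id t).const_mul π).cos

theorem d_c0 (t : ℝ) : HasDerivAt c0 (c1 t) t :=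
  ((d_sin t).fun_pow 4).congr_deriv (by rw [c1]; push_cast; ring)

theorem d_c1 (t : ℝ) : HasDerivAt c1 (c2 t) t :=
  (((((d_sin t).fun_pow 3).const_mul 4).fun_mul (d_cos t)).const_mul π).congr_deriv
    (by rw [c2]; push_cast; ring)

theorem d_c2 (t : ℝ) : HasDerivAt c2 (c3 t) t :=
  ((((((d_sin t).fun_pow 2).const_mul 12).fun_mul ((d_cos t).fun_pow 2)).fun_sub
    (((d_sin t).fun_pow 4).const_mul 4)).const_mul (π ^ 2)).congr_deriv
    (by rw [c3]; push_cast; ring)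

theorem c_int (n : ℤ) : c0 n = 0 ∧ c1 n = 0 ∧ c2 n = 0 ∧ c3 n = 0 := by
  have : sin (π * n) = 0 := by rw [mul_comm]; exact sin_int_mul_pi n
  simp [c0, c1, c2, c3, this]

theorem c_bd (t : ℝ) : |c0 t| ≤ 1 ∧ |c1 t| ≤ 16 ∧ |c2 t| ≤ 256 ∧ |c3 t| ≤ 4096 := by
  have m : ∀ i j : ℕ, |sin (π * t) ^ i * cos (π * t) ^ j| ≤ 1 := fun i j => by
    rw [abs_mul, abs_pow, abs_pow]
    exact mul_le_one₀ (pow_le_one₀ (abs_nonneg _) (abs_sin_le_one _)) (by positivity)
      (pow_le_one₀ (abs_nonneg _) (abs_cos_le_one _))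
  have p : ∀ (i : ℕ) (u C : ℝ), |u| ≤ C → |π ^ i * u| ≤ 4 ^ i * C := fun i u C h => by
    rw [abs_mul, abs_of_nonneg (by positivity)]
    exact mul_le_mul (pow_le_pow_left₀ pi_pos.le pi_le_four i) h (abs_nonneg _) (by positivity)
  have m40 := abs_le.1 (m 4 0)
  have m31 := abs_le.1 (m 3 1)
  have m22 := abs_le.1 (m 2 2)
  have m13 := abs_le.1 (m 1 3)
  simp only [pow_zero, pow_one, mul_one] at m40 m31 m13
  refine ⟨abs_le.2 m40, ?_, ?_, ?_⟩
  · have := p 1 (4 * sin (π * t) ^ 3 * cos (π * t)) 4 (abs_le.2 ⟨by linarith, by linarith⟩)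
    rw [pow_one] at this
    exact this.trans (by norm_num)
  · exact (p 2 _ 16 (abs_le.2 ⟨by linarith, by linarith⟩)).trans (by norm_num)
  · exact (p 3 _ 64 (abs_le.2 ⟨by linarith, by linarith⟩)).trans (by norm_num)

theorem c0_nonneg (t : ℝ) : 0 ≤ c0 t := by
  rw [c0]
  positivity

theorem c_add_nat (t : ℝ) (n : ℕ) : c0 (t + n) = c0 t := by
  rw [c0, c0, mul_add, mul_comm π n, sin_add_nat_mul_pi, mul_pow, ← pow_mul,
    Even.neg_one_pow ⟨2 * n, by ring⟩, one_mul]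

theorem c0_max (t : ℝ) : 1 / 4 ≤ c0 (t + 0) ∨ 1 / 4 ≤ c0 (t + 1 / 2) := by
  rw [add_zero, c0, c0, mul_add, show π * (1 / 2) = π / 2 by ring, sin_add_pi_div_two]
  have := sin_sq_add_cos_sq (π * t)
  rcases le_total (1 / 2) (sin (π * t) ^ 2) with h | h
  · left
    nlinarith
  · right
    nlinarith

/-- Points where the profile is large are far from the integers. -/
theorem floor_near {t u : ℝ} (h : 1 / 4 ≤ c0 t) (hu : |u - t| ≤ 1 / 100) : ⌊u⌋ = ⌊t⌋ := by
  have l := mvt_abs d_c0 fun z => (c_bd z).2.1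
  have a := l t ⌊t⌋
  have b := l t ((⌊t⌋ + 1 : ℤ) : ℝ)
  rw [(c_int _).1, sub_zero] at a b
  rw [abs_of_nonneg (sub_nonneg.2 (Int.floor_le t))] at a
  push_cast at b
  rw [abs_of_nonpos (sub_nonpos.2 (Int.lt_floor_add_one t).le)] at b
  have c := abs_le.1 hu
  have d := le_abs_self (c0 t)
  exact Int.floor_eq_iff.2 ⟨by linarith, by linarith⟩

/-- Amplitude `c j` on the `j`-th window of length `1 / M`. -/
noncomputable def wf (g : ℝ → ℝ) (M : ℕ) (β : ℝ) (c : ℤ → ℝ) (y : ℝ) : ℝ :=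
  c ⌊M * y + β⌋ * g (M * y + β)

theorem wf_deriv {c : ℤ → ℝ} {r : ℝ} (hc : ∀ j, |c j| ≤ r) {g g' : ℝ → ℝ}
    (hg : ∀ t, HasDerivAt g (g' t) t) (h0 : ∀ n : ℤ, g n = 0) (h1 : ∀ n : ℤ, g' n = 0) (M : ℕ)
    (β y : ℝ) : HasDerivAt (wf g M β c) (M * wf g' M β c y) y := by
  have := (hasDerivAt_floor_mul hc hg h0 h1 (M * y + β)).comp y
    (((hasDerivAt_id y).const_mul (M : ℝ)).add_const β)
  exact this.congr_deriv (by rw [wf]; ring)

theorem wf_le {c : ℤ → ℝ} {r C : ℝ} (hc : ∀ j, |c j| ≤ r) {g : ℝ → ℝ} (hg : ∀ t, |g t| ≤ C) (M : ℕ)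
    (β y : ℝ) : |wf g M β c y| ≤ r * C := by
  rw [wf, abs_mul]
  exact mul_le_mul (hc _) (hg _) (abs_nonneg _) ((abs_nonneg _).trans (hc 0))

theorem wf_sub (g : ℝ → ℝ) (M : ℕ) (β : ℝ) (c c' : ℤ → ℝ) (y : ℝ) :
    wf g M β c y - wf g M β c' y = wf g M β (fun j => c j - c' j) y := by
  simp only [wf]
  ring

theorem wf_per {M : ℕ} {c : ℤ → ℝ} (hc : ∀ j, c (j + M) = c j) (β y : ℝ) :
    wf c0 M β c (y + 1) = wf c0 M β c y := by
  rw [wf, wf, show M * (y + 1) + β = M * y + β + M by ring, Int.floor_add_natCast, hc, c_add_nat]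

theorem wf_fld {M : ℕ} {c c' : ℤ → ℝ} {r κ : ℝ} (hc : ∀ j, |c j| ≤ r) (hc' : ∀ j, |c' j| ≤ r)
    (p : ∀ j, c (j + M) = c j) (p' : ∀ j, c' (j + M) = c' j) (hM : 1 ≤ M)
    (hκ : 8192 * (M : ℝ) ^ 3 * r ≤ κ) (s : κ ≤ 1 / 100) (β β' : ℝ) :
    Fld (fun y => wf c0 M β c y + wf c0 M β' c' y)
      (fun y => M * wf c1 M β c y + M * wf c1 M β' c' y)
      (fun y => M * (M * wf c2 M β c y) + M * (M * wf c2 M β' c' y))
      (fun y => M * (M * (M * wf c3 M β c y)) + M * (M * (M * wf c3 M β' c' y))) κ := by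
  have i0 := fun n => (c_int n).1
  have i1 := fun n => (c_int n).2.1
  have i2 := fun n => (c_int n).2.2.1
  have i3 := fun n => (c_int n).2.2.2
  have r0 : 0 ≤ r := (abs_nonneg _).trans (hc 0)
  have m1 : (1 : ℝ) ≤ M := by exact_mod_cast hM
  have m2 : (M : ℝ) ≤ M * M := by nlinarith
  have m3 : (M : ℝ) * M ≤ M * M * M := by nlinarith
  have k : ∀ {u v N C : ℝ}, |u| ≤ r * C → |v| ≤ r * C → 0 ≤ N → N ≤ M * M * M → 0 ≤ C → C ≤ 4096 →
      |N * u + N * v| ≤ κ := fun {u v N C} hu hv n0 n1 C0 C1 => by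
    rw [← mul_add, abs_mul, abs_of_nonneg n0]
    have a := (abs_add_le u v).trans (add_le_add hu hv)
    have b := mul_le_mul n1 (a.trans (show _ ≤ 8192 * r by nlinarith)) (abs_nonneg _) (by positivity)
    nlinarith
  refine ⟨fun y => by rw [wf_per p, wf_per p'],
    fun y => (wf_deriv hc d_c0 i0 i1 M β y).add (wf_deriv hc' d_c0 i0 i1 M β' y),
    fun y => ((wf_deriv hc d_c1 i1 i2 M β y).const_mul _).add
      ((wf_deriv hc' d_c1 i1 i2 M β' y).const_mul _),
    fun y => (((wf_deriv hc d_c2 i2 i3 M β y).const_mul _).const_mul _).add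
      (((wf_deriv hc' d_c2 i2 i3 M β' y).const_mul _).const_mul _), fun y => ⟨?_, ?_, ?_, ?_⟩, s⟩
  · have := k (wf_le hc (fun t => (c_bd t).1) M β y) (wf_le hc' (fun t => (c_bd t).1) M β' y)
      zero_le_one (by linarith) (by norm_num) (by norm_num)
    rwa [one_mul, one_mul] at this
  · exact k (wf_le hc (fun t => (c_bd t).2.1) M β y) (wf_le hc' (fun t => (c_bd t).2.1) M β' y)
      (by linarith) (by linarith) (by norm_num) (by norm_num)
  · have := k (wf_le hc (fun t => (c_bd t).2.2.1) M β y)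
      (wf_le hc' (fun t => (c_bd t).2.2.1) M β' y) (by linarith) m3 (by norm_num) (by norm_num)
    rwa [mul_assoc, mul_assoc] at this
  · have := k (wf_le hc (fun t => (c_bd t).2.2.2) M β y)
      (wf_le hc' (fun t => (c_bd t).2.2.2) M β' y) (by linarith) le_rfl (by norm_num) le_rfl
    simpa only [mul_assoc] using this

/-- Exponential moment over a separated family of configurations. -/
theorem count_bound {Ω : Type} [Fintype Ω] {M n : ℕ} (y : Ω → ℕ → ℝ) (α : ℕ → ℝ)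
    {g θ ε μ ξ : ℝ} {φ b : ℝ → ℝ} (g0 : 0 < g) (hφ : ∀ x, HasDerivAt φ (b x) x)
    (hb : ∀ x, |b x| ≤ ε) (hμ : ∀ x, |φ x| ≤ μ) (hm : Md b g ξ) (θ0 : 0 ≤ θ) (θ1 : θ * ε ≤ 1)
    (sep : ∀ σ σ', σ ≠ σ' → ∃ i < M, g ≤ |y σ i - y σ' i|)
    (rng : ∀ σ, ∀ i < M, α i ≤ y σ i ∧ y σ i < α i + n * g) :
    ∑ σ, exp (θ * ∑ i ∈ range M, b (y σ i)) ≤
      (exp (θ * ξ) * (n * (1 + (θ * ε) ^ 2) + θ * (2 * μ / g))) ^ M := by
  classical
  have lt : ∀ σ (i : Fin M), ⌊(y σ i - α i) / g⌋₊ < n := fun σ i => by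
    have := rng σ i i.2
    rw [Nat.floor_lt (div_nonneg (by linarith) g0.le), div_lt_iff₀ g0]
    linarith
  set J : Ω → Fin M → Fin n := fun σ i => ⟨_, lt σ i⟩ with hJ
  have hJ' : ∀ σ (i : Fin M), α i + (J σ i : ℕ) * g ≤ y σ i ∧ y σ i < α i + ((J σ i : ℕ) + 1) * g :=
    fun σ i => by
      have a := Nat.floor_le (div_nonneg (sub_nonneg.2 (rng σ i i.2).1) g0.le)
      have b := Nat.lt_floor_add_one ((y σ i - α i) / g)
      rw [le_div_iff₀ g0] at a
      rw [div_lt_iff₀ g0] at b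
      simp only [hJ]
      constructor <;> linarith
  have inj : Function.Injective J := fun σ σ' e => by
    by_contra c
    obtain ⟨i, hi, h⟩ := sep σ σ' c
    have a := hJ' σ ⟨i, hi⟩
    have b := hJ' σ' ⟨i, hi⟩
    rw [e] at a
    simp only at a b
    have : |y σ i - y σ' i| < g := by
      rw [abs_lt]
      constructor <;> linarith [a.1, a.2, b.1, b.2]
    linarith
  set c : ℕ → ℕ → ℝ := fun i j => (φ (α i + (j + 1 : ℕ) * g) - φ (α i + j * g)) / g with hc
  have c1 : ∀ i j : ℕ, ∃ z, α i + j * g ≤ z ∧ z ≤ α i + (j + 1) * g ∧ c i j = b z := fun i j => by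
    obtain ⟨z, z1, z2, e⟩ := mvt_ex hφ (show α i + j * g ≤ α i + (j + 1) * g by linarith)
    refine ⟨z, z1, z2, ?_⟩
    simp only [hc]
    push_cast
    rw [e]
    field_simp
    ring
  calc ∑ σ, exp (θ * ∑ i ∈ range M, b (y σ i))
      ≤ ∑ σ, ∏ i : Fin M, exp (θ * ξ) * exp (θ * c i (J σ i)) := by
        refine sum_le_sum fun σ _ => ?_
        rw [mul_sum, exp_sum, prod_range]
        refine prod_le_prod (fun _ _ => (exp_pos _).le) fun i _ => ?_
        obtain ⟨z, z1, z2, e⟩ := c1 i (J σ i)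
        have a := hJ' σ i
        have := (abs_le.1 (hm (y σ i) z (by
          rw [abs_le]
          constructor <;> linarith [a.1, a.2]))).2
        rw [← exp_add, e, ← mul_add]
        exact exp_le_exp.2 (mul_le_mul_of_nonneg_left (by linarith) θ0)
    _ ≤ ∑ j : Fin M → Fin n, ∏ i : Fin M, exp (θ * ξ) * exp (θ * c i (j i)) := by
        rw [← sum_image (s := univ) (g := J)
          (f := fun j : Fin M → Fin n => ∏ i : Fin M, exp (θ * ξ) * exp (θ * c i (j i)))
          fun σ _ σ' _ e => inj e]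
        exact sum_le_sum_of_subset_of_nonneg (subset_univ _) fun _ _ _ => by positivity
    _ = ∏ i : Fin M, ∑ j : Fin n, exp (θ * ξ) * exp (θ * c i j) := by
        rw [prod_univ_sum, Fintype.piFinset_univ]
    _ ≤ ∏ _i : Fin M, exp (θ * ξ) * (n * (1 + (θ * ε) ^ 2) + θ * (2 * μ / g)) := by
        refine prod_le_prod (fun _ _ => by positivity) fun i _ => ?_
        rw [← mul_sum, ← sum_range fun j => exp (θ * c i j)]
        refine mul_le_mul_of_nonneg_left ?_ (exp_pos _).le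
        have t : ∑ j ∈ range n, c i j ≤ 2 * μ / g := by
          simp only [hc]
          rw [← sum_div, sum_range_sub fun j : ℕ => φ (α i + j * g)]
          refine div_le_div_of_nonneg_right ?_ g0.le
          linarith [(abs_le.1 (hμ (α i + n * g))).2, (abs_le.1 (hμ (α i + (0 : ℕ) * g))).1]
        calc ∑ j ∈ range n, exp (θ * c i j) ≤ ∑ j ∈ range n, (1 + (θ * ε) ^ 2 + θ * c i j) := by
              refine sum_le_sum fun j _ => ?_
              obtain ⟨z, _, _, e⟩ := c1 i j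
              have a : |θ * c i j| ≤ θ * ε := by
                rw [abs_mul, abs_of_nonneg θ0, e]
                exact mul_le_mul_of_nonneg_left (hb z) θ0
              have a1 := (abs_le.1 (abs_exp_sub_one_sub_id_le (a.trans θ1))).2
              have a2 := pow_le_pow_left₀ (abs_nonneg _) a 2
              rw [sq_abs] at a2
              linarith
          _ ≤ _ := by
              rw [sum_add_distrib, sum_const, card_range, nsmul_eq_mul, ← mul_sum]
              linarith [mul_le_mul_of_nonneg_left t θ0]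
    _ = _ := by rw [prod_const, card_univ, Fintype.card_fin]

end Pool.Agent.P.MP_0354a7_al
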